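import Mathlib

/-!
The bound of de Caen for hypergraphs in which every `(r+1)`-set holds at most two edges.
-/

set_option autoImplicit false

namespace Pool.Agent.Lib.MP_155633_al.Amen

open Finset

variable {X : Type*} [DecidableEq X]

lemma caen_swap (L : Finset X) (r : ℕ) (U : Finset (Finset X))
    (hU : U ⊆ powersetCard (r + 1) L) (φ : Finset X → ℕ) :
    ∑ T ∈ powersetCard r L, ∑ _x ∈ (L \ T).filter (fun x => insert x T ∈ U), φ T =
      ∑ S ∈ U, ∑ x ∈ S, φ (S.erase x) := by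
  rw [sum_sigma', sum_sigma']
  refine sum_bij' (fun p _ => ⟨insert p.2 p.1, p.2⟩) (fun p _ => ⟨p.1.erase p.2, p.2⟩)
    ?_ ?_ ?_ ?_ ?_
  · intro p hp
    obtain ⟨-, h2⟩ := mem_sigma.1 hp
    exact mem_sigma.2 ⟨(mem_filter.1 h2).2, mem_insert_self _ _⟩
  · intro p hp
    obtain ⟨h1, h2⟩ := mem_sigma.1 hp
    obtain ⟨h3, h4⟩ := mem_powersetCard.1 (hU h1)
    refine mem_sigma.2 ⟨mem_powersetCard.2 ⟨(erase_subset _ _).trans h3, ?_⟩,
      mem_filter.2 ⟨mem_sdiff.2 ⟨h3 h2, notMem_erase _ _⟩, ?_⟩⟩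
    · rw [card_erase_of_mem h2, h4]; rfl
    · show insert p.2 (p.1.erase p.2) ∈ U
      rwa [insert_erase h2]
  · intro p hp
    obtain ⟨-, h2⟩ := mem_sigma.1 hp
    have h3 := (mem_sdiff.1 (mem_filter.1 h2).1).2
    obtain ⟨T, x⟩ := p
    simp only at h3 ⊢
    rw [erase_insert h3]
  · intro p hp
    obtain ⟨-, h2⟩ := mem_sigma.1 hp
    obtain ⟨S, x⟩ := p
    simp only at h2 ⊢
    rw [insert_erase h2]
  · intro p hp
    obtain ⟨-, h2⟩ := mem_sigma.1 hp
    have h3 := (mem_sdiff.1 (mem_filter.1 h2).1).2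
    simp only
    rw [erase_insert h3]

theorem caen (L : Finset X) (r : ℕ) (U : Finset (Finset X)) (hU : U ⊆ powersetCard (r + 1) L)
    (h2 : ∀ Q ⊆ L, Q.card = r + 2 → (Q.filter fun x => Q.erase x ∈ U).card ≤ 2) :
    (r + 1) ^ 2 * U.card ≤ L.card * L.card.choose r := by
  obtain ⟨N, hN⟩ : ∃ N : Finset X → ℕ,
      ∀ T, N T = ((L \ T).filter (fun x => insert x T ∈ U)).card := ⟨_, fun _ => rfl⟩
  have e1 : ∑ T ∈ powersetCard r L, N T = (r + 1) * U.card := by
    have h := caen_swap L r U hU (fun _ => 1)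
    simp only [sum_const, smul_eq_mul, mul_one] at h
    rw [sum_congr rfl fun T _ => hN T, h,
      sum_congr rfl fun S hS => (mem_powersetCard.1 (hU hS)).2, sum_const, smul_eq_mul, mul_comm]
  have e2 : ∑ T ∈ powersetCard r L, N T ^ 2 ≤ L.card * U.card := by
    have h := caen_swap L r U hU N
    simp only [sum_const, smul_eq_mul] at h
    rw [sum_congr rfl fun T _ => (by rw [sq, ← hN] :
      N T ^ 2 = ((L \ T).filter (fun x => insert x T ∈ U)).card * N T), h, mul_comm]
    refine (sum_le_card_nsmul _ _ L.card fun S hS => ?_).trans (by rw [smul_eq_mul])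
    obtain ⟨h3, h4⟩ := mem_powersetCard.1 (hU hS)
    have h5 : ∀ x ∈ S, N (S.erase x) ≤
        1 + ∑ x' ∈ L \ S, if insert x' (S.erase x) ∈ U then 1 else 0 := by
      intro x hx
      rw [hN, ← card_filter, add_comm]
      refine le_trans (card_le_card fun x' hx' => ?_) (card_insert_le x _)
      obtain ⟨h6, h7⟩ := mem_filter.1 hx'
      obtain ⟨h8, h9⟩ := mem_sdiff.1 h6
      by_cases e : x' = x
      · exact e ▸ mem_insert_self _ _
      · exact mem_insert_of_mem (mem_filter.2 ⟨mem_sdiff.2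
          ⟨h8, fun h => h9 (mem_erase.2 ⟨e, h⟩)⟩, h7⟩)
    refine (sum_le_sum h5).trans ?_
    rw [sum_add_distrib, sum_comm, sum_const, smul_eq_mul, mul_one]
    have h6 : ∀ x' ∈ L \ S, (∑ x ∈ S, if insert x' (S.erase x) ∈ U then 1 else 0) ≤ 1 := by
      intro x' hx'
      obtain ⟨h7, h8⟩ := mem_sdiff.1 hx'
      have h9 := h2 (insert x' S) (insert_subset h7 h3) (by rw [card_insert_of_notMem h8, h4])
      rw [filter_insert, erase_insert h8, if_pos hS,
        card_insert_of_notMem (fun h => h8 (mem_filter.1 h).1)] at h9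
      rw [← card_filter]
      refine le_trans (card_le_card fun x hx => ?_) (Nat.le_of_succ_le_succ h9)
      obtain ⟨h10, h11⟩ := mem_filter.1 hx
      refine mem_filter.2 ⟨h10, ?_⟩
      rwa [erase_insert_of_ne (fun e : x' = x => h8 (by rw [e]; exact h10))]
    have h7 := sum_le_card_nsmul _ _ 1 h6
    rw [smul_eq_mul, mul_one] at h7
    have h8 := card_sdiff_add_card_eq_card h3
    omega
  have e3 : (∑ T ∈ powersetCard r L, N T) ^ 2 ≤
      (powersetCard r L).card * ∑ T ∈ powersetCard r L, N T ^ 2 := sq_sum_le_card_mul_sum_sq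
  rw [e1, card_powersetCard] at e3
  rcases Nat.eq_zero_or_pos U.card with h | h
  · rw [h]; exact Nat.zero_le _
  · refine Nat.le_of_mul_le_mul_right ?_ h
    calc (r + 1) ^ 2 * U.card * U.card = ((r + 1) * U.card) ^ 2 := by ring
      _ ≤ L.card.choose r * (L.card * U.card) := e3.trans (Nat.mul_le_mul_left _ e2)
      _ = _ := by ring

end Pool.Agent.Lib.MP_155633_al.Amen
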