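import Pool.Agent.Lib.MP_155633_al.AmEps
import Pool.Agent.Lib.MP_155633_al.AmCaen

/-!
The pointwise inequality on a set where the sign function is constant.
-/

set_option autoImplicit false

namespace Pool.Agent.Lib.MP_155633_al.Amen

open Finset Equiv

variable {X : Type*} [LinearOrder X]

/-- All signed faces of `S` agree. -/
def Unif (h : Finset X → ℝ) (S : Finset X) : Prop :=
  ∃ l : ℝ, ∀ a ∈ S, ps (S.erase a) a * h (S.erase a) = l

lemma unif_pair {h : Finset X → ℝ} (hh : ∀ T, Pm (h T)) {Q : Finset X} {x a : X} (hx : x ∈ Q)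
    (ha : a ∈ Q) (hne : x ≠ a) {l l' : ℝ}
    (h1 : ∀ b ∈ Q.erase x, ps ((Q.erase x).erase b) b * h ((Q.erase x).erase b) = l)
    (h2 : ∀ b ∈ Q.erase a, ps ((Q.erase a).erase b) b * h ((Q.erase a).erase b) = l') :
    (l * ps (Q.erase x) x) * (l' * ps (Q.erase a) a) = -1 := by
  have e1 := h1 a (mem_erase.2 ⟨hne.symm, ha⟩)
  have e2 := h2 x (mem_erase.2 ⟨hne, hx⟩)
  rw [erase_right_comm] at e2
  have p1 : ps (Q.erase x) x = o x a * ps ((Q.erase x).erase a) x := by
    rw [← ps_insert (notMem_erase _ _), insert_erase (mem_erase.2 ⟨hne.symm, ha⟩)]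
  have p2 : ps (Q.erase a) a = o a x * ps ((Q.erase x).erase a) a := by
    rw [erase_right_comm, ← ps_insert (notMem_erase _ _), insert_erase (mem_erase.2 ⟨hne, hx⟩)]
  rw [← e1, ← e2, p1, p2, o_swap hne]
  have := ((((ps_pm ((Q.erase x).erase a) a).mul (ps_pm ((Q.erase x).erase a) x)).mul
    (hh ((Q.erase x).erase a))).mul (o_pm x a)).sq
  linear_combination (-1 : ℝ) * this

lemma unif_count {h : Finset X → ℝ} (hh : ∀ T, Pm (h T)) (L : Finset X) (r : ℕ)
    (U : Finset (Finset X)) (hU : U ⊆ powersetCard (r + 1) L) (hu : ∀ S ∈ U, Unif h S) :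
    (r + 1) ^ 2 * U.card ≤ L.card * L.card.choose r := by
  refine caen L r U hU fun Q _ _ => ?_
  by_contra hc
  obtain ⟨a, b, c, ha, hb, hc, hab, hac, hbc⟩ := two_lt_card_iff.1 (not_le.1 hc)
  obtain ⟨ha, ha'⟩ := mem_filter.1 ha
  obtain ⟨hb, hb'⟩ := mem_filter.1 hb
  obtain ⟨hc, hc'⟩ := mem_filter.1 hc
  obtain ⟨la, h1⟩ := hu _ ha'
  obtain ⟨lb, h2⟩ := hu _ hb'
  obtain ⟨lc, h3⟩ := hu _ hc'
  refine three (Pm.mul ?_ (ps_pm _ _)) (unif_pair hh ha hb hab h1 h2)
    (unif_pair hh ha hc hac h1 h3) (unif_pair hh hb hc hbc h2 h3)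
  rw [← h1 b (mem_erase.2 ⟨hab.symm, hb⟩)]
  exact (ps_pm _ _).mul (hh _)

lemma all_neg {ι : Type*} {S : Finset ι} {f : ι → ℝ} (hf : ∀ a, Pm (f a))
    (h : ∑ a ∈ S, f a ≤ -S.card) : ∀ a ∈ S, f a = -1 := by
  have h0 : ∀ a ∈ S, 0 ≤ f a + 1 := fun a _ => by linarith [(abs_le.1 (hf a).abs).1]
  have h1 : ∑ a ∈ S, (f a + 1) = 0 := by
    refine le_antisymm ?_ (sum_nonneg h0)
    rw [sum_add_distrib, sum_const, nsmul_eq_mul]
    linarith
  intro a ha
  linarith [(sum_eq_zero_iff_of_nonneg h0).1 h1 a ha]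

lemma all_pos {ι : Type*} {S : Finset ι} {f : ι → ℝ} (hf : ∀ a, Pm (f a))
    (h : S.card ≤ ∑ a ∈ S, f a) : ∀ a ∈ S, f a = 1 := by
  intro a ha
  have := all_neg (S := S) (f := fun a => -f a) (fun a => (hf a).neg)
    (by rw [sum_neg_distrib]; linarith) a ha
  linarith

variable {s : ℕ} {ε : Finset X → ℝ} {W : Finset X}

lemma ww_W (hW : ∀ Y ⊆ W, Y.card = 2 * s + 1 → ε Y = 1) {Y : Finset X} (hY : Y ⊆ W)
    (hc : Y.card = 2 * s + 1) (y : X) :
    ww ε Y y = 1 - ∑ a ∈ Y, ps (Y.erase a) a * vv ε (Y.erase a) y := by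
  unfold ww
  congr 1
  refine sum_congr rfl fun a ha => ?_
  rw [vv, insert_erase ha, hW Y hY hc, mul_one]

lemma no_neg (hs : 1 ≤ s) (hW : ∀ Y ⊆ W, Y.card = 2 * s + 1 → ε Y = 1) {Y : Finset X}
    (hY : Y ⊆ W) (hc : Y.card = 2 * s + 1) {y : X}
    (hw : ww ε Y y = 0 ∨ ww ε Y y = 2 * s + 2) (h : ∀ a ∈ Y, vv ε (Y.erase a) y = -1) :
    False := by
  rw [ww_W hW hY hc, sum_congr rfl fun a ha => by rw [h a ha, mul_neg, mul_one],
    sum_neg_distrib, sum_ps, if_neg (by rw [hc]; simp)] at hw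
  have : (1 : ℝ) ≤ s := by exact_mod_cast hs
  rcases hw with h | h <;> linarith

lemma ww_formula (hW : ∀ Y ⊆ W, Y.card = 2 * s + 1 → ε Y = 1) {S : Finset X} {u r y : X}
    (hS : S ⊆ W) (hu : u ∈ W) (hr : r ∈ W) (hc : S.card + 1 = 2 * s) (h1 : ∀ a ∈ S, a < u)
    (h2 : u < r) (hy : vv ε (insert r S) y = 1) :
    (insert u (insert r S) ⊆ W ∧ (insert u (insert r S)).card = 2 * s + 1) ∧
    ww ε (insert u (insert r S)) y = 2 - vv ε (insert u S) y -
      ∑ a ∈ S, ps (S.erase a) a * vv ε (insert u (insert r (S.erase a))) y := by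
  have huS : u ∉ S := fun h => lt_irrefl _ (h1 u h)
  have hrS : r ∉ S := fun h => (h1 r h).not_gt h2
  have hurS : u ∉ insert r S := fun h => (mem_insert.1 h).elim h2.ne huS
  have hsub : insert u (insert r S) ⊆ W := insert_subset hu (insert_subset hr hS)
  have hcard : (insert u (insert r S)).card = 2 * s + 1 := by
    rw [card_insert_of_notMem hurS, card_insert_of_notMem hrS, hc]
  refine ⟨⟨hsub, hcard⟩, ?_⟩
  have e1 : ps (insert r S) u = -1 := by
    rw [ps_insert hrS, o_lt h2, one_mul, ps_top h1, Odd.neg_one_pow ⟨s - 1, by omega⟩]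
  have e2 : ps (insert u S) r = 1 := by
    rw [ps_top fun b hb => (mem_insert.1 hb).elim (fun e => e ▸ h2) fun h => (h1 b h).trans h2,
      card_insert_of_notMem huS, hc, Even.neg_one_pow (even_two_mul s)]
  have e3 : ∀ a ∈ S, ps ((insert u (insert r S)).erase a) a *
      vv ε ((insert u (insert r S)).erase a) y =
      ps (S.erase a) a * vv ε (insert u (insert r (S.erase a))) y := by
    intro a ha
    have h3 : r ∉ S.erase a := fun h => hrS (mem_of_mem_erase h)
    have h4 : u ∉ insert r (S.erase a) := fun h =>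
      (mem_insert.1 h).elim h2.ne fun h' => huS (mem_of_mem_erase h')
    rw [erase_insert_of_ne (h1 a ha).ne', erase_insert_of_ne ((h1 a ha).trans h2).ne',
      ps_insert h4, ps_insert h3, o_lt (h1 a ha), o_lt ((h1 a ha).trans h2), one_mul, one_mul]
  rw [ww_W hW hsub hcard, sum_insert hurS, sum_insert hrS, erase_insert hurS,
    erase_insert_of_ne h2.ne, erase_insert hrS, e1, e2, hy, sum_congr rfl e3]
  ring

lemma choose_gap {s r : ℕ} (h : s + 1 ≤ r) :
    (s + 1) * ((r + 1) ^ 2).choose r < ((r + 1) ^ 2).choose (r + 1) := by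
  have h1 := Nat.choose_succ_right_eq ((r + 1) ^ 2) r
  have h2 : (r + 1) ^ 2 - r = r * (r + 1) + 1 := by
    rw [show (r + 1) ^ 2 = r * (r + 1) + 1 + r by ring, Nat.add_sub_cancel]
  have h3 : 0 < ((r + 1) ^ 2).choose r := Nat.choose_pos (by nlinarith)
  rw [h2] at h1
  refine lt_of_le_of_lt (Nat.mul_le_mul_right _ h) (Nat.lt_of_mul_lt_mul_right (a := r + 1) ?_)
  rw [h1]
  nlinarith

theorem local_ineq {s : ℕ} (hs : 2 ≤ s) : ∃ (n : ℕ) (θ : ℝ), 2 * s ≤ n ∧ |θ| ≤ 1 ∧
    ∀ (ε : Finset X → ℝ) (W L : Finset X) (u r y : X), (∀ Y, Pm (ε Y)) →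
      (∀ Y ⊆ W, Y.card = 2 * s + 1 → ε Y = 1) →
      (∀ Y ⊆ W, Y.card = 2 * s + 1 → ww ε Y y = 0 ∨ ww ε Y y = 2 * s + 2) →
      L ⊆ W → u ∈ W → r ∈ W → L.card = n → (∀ a ∈ L, a < u) → u < r →
      (∀ σ ⊆ insert r L, σ.card = 2 * s → vv ε σ y = 1) →
      1 ≤ ∑ S ∈ powersetCard (2 * s - 1) L, (vv ε (insert u S) y +
        ∑ a ∈ S, θ * ps (S.erase a) a * vv ε (insert u (insert r (S.erase a))) y) := by
  classical
  have form : ∀ (ε : Finset X → ℝ) (W L : Finset X) (u r y : X),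
      (∀ Y ⊆ W, Y.card = 2 * s + 1 → ε Y = 1) →
      (∀ Y ⊆ W, Y.card = 2 * s + 1 → ww ε Y y = 0 ∨ ww ε Y y = 2 * s + 2) →
      L ⊆ W → u ∈ W → r ∈ W → (∀ a ∈ L, a < u) → u < r →
      (∀ σ ⊆ insert r L, σ.card = 2 * s → vv ε σ y = 1) →
      ∀ S ∈ powersetCard (2 * s - 1) L, vv ε (insert u S) y +
        ∑ a ∈ S, ps (S.erase a) a * vv ε (insert u (insert r (S.erase a))) y = 2 ∨
        vv ε (insert u S) y +
        ∑ a ∈ S, ps (S.erase a) a * vv ε (insert u (insert r (S.erase a))) y = -(2 * s) := by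
    intro ε W L u r y hW hw hL hu hr h1 h2 hy S hS
    obtain ⟨h3, h4⟩ := mem_powersetCard.1 hS
    have hrS : r ∉ S := fun h => (h1 r (h3 h)).not_gt h2
    obtain ⟨⟨h5, h6⟩, h7⟩ := ww_formula hW (h3.trans hL) hu hr (by omega)
      (fun a ha => h1 a (h3 ha)) h2 (hy _ (insert_subset_insert _ h3)
        (by rw [card_insert_of_notMem hrS]; omega))
    rcases hw _ h5 h6 with h | h
    · left; linarith
    · right; linarith
  rcases hs.eq_or_lt with rfl | hs3
  · refine ⟨7, 0, by norm_num, by norm_num, ?_⟩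
    intro ε W L u r y hpm hW hw hL hu hr hn h1 h2 hy
    have hf := form ε W L u r y hW hw hL hu hr h1 h2 hy
    have hh : ∀ T, Pm (vv ε (insert u (insert r T)) y) := fun T => vv_pm hpm _ _
    have hc := unif_count hh L 2
      ((powersetCard (2 * 2 - 1) L).filter fun S => vv ε (insert u S) y = -1)
      (filter_subset _ _) fun S hS => by
        obtain ⟨h3, h4⟩ := mem_filter.1 hS
        have h5 : (S.card : ℝ) = 3 := by rw [(mem_powersetCard.1 h3).2]; norm_num
        rcases hf S h3 with h | h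
        · exact ⟨1, all_pos (fun a => (ps_pm _ _).mul (hh _)) (by linarith)⟩
        · exact ⟨-1, all_neg (fun a => (ps_pm _ _).mul (hh _)) (by push_cast at h; linarith)⟩
    rw [hn, show Nat.choose 7 2 = 21 by decide] at hc
    have h3 : ∀ S ∈ powersetCard (2 * 2 - 1) L, vv ε (insert u S) y +
        ∑ a ∈ S, 0 * ps (S.erase a) a * vv ε (insert u (insert r (S.erase a))) y =
        1 - 2 * if vv ε (insert u S) y = -1 then 1 else 0 := by
      intro S _
      simp only [zero_mul, sum_const_zero, add_zero]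
      rcases vv_pm hpm (insert u S) y with h | h <;> rw [h] <;> norm_num
    rw [sum_congr rfl h3, sum_sub_distrib, ← mul_sum, sum_boole, sum_const, card_powersetCard, hn,
      show Nat.choose 7 (2 * 2 - 1) = 35 by decide]
    have h4 : (((powersetCard (2 * 2 - 1) L).filter
        fun S => vv ε (insert u S) y = -1).card : ℝ) ≤ 16 := by
      exact_mod_cast (by omega : ((powersetCard (2 * 2 - 1) L).filter
        fun S => vv ε (insert u S) y = -1).card ≤ 16)
    norm_num
    linarith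
  · obtain ⟨k, hk⟩ : ∃ k, 2 * s - 1 = k + 1 := ⟨2 * s - 2, by omega⟩
    refine ⟨(k + 1) ^ 2, 1, by nlinarith [(by omega : 2 * s = k + 2), (by omega : 1 ≤ k)],
      by norm_num, ?_⟩
    intro ε W L u r y hpm hW hw hL hu hr hn h1 h2 hy
    have hf := form ε W L u r y hW hw hL hu hr h1 h2 hy
    have hh : ∀ T, Pm (vv ε (insert u (insert r T)) y) := fun T => vv_pm hpm _ _
    rw [hk] at hf ⊢
    have hc := unif_count hh L k
      ((powersetCard (k + 1) L).filter fun S => vv ε (insert u S) y +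
        ∑ a ∈ S, ps (S.erase a) a * vv ε (insert u (insert r (S.erase a))) y = -(2 * s))
      (filter_subset _ _) fun S hS => by
        obtain ⟨h3, h4⟩ := mem_filter.1 hS
        have h5 : (S.card : ℝ) + 1 = 2 * s := by
          have := (mem_powersetCard.1 h3).2
          exact_mod_cast (by omega : S.card + 1 = 2 * s)
        exact ⟨-1, all_neg (fun a => (ps_pm _ _).mul (hh _))
          (by linarith [(abs_le.1 (vv_pm hpm (insert u S) y).abs).1])⟩
    rw [hn] at hc
    have hc' := lt_of_le_of_lt (Nat.mul_le_mul_left (s + 1)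
      (Nat.le_of_mul_le_mul_left hc (by positivity))) (choose_gap (by omega))
    have h3 : ∀ S ∈ powersetCard (k + 1) L, vv ε (insert u S) y +
        ∑ a ∈ S, 1 * ps (S.erase a) a * vv ε (insert u (insert r (S.erase a))) y =
        2 - (2 * s + 2) * if vv ε (insert u S) y +
        ∑ a ∈ S, ps (S.erase a) a * vv ε (insert u (insert r (S.erase a))) y = -(2 * s)
          then 1 else 0 := by
      intro S hS
      simp only [one_mul]
      split_ifs with h
      · rw [h]; ring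
      · rw [(hf S hS).resolve_right h]; ring
    rw [sum_congr rfl h3, sum_sub_distrib, ← mul_sum, sum_boole, sum_const, card_powersetCard, hn,
      nsmul_eq_mul]
    have h4 := (Nat.cast_le (α := ℝ)).2 (Nat.succ_le_of_lt hc')
    push_cast at h4
    linarith

end Pool.Agent.Lib.MP_155633_al.Amen
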