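import Pool.Agent.Lib.MP_155633_al.AmMean
import Pool.Agent.Lib.MP_155633_al.AmLocal

/-!
Averaging the pointwise inequality over blocks of points contradicts orthogonality.
-/

set_option autoImplicit false

namespace Pool.Agent.Lib.MP_155633_al.Amen

open Finset Equiv

variable {X : Type*} [LinearOrder X] {G : Subgroup (Perm X)} {M : (X → ℝ) →ₗ[ℝ] ℝ}

lemma ramsey_X (s ρ : ℕ) : ∃ N : ℕ, ∀ (B : Finset X) (f : Finset X → ℝ), (∀ S, Pm (f S)) →
    B.card = N → ∃ B' ⊆ B, B'.card = ρ ∧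
      ((∀ S ⊆ B', S.card = s → f S = 1) ∨ ∀ S ⊆ B', S.card = s → f S = -1) := by
  classical
  obtain ⟨N, hN⟩ := ramsey_one Bool s ρ
  refine ⟨N, fun B f hf hB => ?_⟩
  obtain ⟨B', -, h1, k, hk⟩ := hN (Fin N) univ
    (fun S => decide (f (S.map (B.orderEmbOfFin hB).toEmbedding) = 1)) (by simp)
  refine ⟨B'.map (B.orderEmbOfFin hB).toEmbedding, fun x hx => ?_, by rw [card_map, h1], ?_⟩
  · obtain ⟨i, -, rfl⟩ := mem_map.1 hx
    exact orderEmbOfFin_mem B hB i
  · cases k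
    · right
      intro S hS hc
      obtain ⟨S', h2, rfl⟩ := subset_map_iff.1 hS
      exact (hf _).resolve_left (of_decide_eq_false (hk S' h2 (by rwa [card_map] at hc)))
    · left
      intro S hS hc
      obtain ⟨S', h2, rfl⟩ := subset_map_iff.1 hS
      exact of_decide_eq_true (hk S' h2 (by rwa [card_map] at hc))

lemma blocks (R m : ℕ) (W : Finset X) (hW : W.card = R * (m + 1)) :
    ∃ C ⊆ W, C.card = R ∧ ∃ blk : X → Finset X, ∀ r ∈ C, blk r ⊆ W ∧ (blk r).card = m ∧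
      ∀ u ∈ blk r, u < r ∧ ∀ a ∈ C, a < r → a < u := by
  have hlt : ∀ (i : Fin R) (j : Fin (m + 1)), i.val * (m + 1) + j.val < R * (m + 1) := by
    intro i j
    have := Nat.mul_le_mul_right (m + 1) (Nat.succ_le_of_lt i.isLt)
    have := j.isLt
    nlinarith
  obtain ⟨w, hw⟩ : ∃ w : Fin R → Fin (m + 1) → X,
      ∀ i j, w i j = W.orderEmbOfFin hW ⟨i.val * (m + 1) + j.val, hlt i j⟩ := ⟨_, fun _ _ => rfl⟩
  have hmem : ∀ i j, w i j ∈ W := fun i j => hw i j ▸ orderEmbOfFin_mem W hW _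
  have h1 : ∀ i j j', j < j' → w i j < w i j' := fun i j j' h => by
    rw [hw, hw, OrderEmbedding.lt_iff_lt, Fin.mk_lt_mk]
    exact Nat.add_lt_add_left h _
  have h2 : ∀ i i' j j', i < i' → w i j < w i' j' := fun i i' j j' h => by
    rw [hw, hw, OrderEmbedding.lt_iff_lt, Fin.mk_lt_mk]
    have := Nat.mul_le_mul_right (m + 1) (Nat.succ_le_of_lt (Fin.lt_def.1 h))
    have := j.isLt
    nlinarith
  have h3 : StrictMono fun i => w i (Fin.last m) := fun i i' h => h2 _ _ _ _ h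
  refine ⟨univ.image fun i => w i (Fin.last m), fun x hx => ?_,
    by rw [card_image_of_injective _ h3.injective, card_univ, Fintype.card_fin], ?_⟩
  · obtain ⟨i, -, rfl⟩ := mem_image.1 hx
    exact hmem _ _
  have h4 : ∀ r : X, ∃ B : Finset X, r ∈ (univ.image fun i => w i (Fin.last m)) →
      B ⊆ W ∧ B.card = m ∧ ∀ u ∈ B, u < r ∧
        ∀ a ∈ (univ.image fun i => w i (Fin.last m)), a < r → a < u := by
    intro r
    by_cases hr : r ∈ (univ.image fun i => w i (Fin.last m))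
    swap
    · exact ⟨∅, fun h => absurd h hr⟩
    obtain ⟨i, -, rfl⟩ := mem_image.1 hr
    have h5 : StrictMono fun j : Fin m => w i j.castSucc := fun j j' h =>
      h1 _ _ _ (Fin.castSucc_lt_castSucc_iff.2 h)
    refine ⟨univ.image fun j : Fin m => w i j.castSucc, fun _ => ⟨fun x hx => ?_,
      by rw [card_image_of_injective _ h5.injective, card_univ, Fintype.card_fin],
      fun u hu => ?_⟩⟩
    · obtain ⟨j, -, rfl⟩ := mem_image.1 hx
      exact hmem _ _
    · obtain ⟨j, -, rfl⟩ := mem_image.1 hu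
      refine ⟨h1 _ _ _ (Fin.castSucc_lt_last j), fun a ha h => ?_⟩
      obtain ⟨i', -, rfl⟩ := mem_image.1 ha
      exact h2 _ _ _ _ (h3.lt_iff_lt.1 h)
  choose blk hb using h4
  exact ⟨blk, hb⟩

/-- A majorant of the block sum. -/
noncomputable def HH (ε : Finset X → ℝ) (B : Finset X) (b : ℝ) (T : Finset X) : X → ℝ :=
  (2 * b)⁻¹ • ((∑ u ∈ B, vv ε (insert u T)) * ∑ u ∈ B, vv ε (insert u T)) + (b / 2) • 1

lemma HH_ge (ε : Finset X → ℝ) (B : Finset X) {b : ℝ} (hb : 0 < b) (T : Finset X) (y : X)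
    {κ : ℝ} (hκ : |κ| ≤ 1) : ∑ u ∈ B, κ * vv ε (insert u T) y ≤ HH ε B b T y := by
  rw [← mul_sum]
  simp only [HH, Pi.add_apply, Pi.smul_apply, Pi.mul_apply, Finset.sum_apply, smul_eq_mul,
    Pi.one_apply, mul_one]
  generalize ∑ u ∈ B, vv ε (insert u T) y = F
  have h1 : κ * F ≤ |F| := (le_abs_self _).trans (by
    rw [abs_mul]
    exact mul_le_of_le_one_left (abs_nonneg _) hκ)
  have h2 : (2 * b)⁻¹ * (F * F) + b / 2 - |F| = (2 * b)⁻¹ * (|F| - b) ^ 2 := by
    rw [← abs_mul_abs_self F]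
    field_simp
    ring
  have h3 : 0 ≤ (2 * b)⁻¹ * (|F| - b) ^ 2 := by positivity
  linarith

lemma HH_nonneg (ε : Finset X → ℝ) (B : Finset X) {b : ℝ} (hb : 0 < b) (T : Finset X) (y : X) :
    0 ≤ HH ε B b T y := by
  simpa using HH_ge ε B hb T y (κ := 0) (by simp)

lemma HH_prop {s : ℕ} {ε : Finset X → ℝ} (hpm : ∀ Y, Pm (ε Y))
    (htame : ∀ σ : Finset X, σ.card = 2 * s → vv ε σ ∈ tame G) (hM : Mean G M)
    (horth : ∀ T : Finset X, T.card + 1 = 2 * s → ∀ u ∉ T, ∀ u' ∉ T, u ≠ u' →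
      M (vv ε (insert u T) * vv ε (insert u' T)) = 0)
    {B T : Finset X} {b : ℝ} (hb : 0 < b) (hB : (B.card : ℝ) = b ^ 2) (hT : T.card + 1 = 2 * s)
    (hd : ∀ u ∈ B, u ∉ T) : HH ε B b T ∈ tame G ∧ M (HH ε B b T) = b := by
  have h1 : (∑ u ∈ B, vv ε (insert u T)) ∈ tame G :=
    (tame G).sum_mem fun u hu => htame _ (by rw [card_insert_of_notMem (hd u hu), hT])
  refine ⟨(tame G).add_mem ((tame G).smul_mem ((tame G).mul_mem h1 h1) _)
    ((tame G).smul_mem (tame G).one_mem _), ?_⟩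
  have h2 : ∀ u ∈ B, M (∑ u' ∈ B, vv ε (insert u T) * vv ε (insert u' T)) = 1 := by
    intro u hu
    rw [map_sum, sum_eq_single_of_mem u hu fun u' hu' hne =>
      horth T hT u (hd u hu) u' (hd u' hu') hne.symm, ← hM.one]
    congr 1
    funext y
    exact (vv_pm hpm _ y).sq
  rw [HH, map_add, map_smul, map_smul, hM.one, sum_mul_sum, map_sum, sum_congr rfl h2, sum_const,
    nsmul_eq_mul, hB, smul_eq_mul, smul_eq_mul]
  field_simp
  ring

theorem core {s : ℕ} (hs : 2 ≤ s) : ∃ N : ℕ, ∀ (ε : Finset X → ℝ) (W : Finset X),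
    (∀ Y, Pm (ε Y)) → (∀ σ : Finset X, σ.card = 2 * s → vv ε σ ∈ tame G) → NMean G M →
    (∀ T : Finset X, T.card + 1 = 2 * s → ∀ u ∉ T, ∀ u' ∉ T, u ≠ u' →
      M (vv ε (insert u T) * vv ε (insert u' T)) = 0) →
    (∀ Y : Finset X, Y.card = 2 * s + 1 → ∀ y ∉ Y, ww ε Y y = 0 ∨ ww ε Y y = 2 * s + 2) →
    W.card = N → (∀ Y ⊆ W, Y.card = 2 * s + 1 → ε Y = 1) → False := by
  obtain ⟨n, θ, hn, hθ, hloc⟩ := local_ineq (X := X) hs
  obtain ⟨R, hR⟩ := ramsey_X (X := X) (2 * s) (n + 1)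
  obtain ⟨b, hb⟩ : ∃ b : ℕ, b = R * R.choose n * (n.choose (2 * s - 1) * (2 * s)) + 1 := ⟨_, rfl⟩
  refine ⟨R * (b ^ 2 + 1), fun ε W hpm htame hM horth hw hWc hW => ?_⟩
  obtain ⟨C, hC, hCc, blk, hblk⟩ := blocks R (b ^ 2) W hWc
  have hb0 : (0 : ℝ) < b := by rw [hb]; positivity
  obtain ⟨I, hI⟩ : ∃ I, I = (C ×ˢ powersetCard n C).filter fun p => ∀ a ∈ p.2, a < p.1 :=
    ⟨_, rfl⟩
  obtain ⟨Φ, hΦ⟩ : ∃ Φ : X × Finset X → X → ℝ, ∀ p, Φ p = ∑ S ∈ powersetCard (2 * s - 1) p.2,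
      (HH ε (blk p.1) b S + ∑ a ∈ S, HH ε (blk p.1) b (insert p.1 (S.erase a))) :=
    ⟨_, fun _ => rfl⟩
  have h1 : ∀ p ∈ I, Φ p ∈ tame G ∧ M (Φ p) = (n.choose (2 * s - 1) * (2 * s) : ℕ) * b := by
    intro p hp
    rw [hI] at hp
    obtain ⟨h2, h3⟩ := mem_filter.1 hp
    obtain ⟨h4, h5⟩ := mem_product.1 h2
    obtain ⟨h6, h7⟩ := mem_powersetCard.1 h5
    obtain ⟨-, h8, h9⟩ := hblk p.1 h4
    have h10 : ((blk p.1).card : ℝ) = (b : ℝ) ^ 2 := by rw [h8]; norm_num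
    have k1 : ∀ S ∈ powersetCard (2 * s - 1) p.2,
        HH ε (blk p.1) b S ∈ tame G ∧ M (HH ε (blk p.1) b S) = b := by
      intro S hS
      obtain ⟨h11, h12⟩ := mem_powersetCard.1 hS
      exact HH_prop hpm htame hM.toMean horth hb0 h10 (by omega) fun u hu h =>
        lt_irrefl _ ((h9 u hu).2 u (h6 (h11 h)) (h3 u (h11 h)))
    have k2 : ∀ S ∈ powersetCard (2 * s - 1) p.2, ∀ a ∈ S,
        HH ε (blk p.1) b (insert p.1 (S.erase a)) ∈ tame G ∧
          M (HH ε (blk p.1) b (insert p.1 (S.erase a))) = b := by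
      intro S hS a ha
      obtain ⟨h11, h12⟩ := mem_powersetCard.1 hS
      refine HH_prop hpm htame hM.toMean horth hb0 h10 ?_ fun u hu h => ?_
      · rw [card_insert_of_notMem fun h => lt_irrefl _ (h3 _ (h11 (mem_of_mem_erase h))),
          card_erase_of_mem ha]
        omega
      · rcases mem_insert.1 h with h | h
        · exact (h9 u hu).1.ne h
        · have h13 := h11 (mem_of_mem_erase h)
          exact lt_irrefl _ ((h9 u hu).2 u (h6 h13) (h3 u h13))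
    rw [hΦ]
    refine ⟨(tame G).sum_mem fun S hS => (tame G).add_mem (k1 S hS).1
      ((tame G).sum_mem fun a ha => (k2 S hS a ha).1), ?_⟩
    have k3 : ∀ S ∈ powersetCard (2 * s - 1) p.2,
        M (HH ε (blk p.1) b S + ∑ a ∈ S, HH ε (blk p.1) b (insert p.1 (S.erase a))) =
          (2 * s : ℕ) * b := by
      intro S hS
      rw [map_add, map_sum, (k1 S hS).2, sum_congr rfl fun a ha => (k2 S hS a ha).2, sum_const,
        nsmul_eq_mul, (by have := (mem_powersetCard.1 hS).2; omega : 2 * s = S.card + 1)]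
      push_cast
      ring
    rw [map_sum, sum_congr rfl k3, sum_const, card_powersetCard, h7, nsmul_eq_mul]
    push_cast
    ring
  have h2 : ∀ y ∉ W, (b : ℝ) ^ 2 ≤ (∑ p ∈ I, Φ p) y := by
    intro y hy
    have hwy : ∀ Y ⊆ W, Y.card = 2 * s + 1 → ww ε Y y = 0 ∨ ww ε Y y = 2 * s + 2 :=
      fun Y hY hc => hw Y hc y fun h => hy (hY h)
    obtain ⟨D, hD, hDc, hmono⟩ := hR C (fun σ => vv ε σ y) (fun σ => vv_pm hpm σ y) hCc
    rcases hmono with hmono | hmono
    swap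
    · obtain ⟨Y, hY, hYc⟩ := exists_subset_card_eq (s := D) (n := 2 * s + 1) (by omega)
      exact (no_neg (by omega) hW (hY.trans (hD.trans hC)) hYc
        (hwy Y (hY.trans (hD.trans hC)) hYc) fun a ha => hmono _ ((erase_subset _ _).trans hY)
          (by rw [card_erase_of_mem ha, hYc]; rfl)).elim
    have hne : D.Nonempty := card_pos.1 (by omega)
    obtain ⟨r, hr, hmax⟩ := exists_max_image D id hne
    have hlt : ∀ a ∈ D.erase r, a < r := fun a ha =>
      lt_of_le_of_ne (hmax a (mem_of_mem_erase ha)) (ne_of_mem_erase ha)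
    have hLc : (D.erase r).card = n := by rw [card_erase_of_mem hr, hDc]; rfl
    have hp : (r, D.erase r) ∈ I := by
      rw [hI]
      exact mem_filter.2 ⟨mem_product.2 ⟨hD hr,
        mem_powersetCard.2 ⟨(erase_subset _ _).trans hD, hLc⟩⟩, hlt⟩
    have h0 : ∀ p ∈ I, 0 ≤ Φ p y := fun p _ => by
      rw [hΦ]
      simp only [Finset.sum_apply, Pi.add_apply]
      exact sum_nonneg fun S _ => add_nonneg (HH_nonneg _ _ hb0 _ _)
        (sum_nonneg fun a _ => HH_nonneg _ _ hb0 _ _)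
    rw [Finset.sum_apply]
    refine le_trans ?_ (single_le_sum h0 hp)
    obtain ⟨h7, h8, h9⟩ := hblk r (hD hr)
    have h10 := sum_le_sum (s := blk r) fun u hu => hloc ε W (D.erase r) u r y hpm hW hwy
      ((erase_subset _ _).trans (hD.trans hC)) (h7 hu) (hC (hD hr)) hLc
      (fun a ha => (h9 u hu).2 a (hD (mem_of_mem_erase ha)) (hlt a ha)) (h9 u hu).1
      (by rw [insert_erase hr]; exact hmono)
    rw [sum_const, h8, nsmul_eq_mul, mul_one, sum_comm] at h10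
    push_cast at h10
    refine h10.trans ?_
    rw [hΦ]
    simp only [Finset.sum_apply, Pi.add_apply]
    refine sum_le_sum fun S _ => ?_
    rw [sum_add_distrib, sum_comm]
    refine add_le_add ?_ (sum_le_sum fun a _ => ?_)
    · simpa using HH_ge ε (blk r) hb0 S y (κ := 1) (by simp)
    · refine HH_ge ε (blk r) hb0 _ y ?_
      rw [abs_mul]
      exact mul_le_one₀ hθ (abs_nonneg _) (ps_pm _ _).abs
  have h3 := hM.mono W (const_tame ((b : ℝ) ^ 2)) ((tame G).sum_mem fun p hp => (h1 p hp).1) h2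
  rw [hM.toMean.const, map_sum, sum_congr rfl fun p hp => (h1 p hp).2, sum_const, nsmul_eq_mul,
    ← mul_assoc, sq] at h3
  have h4 := le_of_mul_le_mul_right h3 hb0
  have h5 : I.card ≤ R * R.choose n := by
    rw [hI]
    refine (card_filter_le _ _).trans ?_
    rw [card_product, card_powersetCard, hCc]
  have h6 : b ≤ I.card * (n.choose (2 * s - 1) * (2 * s)) := by exact_mod_cast h4
  have h7 := Nat.mul_le_mul_right (n.choose (2 * s - 1) * (2 * s)) h5
  omega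

end Pool.Agent.Lib.MP_155633_al.Amen
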