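import Pool.Agent.Lib.MP_155633_al.Main

/-!
The sign function attached to a group that induces only even permutations on `(2t-1)`-sets.
-/

set_option autoImplicit false

namespace Pool.Agent.Lib.MP_155633_al.Amen

open Finset Equiv

variable {X : Type*} [LinearOrder X]

/-- A sign. -/
def Pm (x : ℝ) : Prop := x = 1 ∨ x = -1

lemma Pm.mul {x y : ℝ} (hx : Pm x) (hy : Pm y) : Pm (x * y) := by
  rcases hx with rfl | rfl <;> rcases hy with rfl | rfl <;> simp [Pm]

lemma Pm.neg {x : ℝ} (hx : Pm x) : Pm (-x) := by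
  rcases hx with rfl | rfl <;> simp [Pm]

lemma Pm.sq {x : ℝ} (hx : Pm x) : x * x = 1 := by
  rcases hx with rfl | rfl <;> simp

lemma Pm.abs {x : ℝ} (hx : Pm x) : |x| ≤ 1 := by
  rcases hx with rfl | rfl <;> simp

lemma Pm.prod {ι : Type*} (S : Finset ι) {f : ι → ℝ} (h : ∀ i, Pm (f i)) : Pm (∏ i ∈ S, f i) :=
  prod_induction f Pm (fun _ _ => Pm.mul) (Or.inl rfl) fun i _ => h i

lemma three {x y z : ℝ} (hx : Pm x) (h1 : x * y = -1) (h2 : x * z = -1) (h3 : y * z = -1) :
    False := by
  rcases hx with rfl | rfl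
  · have e1 : y = -1 := by linarith
    have e2 : z = -1 := by linarith
    rw [e1, e2] at h3
    norm_num at h3
  · have e1 : y = 1 := by linarith
    have e2 : z = 1 := by linarith
    rw [e1, e2] at h3
    norm_num at h3

/-- The order sign of a pair. -/
noncomputable def o (a b : X) : ℝ := if a < b then 1 else -1

lemma o_pm (a b : X) : Pm (o a b) := by
  unfold o; split_ifs <;> simp [Pm]

lemma o_lt {a b : X} (h : a < b) : o a b = 1 := if_pos h

lemma o_gt {a b : X} (h : b < a) : o a b = -1 := if_neg h.not_gt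

lemma o_swap {a b : X} (h : a ≠ b) : o b a = -o a b := by
  unfold o
  rcases lt_or_gt_of_ne h with h' | h'
  · rw [if_pos h', if_neg h'.not_gt]
  · rw [if_pos h', if_neg h'.not_gt, neg_neg]

/-- The sign of the position of `z` relative to `S`. -/
noncomputable def ps (S : Finset X) (z : X) : ℝ := ∏ b ∈ S, o z b

lemma ps_pm (S : Finset X) (z : X) : Pm (ps S z) := Pm.prod S fun _ => o_pm _ _

lemma ps_insert {S : Finset X} {a : X} (h : a ∉ S) (z : X) :
    ps (insert a S) z = o z a * ps S z := prod_insert h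

lemma ps_top {S : Finset X} {z : X} (h : ∀ b ∈ S, b < z) : ps S z = (-1) ^ S.card := by
  unfold ps
  rw [prod_congr rfl fun b hb => o_gt (h b hb), prod_const]

lemma sum_ps (Y : Finset X) :
    ∑ a ∈ Y, ps (Y.erase a) a = if Even Y.card then 0 else 1 := by
  induction Y using Finset.induction_on_max with
  | empty => simp
  | insert m Y hm ih =>
    have h0 : m ∉ Y := fun h => lt_irrefl _ (hm m h)
    rw [sum_insert h0, erase_insert h0, ps_top hm, card_insert_of_notMem h0]
    have h1 : ∀ a ∈ Y, ps ((insert m Y).erase a) a = ps (Y.erase a) a := by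
      intro a ha
      rw [erase_insert_of_ne (hm a ha).ne', ps_insert (fun h => h0 (mem_of_mem_erase h)),
        o_lt (hm a ha), one_mul]
    rw [sum_congr rfl h1, ih]
    rcases Nat.even_or_odd Y.card with h | h
    · rw [h.neg_one_pow, if_pos h, if_neg (by rw [Nat.even_add_one]; exact fun h' => h' h)]
      norm_num
    · rw [h.neg_one_pow, if_neg (Nat.not_even_iff_odd.2 h), if_pos h.add_one]
      norm_num

/-- The inversion sign of `g` on `Y`. -/
noncomputable def chi (g : Perm X) (Y : Finset X) : ℝ :=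
  ∏ a ∈ Y, ∏ b ∈ Y, if a < b then o (g a) (g b) else 1

lemma chi_pm (g : Perm X) (Y : Finset X) : Pm (chi g Y) :=
  Pm.prod Y fun a => Pm.prod Y fun b => by
    split_ifs
    · exact o_pm _ _
    · exact Or.inl rfl

lemma chi_insert (g : Perm X) {Y : Finset X} {z : X} (h : z ∉ Y) :
    chi g (insert z Y) = chi g Y * (ps Y z * ps (Y.image g) (g z)) := by
  have h1 : (∏ b ∈ Y, if z < b then o (g z) (g b) else 1) *
      (∏ b ∈ Y, if b < z then o (g b) (g z) else 1) = ps Y z * ps (Y.image g) (g z) := by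
    unfold ps
    rw [prod_image fun _ _ _ _ e => g.injective e, ← prod_mul_distrib, ← prod_mul_distrib]
    refine prod_congr rfl fun b hb => ?_
    have hne : z ≠ b := fun e => h (e ▸ hb)
    rcases lt_or_gt_of_ne hne with h' | h'
    · rw [if_pos h', if_neg h'.not_gt, o_lt h', mul_one, one_mul]
    · rw [if_neg h'.not_gt, if_pos h', o_gt h', o_swap (g.injective.ne hne)]
      ring
  unfold chi
  simp only [prod_insert h]
  rw [if_neg (lt_irrefl z), one_mul, prod_mul_distrib, ← mul_assoc, mul_comm, h1]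

lemma notMem_image {g : Perm X} {Y : Finset X} {z : X} (h : z ∉ Y) : g z ∉ Y.image g := by
  intro h'
  obtain ⟨b, hb, e⟩ := mem_image.1 h'
  exact h (g.injective e ▸ hb)

lemma chi_mul (g h : Perm X) (Y : Finset X) :
    chi (g * h) Y = chi g (Y.image h) * chi h Y := by
  induction Y using Finset.induction_on with
  | empty => simp [chi]
  | insert z Y hz ih =>
    rw [image_insert, chi_insert _ hz, chi_insert _ hz, chi_insert _ (notMem_image hz), ih,
      image_image, Perm.coe_mul, Function.comp_apply]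
    have := (ps_pm (Y.image h) (h z)).sq
    linear_combination (-(chi g (Y.image h) * chi h Y * ps Y z *
      ps (Y.image (g ∘ h)) (g (h z)))) * this

lemma chi_congr {g h : Perm X} {Y : Finset X} (e : ∀ y ∈ Y, g y = h y) : chi g Y = chi h Y :=
  prod_congr rfl fun a ha => prod_congr rfl fun b hb => by rw [e a ha, e b hb]

lemma chi_one (Y : Finset X) : chi 1 Y = 1 :=
  prod_eq_one fun a _ => prod_eq_one fun b _ => by
    split_ifs with h
    · exact if_pos h
    · rfl

lemma chi_even (Y : Finset X) (σ : Perm Y) (hσ : σ ∈ alternatingGroup Y) :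
    chi (Perm.ofSubtype σ) Y = 1 := by
  have him : ∀ τ : Perm Y, Y.image (Perm.ofSubtype τ) = Y := fun τ =>
    eq_of_subset_of_card_le (fun x hx => by
      obtain ⟨b, hb, rfl⟩ := mem_image.1 hx
      rw [Perm.ofSubtype_apply_of_mem τ hb]
      exact (τ ⟨b, hb⟩).2) (card_image_of_injective _ (Perm.ofSubtype τ).injective).ge
  have hmul : ∀ τ τ' : Perm Y, chi (Perm.ofSubtype (τ * τ')) Y =
      chi (Perm.ofSubtype τ) Y * chi (Perm.ofSubtype τ') Y := fun τ τ' => by
    rw [map_mul, chi_mul, him]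
  have hone : chi (Perm.ofSubtype (1 : Perm Y)) Y = 1 := by rw [map_one, chi_one]
  rw [← Perm.closure_three_cycles_eq_alternating] at hσ
  induction hσ using Subgroup.closure_induction with
  | mem τ hτ =>
    have h3 : τ * (τ * τ) = 1 := by
      have := pow_orderOf_eq_one τ
      rwa [Perm.IsThreeCycle.orderOf hτ, pow_three] at this
    have h4 := hmul τ (τ * τ)
    rw [h3, hone, hmul, (chi_pm _ _).sq, mul_one] at h4
    exact h4.symm
  | one => exact hone
  | mul τ τ' _ _ h1 h2 => rw [hmul, h1, h2, mul_one]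
  | inv τ _ h1 =>
    have h4 := hmul τ τ⁻¹
    rw [mul_inv_cancel, hone, h1, one_mul] at h4
    exact h4.symm

variable {G : Subgroup (Perm X)}

lemma homog' {s : ℕ} (hG : Gen G (s + 1)) {Y Y' : Finset X} (hY : Y.card = 2 * s + 1)
    (hY' : Y'.card = 2 * s + 1) : ∃ g ∈ G, Y.image g = Y' := by
  obtain ⟨g, hg, h⟩ := homog hG Y' hY' Y hY
  refine ⟨g, hg, eq_of_subset_of_card_le (fun x hx => ?_) ?_⟩
  · obtain ⟨b, hb, rfl⟩ := mem_image.1 hx
    exact h b hb
  · rw [card_image_of_injective _ g.injective, hY, hY']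

/-- The invariant sign function. -/
theorem exists_eps {s : ℕ} (hG : Gen G (s + 1)) {Y0 : Finset X} (h0 : Y0.card = 2 * s + 1)
    (hev : ∀ g ∈ G, Y0.image g = Y0 → chi g Y0 = 1) :
    ∃ ε : Finset X → ℝ, (∀ Y, Pm (ε Y)) ∧
      ∀ g ∈ G, ∀ Y : Finset X, Y.card = 2 * s + 1 → ε (Y.image g) = chi g Y * ε Y := by
  classical
  have h1 : ∀ Y : Finset X, ∃ g ∈ G, Y.card = 2 * s + 1 → Y0.image g = Y := fun Y => by
    by_cases h : Y.card = 2 * s + 1
    · obtain ⟨g, hg, e⟩ := homog' hG h0 h
      exact ⟨g, hg, fun _ => e⟩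
    · exact ⟨1, G.one_mem, fun h' => absurd h' h⟩
  choose γ hγ hγ' using h1
  refine ⟨fun Y => chi (γ Y) Y0, fun Y => chi_pm _ _, fun g hg Y hY => ?_⟩
  have hc : (Y.image g).card = 2 * s + 1 := by rw [card_image_of_injective _ g.injective, hY]
  have h2 : Y0.image (g * γ Y) = Y.image g := by
    rw [Perm.coe_mul, ← image_image, hγ' Y hY]
  have h3 : Y0.image ((γ (Y.image g))⁻¹ * (g * γ Y)) = Y0 := by
    rw [Perm.coe_mul, ← image_image, h2]
    conv_lhs => rw [← hγ' _ hc]
    rw [hγ' _ hc]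
    conv_lhs => arg 2; rw [← hγ' _ hc]
    rw [image_image, ← Perm.coe_mul, inv_mul_cancel, Perm.coe_one, image_id]
  have h4 := hev _ (G.mul_mem (G.inv_mem (hγ _)) (G.mul_mem hg (hγ Y))) h3
  have h5 := chi_mul (γ (Y.image g)) ((γ (Y.image g))⁻¹ * (g * γ Y)) Y0
  rw [mul_inv_cancel_left, h3, h4, mul_one, chi_mul, hγ' Y hY] at h5
  exact h5.symm

/-- The sign of the tuple that starts with `y` and continues with `σ` in increasing order. -/
noncomputable def vv (ε : Finset X → ℝ) (σ : Finset X) (y : X) : ℝ := ps σ y * ε (insert y σ)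

/-- The sum of the relative signs on `Y` and `y`. -/
noncomputable def ww (ε : Finset X → ℝ) (Y : Finset X) (y : X) : ℝ :=
  1 - ∑ a ∈ Y, vv ε (Y.erase a) a * vv ε (Y.erase a) y

lemma vv_pm {ε : Finset X → ℝ} (h : ∀ Y, Pm (ε Y)) (σ : Finset X) (y : X) : Pm (vv ε σ y) :=
  (ps_pm _ _).mul (h _)

lemma vv_image {s : ℕ} {ε : Finset X → ℝ}
    (hε : ∀ g ∈ G, ∀ Y : Finset X, Y.card = 2 * s + 1 → ε (Y.image g) = chi g Y * ε Y)
    {g : Perm X} (hg : g ∈ G) {σ : Finset X} (hσ : σ.card = 2 * s) {y : X} (hy : y ∉ σ) :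
    vv ε (σ.image g) (g y) = chi g σ * vv ε σ y := by
  unfold vv
  rw [← image_insert, hε g hg _ (by rw [card_insert_of_notMem hy, hσ]), chi_insert _ hy]
  have := (ps_pm (σ.image g) (g y)).sq
  linear_combination (chi g σ * ps σ y * ε (insert y σ)) * this

/-- On a `2t`-set the signs are constant or balanced. -/
theorem ww_cases {s : ℕ} (hG : Gen G (s + 1)) {ε : Finset X → ℝ} (hpm : ∀ Y, Pm (ε Y))
    (hε : ∀ g ∈ G, ∀ Y : Finset X, Y.card = 2 * s + 1 → ε (Y.image g) = chi g Y * ε Y)
    {Y : Finset X} (hY : Y.card = 2 * s + 1) {y : X} (hy : y ∉ Y) :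
    ww ε Y y = 0 ∨ ww ε Y y = 2 * s + 2 := by
  classical
  obtain ⟨Z, hZ⟩ : ∃ Z, Z = insert y Y := ⟨_, rfl⟩
  have hZc : Z.card = 2 * s + 2 := by rw [hZ, card_insert_of_notMem hy, hY]
  obtain ⟨sg, hsg⟩ : ∃ sg : X → ℝ, ∀ z, sg z = ps (Z.erase z) z * ε (Z.erase z) :=
    ⟨_, fun _ => rfl⟩
  have hsp : ∀ z, Pm (sg z) := fun z => hsg z ▸ (ps_pm _ _).mul (hpm _)
  have hw : ww ε Y y = (∑ z ∈ Z, sg z) * sg y := by
    rw [hZ, sum_insert hy, add_mul, (hsp y).sq, sum_mul, ww, sub_eq_add_neg, ← sum_neg_distrib]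
    congr 1
    refine sum_congr rfl fun a ha => ?_
    have hne : y ≠ a := fun e => hy (e ▸ ha)
    have h1 : ps Y y = o y a * ps (Y.erase a) y := by
      rw [← ps_insert (notMem_erase a Y), insert_erase ha]
    rw [hsg, hsg, hZ, erase_insert hy, erase_insert_of_ne hne,
      ps_insert (fun h => hy (mem_of_mem_erase h)), h1, vv, vv, insert_erase ha, o_swap hne]
    have := (o_pm y a).sq
    linear_combination (ps (Y.erase a) a * ε Y * ps (Y.erase a) y *
      ε (insert y (Y.erase a))) * this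
  have hinv : ∀ g ∈ G, Z.image g = Z → ∀ z ∈ Z, sg (g z) = chi g Z * sg z := by
    intro g hg hgZ z hz
    have h1 : Z.erase (g z) = (Z.erase z).image g := by
      rw [image_erase g.injective, hgZ]
    have h2 := chi_insert g (notMem_erase z Z)
    rw [insert_erase hz] at h2
    rw [hsg, hsg, h1, hε g hg _ (by rw [card_erase_of_mem hz, hZc]; rfl), h2]
    have := (ps_pm (Z.erase z) z).sq
    linear_combination (-(ps ((Z.erase z).image g) (g z) * chi g (Z.erase z) *
      ε (Z.erase z))) * this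
  by_cases hsum : ∑ z ∈ Z, sg z = 0
  · left
    rw [hw, hsum, zero_mul]
  right
  have key : ∀ c : ℝ, (Z.filter fun z => sg z = c).card ≤ s + 1 → ∀ u ∈ Z, sg u ≠ c := by
    intro c hc u hu huc
    obtain ⟨A, hSA, hAZ, hA⟩ := exists_subsuperset_card_eq (filter_subset _ Z) hc
      (by omega : s + 1 ≤ Z.card)
    obtain ⟨g, hg, h1, h2⟩ := hG A (Z \ A) hA (by rw [card_sdiff_of_subset hAZ]; omega)
    have hgZ : Z.image g = Z := by
      refine eq_of_subset_of_card_le (fun x hx => ?_) (card_image_of_injective _ g.injective).ge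
      obtain ⟨b, hb, rfl⟩ := mem_image.1 hx
      by_cases hbA : b ∈ A
      · exact (mem_sdiff.1 (h1 b hbA)).1
      · exact hAZ (h2 b (mem_sdiff.2 ⟨hb, hbA⟩))
    rcases chi_pm g Z with h3 | h3
    · have h4 := mem_sdiff.1 (h1 u (hSA (mem_filter.2 ⟨hu, huc⟩)))
      refine h4.2 (hSA (mem_filter.2 ⟨h4.1, ?_⟩))
      rw [hinv g hg hgZ u hu, h3, one_mul, huc]
    · apply hsum
      have h4 : ∑ z ∈ Z.image g, sg z = ∑ z ∈ Z, sg (g z) :=
        sum_image fun _ _ _ _ e => g.injective e
      rw [hgZ, sum_congr rfl (hinv g hg hgZ), ← mul_sum, h3] at h4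
      linarith
  have hall : ∀ z ∈ Z, sg z * sg y = 1 := by
    have hyZ : y ∈ Z := hZ ▸ mem_insert_self _ _
    have hcard := card_filter_add_card_filter_not (s := Z) (fun z => sg z = 1)
    rcases le_or_gt (Z.filter fun z => sg z = 1).card (s + 1) with h | h
    · intro z hz
      rw [(hsp z).resolve_left (key 1 h z hz), (hsp y).resolve_left (key 1 h y hyZ)]
      norm_num
    · have h1 : (Z.filter fun z => sg z = -1).card ≤ s + 1 := by
        refine le_trans (card_le_card (t := Z.filter fun z => ¬ sg z = 1) fun z hz => ?_)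
          (by omega)
        obtain ⟨h2, h3⟩ := mem_filter.1 hz
        refine mem_filter.2 ⟨h2, ?_⟩
        rw [h3]
        norm_num
      intro z hz
      rw [(hsp z).resolve_right (key (-1) h1 z hz), (hsp y).resolve_right (key (-1) h1 y hyZ)]
      norm_num
  rw [hw, sum_mul, sum_congr rfl hall, sum_const, hZc]
  simp

end Pool.Agent.Lib.MP_155633_al.Amen
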