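import Pool.Agent.Lib.MP_155633_al.AmOrth
import Pool.Agent.Lib.MP_155633_al.AmCore

/-!
Generous transitivity and an invariant mean give `(2t-1)`-transitivity.
-/

set_option autoImplicit false

namespace Pool.Agent.Lib.MP_155633_al.Amen

open Finset Equiv

variable {X : Type*} {G : Subgroup (Perm X)}

theorem trans_of_mean [Infinite X] {s : ℕ} (hG : Gen G (s + 1)) {M : (X → ℝ) →ₗ[ℝ] ℝ}
    (hM : Mean G M) (x y : Fin (2 * s + 1) → X) (hx : Function.Injective x)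
    (hy : Function.Injective y) : ∃ g ∈ G, ∀ i, g (x i) = y i := by
  classical
  letI : LinearOrder X := linearOrderOfSTO WellOrderingRel
  rcases trans_or_eps hG with h | ⟨hs, ε, hpm, hε⟩
  · exact h x y hx hy
  exfalso
  obtain ⟨N, hN⟩ := core (X := X) (G := G) (M := M) hs
  have key : ∀ ε : Finset X → ℝ, (∀ Y, Pm (ε Y)) →
      (∀ g ∈ G, ∀ Y : Finset X, Y.card = 2 * s + 1 → ε (Y.image g) = chi g Y * ε Y) →
      ∀ W : Finset X, W.card = N → (∀ Y ⊆ W, Y.card = 2 * s + 1 → ε Y = 1) → False := by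
    intro ε hpm hε W
    obtain ⟨h1, h2⟩ := orth hs hG hM hpm hε
    exact hN ε W hpm (fun σ hσ => vv_tame hpm hε hσ) h1 h2
      fun Y hY y hy => ww_cases hG hpm hε hY hy
  obtain ⟨N', hN'⟩ := ramsey_X (X := X) (2 * s + 1) N
  obtain ⟨B, hB⟩ := Infinite.exists_subset_card_eq X N'
  obtain ⟨W, -, hW, h | h⟩ := hN' B ε hpm hB
  · exact key ε hpm hε W hW h
  · exact key (fun Y => -ε Y) (fun Y => (hpm Y).neg)
      (fun g hg Y hY => by simp only [hε g hg Y hY, mul_neg]) W hW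
      fun Y hY hc => by simp only [h Y hY hc, neg_neg]

lemma comp_tame {f : X → ℝ} (hf : f ∈ tame G) {g : Perm X} (hg : g ∈ G) :
    (fun x => f (g x)) ∈ tame G := by
  obtain ⟨⟨C, hC⟩, A, hA⟩ := hf
  refine ⟨⟨C, fun x => hC _⟩, A.map g.symm.toEmbedding, fun k hk h x => ?_⟩
  have := hA (g * k * g⁻¹) (G.mul_mem (G.mul_mem hg hk) (G.inv_mem hg))
    (fun a ha => by
      have h1 : k (g.symm a) = g.symm a := h _ (mem_map_of_mem _ ha)
      simp [h1]) (g x)
  simpa using this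

theorem exists_mean (m : (X → ℝ) → ℝ)
    (hadd : ∀ f ∈ tame G, ∀ f' ∈ tame G, m (f + f') = m f + m f')
    (hsmul : ∀ (r : ℝ), ∀ f ∈ tame G, m (r • f) = r * m f)
    (hpos : ∀ f ∈ tame G, (∀ x, 0 ≤ f x) → 0 ≤ m f) (hone : m 1 = 1)
    (hinv : ∀ f ∈ tame G, ∀ g ∈ G, m (fun x => f (g x)) = m f) :
    ∃ M : (X → ℝ) →ₗ[ℝ] ℝ, Mean G M := by
  obtain ⟨M, hM⟩ := LinearMap.exists_extend (p := Subalgebra.toSubmodule (tame G))
    ({ toFun := fun f => m f
       map_add' := fun f f' => hadd f f.2 f' f'.2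
       map_smul' := fun r f => hsmul r f f.2 } : Subalgebra.toSubmodule (tame G) →ₗ[ℝ] ℝ)
  have h : ∀ f ∈ tame G, M f = m f := fun f hf => LinearMap.congr_fun hM ⟨f, hf⟩
  exact ⟨M, by rw [h _ (tame G).one_mem, hone], fun f hf h0 => h f hf ▸ hpos f hf h0,
    fun f hf g hg => by rw [h _ (comp_tame hf hg), h f hf, hinv f hf g hg]⟩

end Pool.Agent.Lib.MP_155633_al.Amen
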