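import Pool.Agent.Lib.MP_155633_al.AmEps

/-!
Invariant means on the bounded functions of finite support.
-/

set_option autoImplicit false

namespace Pool.Agent.Lib.MP_155633_al.Amen

open Finset Equiv

variable {X : Type*}

/-- Bounded functions invariant under the pointwise stabiliser of a finite set. -/
def tame (G : Subgroup (Perm X)) : Subalgebra ℝ (X → ℝ) where
  carrier := {f | (∃ C : ℝ, ∀ x, |f x| ≤ C) ∧
    ∃ A : Finset X, ∀ g ∈ G, (∀ a ∈ A, g a = a) → ∀ x, f (g x) = f x}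
  mul_mem' := by
    classical
    rintro f f' ⟨⟨C, hC⟩, A, hA⟩ ⟨⟨C', hC'⟩, A', hA'⟩
    refine ⟨⟨C * C', fun x => ?_⟩, A ∪ A', fun g hg h x => ?_⟩
    · rw [Pi.mul_apply, abs_mul]
      exact mul_le_mul (hC x) (hC' x) (abs_nonneg _) ((abs_nonneg _).trans (hC x))
    · rw [Pi.mul_apply, Pi.mul_apply, hA g hg fun a ha => h a (mem_union_left _ ha),
        hA' g hg fun a ha => h a (mem_union_right _ ha)]
  add_mem' := by
    classical
    rintro f f' ⟨⟨C, hC⟩, A, hA⟩ ⟨⟨C', hC'⟩, A', hA'⟩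
    refine ⟨⟨C + C', fun x => ?_⟩, A ∪ A', fun g hg h x => ?_⟩
    · exact (abs_add_le _ _).trans (add_le_add (hC x) (hC' x))
    · rw [Pi.add_apply, Pi.add_apply, hA g hg fun a ha => h a (mem_union_left _ ha),
        hA' g hg fun a ha => h a (mem_union_right _ ha)]
  algebraMap_mem' r := ⟨⟨|r|, fun _ => le_rfl⟩, ∅, fun _ _ _ _ => rfl⟩

/-- A linear functional that is an invariant mean on the tame functions. -/
structure Mean (G : Subgroup (Perm X)) (M : (X → ℝ) →ₗ[ℝ] ℝ) : Prop where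
  one : M 1 = 1
  pos : ∀ f ∈ tame G, (∀ x, 0 ≤ f x) → 0 ≤ M f
  inv : ∀ f ∈ tame G, ∀ g ∈ G, M (fun x => f (g x)) = M f

variable {G : Subgroup (Perm X)} {M : (X → ℝ) →ₗ[ℝ] ℝ}

lemma const_tame (r : ℝ) : (fun _ : X => r) ∈ tame G := (tame G).algebraMap_mem r

lemma Mean.const (hM : Mean G M) (r : ℝ) : M (fun _ => r) = r := by
  have : (fun _ : X => r) = r • (1 : X → ℝ) := by funext x; simp
  rw [this, map_smul, hM.one, smul_eq_mul, mul_one]

variable [DecidableEq X]

lemma ind_tame (F : Finset X) : (fun x => if x ∈ F then (1 : ℝ) else 0) ∈ tame G := by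
  refine ⟨⟨1, fun x => by dsimp only; split_ifs <;> simp⟩, F, fun g _ h x => ?_⟩
  dsimp only
  by_cases hx : x ∈ F
  · rw [h x hx]
  · rw [if_neg hx, if_neg]
    intro h'
    exact hx (g.injective (h _ h') ▸ h')

lemma Mean.point [Infinite X] (hM : Mean G M) (htr : ∀ a b : X, ∃ g ∈ G, g a = b) (a : X) :
    M (fun x => if x ∈ ({a} : Finset X) then 1 else 0) = 0 := by
  obtain ⟨c, hc⟩ : ∃ c, c = M (fun x => if x ∈ ({a} : Finset X) then 1 else 0) := ⟨_, rfl⟩
  have h1 : ∀ b : X, M (fun x => if x ∈ ({b} : Finset X) then 1 else 0) = c := by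
    intro b
    obtain ⟨g, hg, e⟩ := htr b a
    rw [hc, ← hM.inv _ (ind_tame {a}) g hg]
    congr 1
    funext x
    simp only [mem_singleton, ← e, g.injective.eq_iff]
  have h2 : ∀ F : Finset X, F.card * c ≤ 1 := by
    intro F
    have h3 := hM.pos _ ((tame G).sub_mem (tame G).one_mem (ind_tame F)) fun x => by
      simp only [Pi.sub_apply, Pi.one_apply]
      split_ifs <;> simp
    have h4 : (fun x => if x ∈ F then (1 : ℝ) else 0) =
        ∑ b ∈ F, fun x => if x ∈ ({b} : Finset X) then (1 : ℝ) else 0 := by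
      funext x
      simp
    rw [map_sub, hM.one, h4, map_sum, sum_congr rfl fun b _ => h1 b, sum_const,
      nsmul_eq_mul] at h3
    linarith
  have h0 : 0 ≤ c := hc ▸ hM.pos _ (ind_tame _) fun x => by split_ifs <;> simp
  rw [← hc]
  refine h0.eq_or_lt.elim Eq.symm fun h => ?_
  obtain ⟨n, hn⟩ := exists_nat_gt (1 / c)
  obtain ⟨F, hF⟩ := Infinite.exists_subset_card_eq X n
  have := h2 F
  rw [hF] at this
  rw [div_lt_iff₀ h] at hn
  linarith

/-- An invariant mean that does not see finite sets. -/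
structure NMean (G : Subgroup (Perm X)) (M : (X → ℝ) →ₗ[ℝ] ℝ) : Prop extends Mean G M where
  congr : ∀ (F : Finset X) (f f' : X → ℝ), (∀ x ∉ F, f x = f' x) → M f = M f'

lemma Mean.nmean [Infinite X] (hM : Mean G M) (htr : ∀ a b : X, ∃ g ∈ G, g a = b) :
    NMean G M := by
  refine ⟨hM, fun F f f' h => ?_⟩
  have h1 : f - f' = ∑ b ∈ F, (f b - f' b) •
      fun x => if x ∈ ({b} : Finset X) then (1 : ℝ) else 0 := by
    funext x
    by_cases hx : x ∈ F
    · simp [hx]
    · simp [hx, h x hx]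
  rw [← sub_eq_zero, ← map_sub, h1, map_sum]
  exact sum_eq_zero fun b _ => by rw [map_smul, hM.point htr, smul_zero]

lemma NMean.mono (hM : NMean G M) (F : Finset X) {f f' : X → ℝ} (hf : f ∈ tame G)
    (hf' : f' ∈ tame G) (h : ∀ x ∉ F, f x ≤ f' x) : M f ≤ M f' := by
  have h1 := hM.pos _ ((tame G).mul_mem ((tame G).sub_mem hf' hf)
    ((tame G).sub_mem (tame G).one_mem (ind_tame F))) fun x => by
      simp only [Pi.mul_apply, Pi.sub_apply, Pi.one_apply]
      split_ifs with hx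
      · simp
      · simpa using h x hx
  rw [hM.congr F _ (f' - f) fun x hx => by simp [hx], map_sub] at h1
  linarith

end Pool.Agent.Lib.MP_155633_al.Amen

namespace Pool.Agent.Lib.MP_155633_al.Amen

open Finset Equiv

variable {X : Type*} [LinearOrder X] {G : Subgroup (Perm X)}

lemma vv_tame {s : ℕ} {ε : Finset X → ℝ} (hpm : ∀ Y, Pm (ε Y))
    (hε : ∀ g ∈ G, ∀ Y : Finset X, Y.card = 2 * s + 1 → ε (Y.image g) = chi g Y * ε Y)
    {σ : Finset X} (hσ : σ.card = 2 * s) : vv ε σ ∈ tame G := by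
  refine ⟨⟨1, fun x => (vv_pm hpm σ x).abs⟩, σ, fun g hg h x => ?_⟩
  by_cases hx : x ∈ σ
  · rw [h x hx]
  · have h1 := vv_image hε hg hσ hx
    rwa [image_congr (g := id) (fun a ha => h a ha), image_id,
      chi_congr (h := 1) (fun a ha => h a ha), chi_one, one_mul] at h1

end Pool.Agent.Lib.MP_155633_al.Amen
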