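import Pool.Agent.Lib.MP_155633_al.AmMean

/-!
The alternative between transitivity and a sign function; orthogonality of the links.
-/

set_option autoImplicit false

namespace Pool.Agent.Lib.MP_155633_al.Amen

open Finset Equiv

section tuples

variable {X : Type*} {G : Subgroup (Perm X)}

theorem even_ind [Infinite X] {s : ℕ} (hG : Gen G (s + 1)) {κ : Type} [Fintype κ] [DecidableEq κ]
    (hκ : Fintype.card κ = 2 * s + 1) {T : κ → X} (hT : Function.Injective T) (σ : Perm κ)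
    (hσ : Perm.sign σ = 1) : σ ∈ ind G T := by
  classical
  set Y : Finset X := Finset.univ.map ⟨T, hT⟩ with hY
  have hm : ∀ j, T j ∈ Y := fun j => Finset.mem_map_of_mem _ (Finset.mem_univ j)
  have hc : Y.card = 2 * s + 1 := by simp [hY, hκ]
  have hb : Function.Bijective fun j => (⟨T j, hm j⟩ : Y) := by
    rw [Fintype.bijective_iff_injective_and_card]
    refine ⟨fun a b h => hT (congrArg Subtype.val h), ?_⟩
    simp only [Fintype.card_coe]
    omega
  set e := Equiv.ofBijective _ hb with he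
  have hez : ∀ j, (e j : X) = T j := fun _ => rfl
  obtain ⟨g, hg, h⟩ := alt_induced (t := s + 1) (by omega) hG Y (by omega) (e.permCongr σ)
    (by rw [Perm.sign_permCongr, hσ])
  refine ⟨g, hg, fun j => ?_⟩
  have := h (e j)
  simpa [hez] using this

theorem tuple_homog {s : ℕ} (hG : Gen G (s + 1)) {κ : Type} [Fintype κ]
    (hκ : Fintype.card κ = 2 * s + 1) {T T' : κ → X} (hT : Function.Injective T)
    (hT' : Function.Injective T') : ∃ g ∈ G, ∃ σ : Perm κ, ∀ i, g (T i) = T' (σ i) := by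
  obtain ⟨g, hg, h⟩ := homog hG (Finset.univ.map ⟨T', hT'⟩) (by simp [hκ])
    (Finset.univ.map ⟨T, hT⟩) (by simp [hκ])
  refine ⟨g, hg, lift_perm hT g fun j => ?_⟩
  obtain ⟨j', -, e⟩ := Finset.mem_map.1 (h (T j) (Finset.mem_map_of_mem _ (Finset.mem_univ j)))
  exact ⟨j', e.symm⟩

theorem trans_of_top {s : ℕ} (hG : Gen G (s + 1)) {κ : Type} [Fintype κ]
    (hκ : Fintype.card κ = 2 * s + 1) {T : κ → X} (hT : Function.Injective T)
    (h : ∀ σ : Perm κ, σ ∈ ind G T) (x y : κ → X) (hx : Function.Injective x)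
    (hy : Function.Injective y) : ∃ g ∈ G, ∀ i, g (x i) = y i := by
  obtain ⟨g1, hg1, σ1, h1⟩ := tuple_homog hG hκ hx hT
  obtain ⟨g2, hg2, σ2, h2⟩ := tuple_homog hG hκ hy hT
  obtain ⟨k, hk, h3⟩ := h (σ2 * σ1⁻¹)
  refine ⟨g2⁻¹ * k * g1, G.mul_mem (G.mul_mem (G.inv_mem hg2) hk) hg1, fun i => ?_⟩
  simp only [Perm.mul_apply, h1, h3]
  rw [Perm.inv_eq_iff_eq, h2]
  simp

end tuples

variable {X : Type*} [LinearOrder X] {G : Subgroup (Perm X)}

theorem trans_or_eps [Infinite X] {s : ℕ} (hG : Gen G (s + 1)) :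
    (∀ x y : Fin (2 * s + 1) → X, Function.Injective x → Function.Injective y →
      ∃ g ∈ G, ∀ i, g (x i) = y i) ∨
    (2 ≤ s ∧ ∃ ε : Finset X → ℝ, (∀ Y, Pm (ε Y)) ∧
      ∀ g ∈ G, ∀ Y : Finset X, Y.card = 2 * s + 1 → ε (Y.image g) = chi g Y * ε Y) := by
  set e := Infinite.natEmbedding X
  have hz : Function.Injective fun j : Fin (2 * s + 1) => e j.val :=
    fun a b h => Fin.ext (e.injective h)
  have hκ : Fintype.card (Fin (2 * s + 1)) = 2 * s + 1 := by simp
  by_cases hev : ∀ σ ∈ ind G fun j : Fin (2 * s + 1) => e j.val, Perm.sign σ = 1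
  · rcases Nat.lt_or_ge s 2 with h | h
    · left
      interval_cases s
      · refine trans_of_top hG hκ hz fun σ => ?_
        have : σ = 1 := Equiv.ext fun i => Fin.ext (by
          have h1 := (σ i).isLt
          have h2 := i.isLt
          simp only [Perm.one_apply]
          omega)
        rw [this]
        exact Subgroup.one_mem _
      · obtain ⟨σ, hσ, h0, h1, -⟩ := swap_fix (s := 1) hG hκ hz 0 {1} (by decide) rfl
        have h3 : ∀ ρ : Perm (Fin (2 * 1 + 1)), ρ 0 = 0 → Perm.sign ρ = 1 → ρ 1 = 1 := by decide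
        exact absurd (Finset.mem_singleton.2 (h3 σ h0 (hev σ hσ))) (h1 1 (by simp))
    · refine Or.inr ⟨h, ?_⟩
      generalize (fun j : Fin (2 * s + 1) => e j.val) = T at hz hev
      set Y : Finset X := Finset.univ.map ⟨T, hz⟩ with hY
      have hm : ∀ j, T j ∈ Y := fun j => Finset.mem_map_of_mem _ (Finset.mem_univ j)
      have hc : Y.card = 2 * s + 1 := by simp [hY]
      refine exists_eps hG hc fun g hg hgY => ?_
      obtain ⟨σ, hσ⟩ := lift_perm (z' := T) hz g fun j => by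
        have h1 : g (T j) ∈ Y := hgY ▸ mem_image_of_mem g (hm j)
        obtain ⟨j', -, h2⟩ := Finset.mem_map.1 h1
        exact ⟨j', h2.symm⟩
      have hb : Function.Bijective fun j => (⟨T j, hm j⟩ : Y) := by
        rw [Fintype.bijective_iff_injective_and_card]
        refine ⟨fun a b h => hz (congrArg Subtype.val h), ?_⟩
        simp only [Fintype.card_coe]
        omega
      set f := Equiv.ofBijective _ hb with hf
      have hfz : ∀ j, (f j : X) = T j := fun _ => rfl
      rw [← chi_even Y (f.permCongr σ) (by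
        rw [Perm.mem_alternatingGroup, Perm.sign_permCongr]
        exact hev σ ⟨g, hg, hσ⟩)]
      refine chi_congr fun y hy => ?_
      obtain ⟨j, hj⟩ := f.surjective ⟨y, hy⟩
      have h3 : y = T j := (congrArg Subtype.val hj).symm
      rw [Perm.ofSubtype_apply_of_mem _ hy, ← hj, h3, hσ]
      simp [hfz]
  · left
    push Not at hev
    obtain ⟨σ0, hσ0, hs⟩ := hev
    refine trans_of_top hG hκ hz fun σ => ?_
    by_cases h : Perm.sign σ = 1
    · exact even_ind hG hκ hz σ h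
    · have h1 := (Int.units_eq_one_or (Perm.sign σ)).resolve_left h
      have h2 := (Int.units_eq_one_or (Perm.sign σ0)).resolve_left hs
      have h3 := even_ind hG hκ hz (σ * σ0⁻¹) (by rw [map_mul, map_inv, h1, h2]; simp)
      simpa using Subgroup.mul_mem _ h3 hσ0

lemma stab_move {s : ℕ} (hG : Gen G (s + 1)) {Y : Finset X} (hY : Y.card = 2 * s + 1) {a x y : X}
    (ha : a ∈ Y) (hx : x ∈ Y) (hy : y ∈ Y) (h1 : x ≠ a) (h2 : y ≠ a) :
    ∃ g ∈ G, Y.image g = Y ∧ g a = a ∧ g x = y := by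
  obtain ⟨σ, ⟨g, hg, h⟩, e1, e2⟩ := stab_trans (ι := Y) hG (by simpa using hY)
    Subtype.val_injective ⟨a, ha⟩ ⟨x, hx⟩ ⟨y, hy⟩ (fun e => h1 (congrArg Subtype.val e))
    fun e => h2 (congrArg Subtype.val e)
  refine ⟨g, hg, eq_of_subset_of_card_le (fun z hz => ?_)
    (card_image_of_injective _ g.injective).ge, ?_, ?_⟩
  · obtain ⟨b, hb, rfl⟩ := mem_image.1 hz
    exact (h ⟨b, hb⟩) ▸ (σ ⟨b, hb⟩).2
  · exact (h ⟨a, ha⟩).trans (congrArg Subtype.val e1)
  · exact (h ⟨x, hx⟩).trans (congrArg Subtype.val e2)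

lemma point_move {s : ℕ} (hs : 1 ≤ s) (hG : Gen G (s + 1)) {Y Y' : Finset X}
    (hY : Y.card = 2 * s + 1) (hY' : Y'.card = 2 * s + 1) {a a' : X} (ha : a ∈ Y) (ha' : a' ∈ Y') :
    ∃ g ∈ G, Y.image g = Y' ∧ g a = a' := by
  obtain ⟨g, hg, e⟩ := homog' hG hY hY'
  obtain ⟨c, hc, hc'⟩ := exists_mem_notMem_of_card_lt_card (s := ({g a, a'} : Finset X)) (t := Y')
    (card_le_two.trans_lt (by omega))
  simp only [mem_insert, mem_singleton, not_or] at hc'
  obtain ⟨k, hk, e1, -, e2⟩ := stab_move hG hY' hc (e ▸ mem_image_of_mem g ha) ha'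
    (Ne.symm hc'.1) (Ne.symm hc'.2)
  exact ⟨k * g, G.mul_mem hk hg, by rw [Perm.coe_mul, ← image_image, e, e1], e2⟩

lemma pair_move {s : ℕ} (hs : 1 ≤ s) (hG : Gen G (s + 1)) {Y : Finset X}
    (hY : Y.card = 2 * s + 1) {a b a' b' : X} (ha : a ∈ Y) (hb : b ∈ Y) (ha' : a' ∈ Y)
    (hb' : b' ∈ Y) (h : a ≠ b) (h' : a' ≠ b') :
    ∃ g ∈ G, Y.image g = Y ∧ g a = a' ∧ g b = b' := by
  obtain ⟨g, hg, e, e0⟩ := point_move hs hG hY hY ha ha'
  obtain ⟨k, hk, e1, e2, e3⟩ := stab_move hG hY ha' (e ▸ mem_image_of_mem g hb) hb'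
    (e0 ▸ g.injective.ne h.symm) h'.symm
  exact ⟨k * g, G.mul_mem hk hg, by rw [Perm.coe_mul, ← image_image, e, e1],
    by rw [Perm.mul_apply, e0, e2], e3⟩

/-- The relative sign of the face opposite to `a`. -/
noncomputable def sa (ε : Finset X → ℝ) (Y : Finset X) (a : X) : X → ℝ :=
  fun y => vv ε (Y.erase a) a * vv ε (Y.erase a) y

section moments

variable {s : ℕ} {ε : Finset X → ℝ} (hpm : ∀ Y, Pm (ε Y))
  (hε : ∀ g ∈ G, ∀ Y : Finset X, Y.card = 2 * s + 1 → ε (Y.image g) = chi g Y * ε Y)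

include hpm hε in
lemma sa_tame {Y : Finset X} (hY : Y.card = 2 * s + 1) {a : X} (ha : a ∈ Y) :
    sa ε Y a ∈ tame G :=
  (tame G).mul_mem (const_tame _) (vv_tame hpm hε (by rw [card_erase_of_mem ha, hY]; rfl))

include hε in
lemma sa_image {Y : Finset X} (hY : Y.card = 2 * s + 1) {a : X} (ha : a ∈ Y) {g : Perm X}
    (hg : g ∈ G) {y : X} (hy : y ∉ Y) : sa ε (Y.image g) (g a) (g y) = sa ε Y a y := by
  have hc : (Y.erase a).card = 2 * s := by rw [card_erase_of_mem ha, hY]; rfl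
  unfold sa
  rw [← image_erase g.injective, vv_image hε hg hc (notMem_erase a Y),
    vv_image hε hg hc fun h => hy (mem_of_mem_erase h)]
  linear_combination (vv ε (Y.erase a) a * vv ε (Y.erase a) y) * (chi_pm g (Y.erase a)).sq

end moments

theorem orth [Infinite X] {s : ℕ} (hs : 2 ≤ s) (hG : Gen G (s + 1))
    {M : (X → ℝ) →ₗ[ℝ] ℝ} (hM : Mean G M) {ε : Finset X → ℝ} (hpm : ∀ Y, Pm (ε Y))
    (hε : ∀ g ∈ G, ∀ Y : Finset X, Y.card = 2 * s + 1 → ε (Y.image g) = chi g Y * ε Y) :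
    NMean G M ∧ ∀ T : Finset X, T.card + 1 = 2 * s → ∀ u ∉ T, ∀ u' ∉ T, u ≠ u' →
      M (vv ε (insert u T) * vv ε (insert u' T)) = 0 := by
  have hs1 : 1 ≤ s := by omega
  have hN : NMean G M := hM.nmean fun a b => by
    obtain ⟨Y, h1, hY⟩ := Infinite.exists_superset_card_eq ({a, b} : Finset X) (2 * s + 1)
      (card_le_two.trans (by omega))
    obtain ⟨g, hg, -, e⟩ := point_move hs1 hG hY hY (h1 (mem_insert_self _ _))
      (h1 (mem_insert_of_mem (mem_singleton_self b)))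
    exact ⟨g, hg, e⟩
  refine ⟨hN, ?_⟩
  have hα : ∀ Y Y' : Finset X, Y.card = 2 * s + 1 → Y'.card = 2 * s + 1 → ∀ a ∈ Y, ∀ a' ∈ Y',
      M (sa ε Y' a') = M (sa ε Y a) := by
    intro Y Y' hY hY' a ha a' ha'
    obtain ⟨g, hg, rfl, rfl⟩ := point_move hs1 hG hY hY' ha ha'
    rw [← hM.inv _ (sa_tame hpm hε hY' ha') g hg]
    exact hN.congr Y _ _ fun y hy => sa_image hε hY ha hg hy
  have hsa : ∀ (Y : Finset X) (a : X), M (sa ε Y a) = vv ε (Y.erase a) a * M (vv ε (Y.erase a)) :=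
    fun Y a => by rw [← smul_eq_mul, ← map_smul]; rfl
  have hα0 : ∀ Y : Finset X, Y.card = 2 * s + 1 → ∀ a ∈ Y, M (sa ε Y a) = 0 := by
    intro Y hY a ha
    by_contra h0
    obtain ⟨y, hy⟩ := Infinite.exists_notMem_finset Y
    have h1 : ∀ b ∈ Y, vv ε (Y.erase b) b * vv ε (Y.erase b) y = 1 := by
      intro b hb
      have hy' : y ∉ Y.erase b := fun h => hy (mem_of_mem_erase h)
      have h2 := hα Y Y hY hY a ha b hb
      have h3 := hα Y (insert y (Y.erase b)) hY
        (by rw [card_insert_of_notMem hy', card_erase_of_mem hb, hY]; rfl) a ha y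
        (mem_insert_self _ _)
      rw [hsa] at h2 h3
      rw [erase_insert hy'] at h3
      have h4 : M (vv ε (Y.erase b)) ≠ 0 := fun h => h0 (by rw [← h2, h, mul_zero])
      rw [← mul_right_cancel₀ h4 (h2.trans h3.symm)]
      exact (vv_pm hpm _ _).sq
    have h5 := ww_cases hG hpm hε hY hy
    rw [ww, sum_congr rfl h1, sum_const, hY] at h5
    have h6 : (1 : ℝ) ≤ s := by exact_mod_cast hs1
    simp only [nsmul_eq_mul, Nat.cast_add, Nat.cast_mul, Nat.cast_ofNat, Nat.cast_one,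
      mul_one] at h5
    rcases h5 with h | h <;> linarith
  have hρ : ∀ Y : Finset X, Y.card = 2 * s + 1 → ∀ a ∈ Y, ∀ b ∈ Y, a ≠ b →
      M (sa ε Y a * sa ε Y b) = 0 := by
    intro Y hY a ha b hb hab
    have h1 : ∀ a' ∈ Y, ∀ b' ∈ Y.erase a', M (sa ε Y a' * sa ε Y b') = M (sa ε Y a * sa ε Y b) := by
      intro a' ha' b' hb'
      obtain ⟨h2, h3⟩ := mem_erase.1 hb'
      obtain ⟨g, hg, e, rfl, rfl⟩ := pair_move hs1 hG hY ha hb ha' h3 hab h2.symm
      rw [← hM.inv _ ((tame G).mul_mem (sa_tame hpm hε hY ha') (sa_tame hpm hε hY h3)) g hg]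
      refine hN.congr Y _ _ fun y hy => ?_
      have h4 := sa_image hε hY ha hg hy
      have h5 := sa_image hε hY hb hg hy
      rw [e] at h4 h5
      simp only [Pi.mul_apply, h4, h5]
    have h2 : ∀ a', M (sa ε Y a' * sa ε Y a') = 1 := fun a' => by
      rw [← hM.one]
      congr 1
      funext y
      exact ((vv_pm hpm _ _).mul (vv_pm hpm _ _)).sq
    have h3 : M ((∑ a' ∈ Y, sa ε Y a') * ∑ b' ∈ Y, sa ε Y b') =
        M (((2 * s + 1 : ℝ)) • (1 : X → ℝ) - (2 * s : ℝ) • ∑ a' ∈ Y, sa ε Y a') := by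
      refine hN.congr Y _ _ fun y hy => ?_
      have h4 := ww_cases hG hpm hε hY hy
      simp only [Pi.mul_apply, Pi.sub_apply, Pi.smul_apply, Pi.one_apply, smul_eq_mul,
        Finset.sum_apply, sa]
      unfold ww at h4
      generalize ∑ a' ∈ Y, vv ε (Y.erase a') a' * vv ε (Y.erase a') y = S at h4
      rcases h4 with h | h
      · rw [show S = 1 by linarith]
        ring
      · rw [show S = -(2 * s + 1) by linarith]
        ring
    rw [map_sub, map_smul, map_smul, hM.one, map_sum, sum_eq_zero (hα0 Y hY), sum_mul_sum,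
      map_sum, sum_congr rfl (g := fun _ => 1 + 2 * s * M (sa ε Y a * sa ε Y b)) fun a' ha' => by
        rw [map_sum, ← add_sum_erase _ _ ha', h2, sum_congr rfl (h1 a' ha'), sum_const,
          card_erase_of_mem ha', hY]
        simp, sum_const, hY] at h3
    simp only [nsmul_eq_mul, Nat.cast_add, Nat.cast_mul, Nat.cast_ofNat, Nat.cast_one,
      smul_eq_mul, mul_one, mul_zero, sub_zero] at h3
    have h6 : (1 : ℝ) ≤ s := by exact_mod_cast hs1
    have h7 : (2 * s + 1 : ℝ) * (2 * s) * M (sa ε Y a * sa ε Y b) = 0 := by linear_combination h3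
    exact (mul_eq_zero.1 h7).resolve_left (by positivity)
  intro T hT u hu u' hu' huu
  have n1 : u ∉ insert u' T := fun h => (mem_insert.1 h).elim huu hu
  have n2 : u' ∉ insert u T := fun h => (mem_insert.1 h).elim huu.symm hu'
  have h1 := hρ (insert u (insert u' T))
    (by rw [card_insert_of_notMem n1, card_insert_of_notMem hu', hT]) u'
    (mem_insert_of_mem (mem_insert_self _ _)) u (mem_insert_self _ _) huu.symm
  have h2 : sa ε (insert u (insert u' T)) u' * sa ε (insert u (insert u' T)) u =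
      (vv ε (insert u T) u' * vv ε (insert u' T) u) • (vv ε (insert u T) * vv ε (insert u' T)) := by
    funext y
    simp only [Pi.mul_apply, Pi.smul_apply, smul_eq_mul, sa]
    rw [erase_insert n1, insert_comm u u', erase_insert n2]
    ring
  rw [h2, map_smul, smul_eq_mul] at h1
  refine (mul_eq_zero.1 h1).resolve_left fun h => ?_
  have h3 := ((vv_pm hpm (insert u T) u').mul (vv_pm hpm (insert u' T) u)).sq
  rw [h] at h3
  simp at h3

end Pool.Agent.Lib.MP_155633_al.Amen
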