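import Mathlib

/-!
The sign function of a group that induces exactly the alternating group on tuples.
-/

set_option autoImplicit false

namespace Pool.Agent.Lib.MP_155633_al

open Equiv

/-- An invariant alternating sign function on tuples, with the condition on one more point. -/
structure SignFn {X : Type*} (G : Subgroup (Perm X)) {κ : Type} [Fintype κ] [DecidableEq κ]
    (c : (κ → X) → ℝ) : Prop where
  zero : ∀ T, ¬ Function.Injective T → c T = 0
  sq : ∀ T, Function.Injective T → c T * c T = 1
  inv : ∀ g ∈ G, ∀ T, c (fun i => g (T i)) = c T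
  alt : ∀ (σ : Perm κ) T, c (fun i => T (σ i)) = ((Perm.sign σ : ℤ) : ℝ) * c T
  even : ∀ T, Function.Injective T → ∀ σ : Perm κ, Perm.sign σ = 1 →
    ∃ g ∈ G, ∀ i, g (T i) = T (σ i)
  face : ∀ S, Function.Injective S → ∀ y, (∀ i, S i ≠ y) →
    c S = ∑ p, c (Function.update S p y) ∨ ∀ p, c (Function.update S p y) = - c S

end Pool.Agent.Lib.MP_155633_al
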