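import Pool.Agent.Lib.MP_155633_al.Main
import Pool.Agent.Lib.MP_155633_al.AmSignDef

/-!
Either `G` is `(2s+1)`-transitive or it preserves a sign function.
-/

set_option autoImplicit false

namespace Pool.Agent.Lib.MP_155633_al

open Equiv

variable {X : Type*} {G : Subgroup (Perm X)}

theorem even_ind [Infinite X] {s : ℕ} (hG : Gen G (s + 1)) {κ : Type} [Fintype κ] [DecidableEq κ]
    (hκ : Fintype.card κ = 2 * s + 1) {T : κ → X} (hT : Function.Injective T) (σ : Perm κ)
    (hσ : Perm.sign σ = 1) : σ ∈ ind G T := by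
  classical
  set Y : Finset X := Finset.univ.map ⟨T, hT⟩ with hY
  have hm : ∀ j, T j ∈ Y := fun j => Finset.mem_map_of_mem _ (Finset.mem_univ j)
  have hc : Y.card = 2 * s + 1 := by simp [hY, hκ]
  have hb : Function.Bijective fun j => (⟨T j, hm j⟩ : Y) := by
    rw [Fintype.bijective_iff_injective_and_card]
    refine ⟨fun a b h => hT (congrArg Subtype.val h), ?_⟩
    simp only [Fintype.card_coe]
    omega
  set e := Equiv.ofBijective _ hb with he
  have hez : ∀ j, (e j : X) = T j := fun _ => rfl
  obtain ⟨g, hg, h⟩ := alt_induced (t := s + 1) (by omega) hG Y (by omega) (e.permCongr σ)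
    (by rw [Perm.sign_permCongr, hσ])
  refine ⟨g, hg, fun j => ?_⟩
  have := h (e j)
  simpa [hez] using this

theorem tuple_homog {s : ℕ} (hG : Gen G (s + 1)) {κ : Type} [Fintype κ]
    (hκ : Fintype.card κ = 2 * s + 1) {T T' : κ → X} (hT : Function.Injective T)
    (hT' : Function.Injective T') : ∃ g ∈ G, ∃ σ : Perm κ, ∀ i, g (T i) = T' (σ i) := by
  obtain ⟨g, hg, h⟩ := homog hG (Finset.univ.map ⟨T', hT'⟩) (by simp [hκ])
    (Finset.univ.map ⟨T, hT⟩) (by simp [hκ])
  refine ⟨g, hg, lift_perm hT g fun j => ?_⟩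
  obtain ⟨j', -, e⟩ := Finset.mem_map.1 (h (T j) (Finset.mem_map_of_mem _ (Finset.mem_univ j)))
  exact ⟨j', e.symm⟩

theorem trans_of_top {s : ℕ} (hG : Gen G (s + 1)) {κ : Type} [Fintype κ]
    (hκ : Fintype.card κ = 2 * s + 1) {T : κ → X} (hT : Function.Injective T)
    (h : ∀ σ : Perm κ, σ ∈ ind G T) (x y : κ → X) (hx : Function.Injective x)
    (hy : Function.Injective y) : ∃ g ∈ G, ∀ i, g (x i) = y i := by
  obtain ⟨g1, hg1, σ1, h1⟩ := tuple_homog hG hκ hx hT
  obtain ⟨g2, hg2, σ2, h2⟩ := tuple_homog hG hκ hy hT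
  obtain ⟨k, hk, h3⟩ := h (σ2 * σ1⁻¹)
  refine ⟨g2⁻¹ * k * g1, G.mul_mem (G.mul_mem (G.inv_mem hg2) hk) hg1, fun i => ?_⟩
  simp only [Perm.mul_apply, h1, h3]
  rw [Perm.inv_eq_iff_eq, h2]
  simp

section face

variable {κ : Type} [Fintype κ] [DecidableEq κ] {c : (κ → X) → ℝ}

/-- The signed face of a tuple with one more point. -/
noncomputable def faceU (c : (κ → X) → ℝ) (P : Option κ → X) (a : Option κ) : ℝ :=
  ((Perm.sign (swap none a) : ℤ) : ℝ) * c fun i => P (swap none a (some i))

theorem faceU_perm (hinv : ∀ g ∈ G, ∀ T, c (fun i => g (T i)) = c T)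
    (halt : ∀ (σ : Perm κ) T, c (fun i => T (σ i)) = ((Perm.sign σ : ℤ) : ℝ) * c T)
    (P : Option κ → X) (σ : Perm (Option κ)) (hσ : σ ∈ ind G P) (a : Option κ) :
    faceU c P a = ((Perm.sign σ : ℤ) : ℝ) * faceU c P (σ a) := by
  obtain ⟨g, hg, h⟩ := hσ
  set ρ : Perm (Option κ) := swap none (σ a) * σ * swap none a with hρ
  have h0 : ρ none = none := by simp [hρ]
  have h1 : (removeNone ρ).optionCongr = ρ := by
    rw [map_equiv_removeNone, h0, swap_self]
    rfl
  have h2 : ∀ i, some (removeNone ρ i) = ρ (some i) := fun i =>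
    congrArg (fun e : Perm (Option κ) => e (some i)) h1
  have h3 : Perm.sign (removeNone ρ) =
      Perm.sign (swap none (σ a)) * Perm.sign σ * Perm.sign (swap none a) := by
    rw [← optionCongr_sign, h1, hρ, map_mul, map_mul]
  have h4 : (fun i => g (P (swap none a (some i)))) =
      fun i => P (swap none (σ a) (some (removeNone ρ i))) := by
    funext i
    rw [h, h2, hρ]
    simp
  unfold faceU
  rw [← hinv g hg, h4, halt (removeNone ρ) fun i => P (swap none (σ a) (some i)), h3]
  have h5 : ((Perm.sign (swap none a) : ℤ) : ℝ) * ((Perm.sign (swap none a) : ℤ) : ℝ) = 1 := by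
    rw [← Int.cast_mul, ← Units.val_mul, Int.units_mul_self]
    simp
  simp only [Units.val_mul, Int.cast_mul]
  linear_combination (((Perm.sign (swap none (σ a)) : ℤ) : ℝ) * ((Perm.sign σ : ℤ) : ℝ) *
    c fun i => P (swap none (σ a) (some i))) * h5

theorem face_of {s : ℕ} (hG : Gen G (s + 1)) (hκ : Fintype.card κ = 2 * s + 1)
    (hinv : ∀ g ∈ G, ∀ T, c (fun i => g (T i)) = c T)
    (halt : ∀ (σ : Perm κ) T, c (fun i => T (σ i)) = ((Perm.sign σ : ℤ) : ℝ) * c T)
    (S : κ → X) (hS : Function.Injective S) (y : X) (hy : ∀ i, S i ≠ y) :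
    c S = ∑ p, c (Function.update S p y) ∨ ∀ p, c (Function.update S p y) = - c S := by
  set P : Option κ → X := fun o => o.elim y S with hP
  have hPi : Function.Injective P := by
    rintro (_ | a) (_ | b) h
    · rfl
    · exact absurd h.symm (hy b)
    · exact absurd h (hy a)
    · exact congrArg some (hS h)
  have hn : faceU c P none = c S := by simp [faceU, hP]
  have hs : ∀ p, faceU c P (some p) = - c (Function.update S p y) := by
    intro p
    have : (fun i => P (swap none (some p) (some i))) = Function.update S p y := by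
      funext i
      by_cases h : i = p
      · subst h
        simp [hP]
      · rw [swap_apply_of_ne_of_ne (by simp) (by simpa using h), Function.update_of_ne h]
        rfl
    unfold faceU
    rw [this, Perm.sign_swap (by simp)]
    simp
  by_cases ht : ∑ a, faceU c P a = 0
  · left
    rw [Fintype.sum_option, hn] at ht
    simp only [hs, Finset.sum_neg_distrib] at ht
    linarith
  · right
    have hc : Fintype.card (Option κ) = 2 * s + 2 := by simp [hκ]
    have key : ∀ A : Finset (Option κ), A.card = s + 1 →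
        2 * ∑ a ∈ A, faceU c P a = ∑ a, faceU c P a := by
      intro A hA
      have hB : Aᶜ.card = s + 1 := by rw [Finset.card_compl, hc, hA]; omega
      obtain ⟨σ, hσ, h1, h2⟩ := swap_perm hG hPi A Aᶜ hA hB
        (fun j => by by_cases h : j ∈ A <;> simp [h])
      have e1 : ∑ a ∈ A, faceU c P (σ a) = ∑ b ∈ Aᶜ, faceU c P b := by
        refine Finset.sum_equiv σ (fun a => ⟨h1 a, fun h => ?_⟩) fun _ _ => rfl
        by_contra ha
        exact Finset.mem_compl.1 h (h2 a (Finset.mem_compl.2 ha))
      have e2 : ∑ a ∈ A, faceU c P a = ((Perm.sign σ : ℤ) : ℝ) * ∑ b ∈ Aᶜ, faceU c P b := by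
        rw [← e1, Finset.mul_sum]
        exact Finset.sum_congr rfl fun a _ => faceU_perm hinv halt P σ hσ a
      have e3 := Finset.sum_add_sum_compl A (faceU c P)
      rcases Int.units_eq_one_or (Perm.sign σ) with h | h
      · rw [h] at e2
        simp at e2
        linarith
      · rw [h] at e2
        simp at e2
        exact absurd (by linarith) ht
    intro p
    obtain ⟨C, hC, hCc⟩ := Finset.exists_subset_card_eq
      (s := ({none, some p} : Finset (Option κ))ᶜ) (n := s)
      (by rw [Finset.card_compl, hc, Finset.card_pair (by simp)]; omega)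
    have n1 : none ∉ C := fun h => by simpa using hC h
    have n2 : some p ∉ C := fun h => by simpa using hC h
    have k1 := key (insert none C) (by rw [Finset.card_insert_of_notMem n1, hCc])
    have k2 := key (insert (some p) C) (by rw [Finset.card_insert_of_notMem n2, hCc])
    rw [Finset.sum_insert n1, hn] at k1
    rw [Finset.sum_insert n2, hs] at k2
    linarith

end face

theorem exists_signFn [Infinite X] {s : ℕ} (hG : Gen G (s + 1)) {κ : Type} [Fintype κ]
    [DecidableEq κ] (hκ : Fintype.card κ = 2 * s + 1) {T0 : κ → X} (h0 : Function.Injective T0)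
    (hev : ∀ σ ∈ ind G T0, Perm.sign σ = 1) : ∃ c : (κ → X) → ℝ, SignFn G c := by
  classical
  have hex : ∀ T : κ → X, Function.Injective T →
      ∃ σ : Perm κ, ∃ g ∈ G, ∀ i, g (T i) = T0 (σ i) := fun T hT => by
    obtain ⟨g, hg, σ, h⟩ := tuple_homog hG hκ hT h0
    exact ⟨σ, g, hg, h⟩
  choose τ hτ using hex
  set c : (κ → X) → ℝ := fun T =>
    if h : Function.Injective T then ((Perm.sign (τ T h) : ℤ) : ℝ) else 0 with hc
  have key : ∀ T, Function.Injective T → ∀ g ∈ G, ∀ σ : Perm κ, (∀ i, g (T i) = T0 (σ i)) →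
      c T = ((Perm.sign σ : ℤ) : ℝ) := by
    intro T hT g hg σ h
    obtain ⟨g', hg', h'⟩ := hτ T hT
    have hm : τ T hT * σ⁻¹ ∈ ind G T0 := by
      refine ⟨g' * g⁻¹, G.mul_mem hg' (G.inv_mem hg), fun j => ?_⟩
      have : g⁻¹ (T0 j) = T (σ⁻¹ j) := by rw [Perm.inv_eq_iff_eq, h]; simp
      simp only [Perm.mul_apply, this, h']
    have := hev _ hm
    rw [map_mul, map_inv, mul_inv_eq_one] at this
    simp only [hc, dif_pos hT, this]
  have hz : ∀ T, ¬ Function.Injective T → c T = 0 := fun T hT => by simp only [hc, dif_neg hT]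
  have hinv : ∀ g ∈ G, ∀ T, c (fun i => g (T i)) = c T := by
    intro g hg T
    by_cases hT : Function.Injective T
    · obtain ⟨g', hg', h'⟩ := hτ T hT
      rw [key T hT g' hg' _ h']
      exact key _ (g.injective.comp hT) (g' * g⁻¹) (G.mul_mem hg' (G.inv_mem hg)) _
        fun i => by simp [h']
    · rw [hz T hT]
      exact hz _ fun h => hT (Function.Injective.of_comp (f := g) h)
  have halt : ∀ (σ : Perm κ) T, c (fun i => T (σ i)) = ((Perm.sign σ : ℤ) : ℝ) * c T := by
    intro σ T
    by_cases hT : Function.Injective T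
    · obtain ⟨g', hg', h'⟩ := hτ T hT
      rw [key T hT g' hg' _ h', key (fun i => T (σ i)) (hT.comp σ.injective) g' hg' (τ T hT * σ)
        fun i => h' _,
        map_mul, Units.val_mul, Int.cast_mul, mul_comm]
    · rw [hz T hT, mul_zero]
      exact hz _ fun h => hT ((Function.Injective.of_comp_iff' T σ.bijective).1 h)
  refine ⟨c, hz, fun T hT => ?_, hinv, halt, fun T hT σ hσ => even_ind hG hκ hT σ hσ,
    face_of hG hκ hinv halt⟩
  simp only [hc, dif_pos hT]
  rw [← Int.cast_mul, ← Units.val_mul, Int.units_mul_self]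
  simp

theorem trans_or_sign [Infinite X] {s : ℕ} (hG : Gen G (s + 1)) :
    (∀ x y : Fin (2 * s + 1) → X, Function.Injective x → Function.Injective y →
      ∃ g ∈ G, ∀ i, g (x i) = y i) ∨
    (2 ≤ s ∧ ∃ c : (Fin (2 * s + 1) → X) → ℝ, SignFn G c) := by
  set e := Infinite.natEmbedding X
  have hz : Function.Injective fun j : Fin (2 * s + 1) => e j.val :=
    fun a b h => Fin.ext (e.injective h)
  have hκ : Fintype.card (Fin (2 * s + 1)) = 2 * s + 1 := by simp
  by_cases hev : ∀ σ ∈ ind G fun j : Fin (2 * s + 1) => e j.val, Perm.sign σ = 1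
  · rcases Nat.lt_or_ge s 2 with h | h
    · left
      interval_cases s
      · refine trans_of_top hG hκ hz fun σ => ?_
        have : σ = 1 := Equiv.ext fun i => Fin.ext (by
          have h1 := (σ i).isLt
          have h2 := i.isLt
          simp only [Perm.one_apply]
          omega)
        rw [this]
        exact Subgroup.one_mem _
      · obtain ⟨σ, hσ, h0, h1, -⟩ := swap_fix (s := 1) hG hκ hz 0 {1} (by decide) rfl
        have h3 : ∀ ρ : Perm (Fin (2 * 1 + 1)), ρ 0 = 0 → Perm.sign ρ = 1 → ρ 1 = 1 := by decide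
        exact absurd (Finset.mem_singleton.2 (h3 σ h0 (hev σ hσ))) (h1 1 (by simp))
    · exact Or.inr ⟨h, exists_signFn hG hκ hz hev⟩
  · left
    push Not at hev
    obtain ⟨σ0, hσ0, hs⟩ := hev
    refine trans_of_top hG hκ hz fun σ => ?_
    by_cases h : Perm.sign σ = 1
    · exact even_ind hG hκ hz σ h
    · have h1 := (Int.units_eq_one_or (Perm.sign σ)).resolve_left h
      have h2 := (Int.units_eq_one_or (Perm.sign σ0)).resolve_left hs
      have h3 := even_ind hG hκ hz (σ * σ0⁻¹) (by rw [map_mul, map_inv, h1, h2]; simp)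
      simpa using Subgroup.mul_mem _ h3 hσ0

end Pool.Agent.Lib.MP_155633_al
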