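import Mathlib

/-!
Generous transitivity on `t`-subsets: induced groups on tuples, homogeneity, and the step from an
element of small support to the alternating group.
-/

set_option autoImplicit false

namespace Pool.Agent.Lib.MP_155633_al

open Equiv

variable {X : Type*}

/-- Any two `t`-sets are exchanged by an element of `G`. -/
def Gen (G : Subgroup (Perm X)) (t : ℕ) : Prop :=
  ∀ A B : Finset X, A.card = t → B.card = t →
    ∃ g ∈ G, (∀ a ∈ A, g a ∈ B) ∧ (∀ b ∈ B, g b ∈ A)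

/-- The group induced on the index set of a tuple. -/
def ind (G : Subgroup (Perm X)) {ι : Type*} (z : ι → X) : Subgroup (Perm ι) where
  carrier := {σ | ∃ g ∈ G, ∀ j, g (z j) = z (σ j)}
  one_mem' := ⟨1, G.one_mem, fun _ => rfl⟩
  mul_mem' := by
    rintro σ τ ⟨g, hg, h⟩ ⟨g', hg', h'⟩
    exact ⟨g * g', G.mul_mem hg hg', fun j => by simp [h, h']⟩
  inv_mem' := by
    rintro σ ⟨g, hg, h⟩
    refine ⟨g⁻¹, G.inv_mem hg, fun j => ?_⟩
    have := h (σ⁻¹ j)
    simp only [Perm.coe_inv, apply_symm_apply] at this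
    rw [Perm.inv_eq_iff_eq]
    simpa using this.symm

theorem mem_ind {G : Subgroup (Perm X)} {ι : Type*} {z : ι → X} {σ : Perm ι} :
    σ ∈ ind G z ↔ ∃ g ∈ G, ∀ j, g (z j) = z (σ j) := Iff.rfl

theorem lift_perm {ι : Type*} [Finite ι] {z z' : ι → X} (hz : Function.Injective z)
    (g : Perm X) (h : ∀ j, ∃ j', g (z j) = z' j') : ∃ σ : Perm ι, ∀ j, g (z j) = z' (σ j) := by
  choose f hf using h
  have hinj : Function.Injective f := by
    intro a b hab
    apply hz
    apply g.injective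
    rw [hf, hf, hab]
  exact ⟨Equiv.ofBijective f (Finite.injective_iff_bijective.1 hinj), hf⟩

theorem swap_perm {G : Subgroup (Perm X)} {t : ℕ} (hG : Gen G t) {ι : Type*} [Fintype ι]
    {z : ι → X} (hz : Function.Injective z) (A B : Finset ι) (hA : A.card = t) (hB : B.card = t)
    (hAB : ∀ j, j ∈ A ∨ j ∈ B) :
    ∃ σ ∈ ind G z, (∀ a ∈ A, σ a ∈ B) ∧ (∀ b ∈ B, σ b ∈ A) := by
  obtain ⟨g, hg, h1, h2⟩ := hG (A.map ⟨z, hz⟩) (B.map ⟨z, hz⟩) (by simpa) (by simpa)
  have h1' : ∀ a ∈ A, ∃ b ∈ B, z b = g (z a) := fun a ha => by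
    simpa using h1 (z a) (Finset.mem_map.2 ⟨a, ha, rfl⟩)
  have h2' : ∀ b ∈ B, ∃ a ∈ A, z a = g (z b) := fun b hb => by
    simpa using h2 (z b) (Finset.mem_map.2 ⟨b, hb, rfl⟩)
  obtain ⟨σ, hσ⟩ := lift_perm (z' := z) hz g (fun j => by
    rcases hAB j with h | h
    · obtain ⟨b, -, hb⟩ := h1' j h
      exact ⟨b, hb.symm⟩
    · obtain ⟨a, -, ha⟩ := h2' j h
      exact ⟨a, ha.symm⟩)
  refine ⟨σ, ⟨g, hg, hσ⟩, fun a ha => ?_, fun b hb => ?_⟩
  · obtain ⟨b, hb, e⟩ := h1' a ha
    rw [hσ] at e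
    rwa [← hz e]
  · obtain ⟨a, ha, e⟩ := h2' b hb
    rw [hσ] at e
    rwa [← hz e]

/-- A group containing an exchange for every balanced partition of `T` is transitive on `T`. -/
theorem trans_of_swaps {ι : Type*} [DecidableEq ι] (K : Subgroup (Perm ι)) (T : Finset ι) (s : ℕ)
    (hT : T.card = 2 * s)
    (h : ∀ C ⊆ T, C.card = s → ∃ σ ∈ K, ∀ c ∈ C, σ c ∈ T ∧ σ c ∉ C) :
    ∀ x ∈ T, ∀ y ∈ T, ∃ σ ∈ K, σ x = y := by
  classical
  have key : ∀ S ⊆ T, S.card ≤ s → (∀ u ∈ S, ∀ σ ∈ K, σ u ∈ T → σ u ∈ S) → ∀ u, u ∉ S := by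
    intro S hS hc hinv u hu
    obtain ⟨C, hSC, hCT, hC⟩ := Finset.exists_subsuperset_card_eq hS hc (by omega : s ≤ T.card)
    obtain ⟨σ, hσ, hsw⟩ := h C hCT hC
    obtain ⟨h1, h2⟩ := hsw u (hSC hu)
    exact h2 (hSC (hinv u hu σ hσ h1))
  intro x hx y hy
  by_contra hne
  set O := T.filter (fun u => ∃ σ ∈ K, σ x = u) with hO
  set O' := T.filter (fun u => ¬ ∃ σ ∈ K, σ x = u) with hO'
  have hcard : O.card + O'.card = T.card := Finset.card_filter_add_card_filter_not _
  rcases le_or_gt O.card s with hle | hlt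
  · refine key O (Finset.filter_subset _ _) hle ?_ x
      (Finset.mem_filter.2 ⟨hx, 1, K.one_mem, rfl⟩)
    intro u hu σ hσ hT'
    obtain ⟨-, τ, hτ, rfl⟩ := Finset.mem_filter.1 hu
    exact Finset.mem_filter.2 ⟨hT', σ * τ, K.mul_mem hσ hτ, rfl⟩
  · refine key O' (Finset.filter_subset _ _) (by omega) ?_ y (Finset.mem_filter.2 ⟨hy, hne⟩)
    intro u hu σ hσ hT'
    refine Finset.mem_filter.2 ⟨hT', ?_⟩
    rintro ⟨τ, hτ, e⟩
    exact (Finset.mem_filter.1 hu).2 ⟨σ⁻¹ * τ, K.mul_mem (K.inv_mem hσ) hτ, by simp [e]⟩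

/-- On a `(2t-1)`-tuple: an exchange of `C` with the rest, fixing `a`. -/
theorem swap_fix {G : Subgroup (Perm X)} {s : ℕ} (hG : Gen G (s + 1)) {ι : Type*} [Fintype ι]
    [DecidableEq ι] (hι : Fintype.card ι = 2 * s + 1) {z : ι → X} (hz : Function.Injective z)
    (a : ι) (C : Finset ι) (haC : a ∉ C) (hC : C.card = s) :
    ∃ σ ∈ ind G z, σ a = a ∧ (∀ c ∈ C, σ c ∉ C) ∧ (∀ d, d ≠ a → d ∉ C → σ d ∈ C) := by
  obtain ⟨σ, hσ, h1, h2⟩ := swap_perm hG hz (insert a C) Cᶜ
    (by rw [Finset.card_insert_of_notMem haC, hC])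
    (by rw [Finset.card_compl, hι, hC]; omega)
    (fun j => by by_cases h : j ∈ C <;> simp [h])
  have ha : σ a = a := by
    have e1 := h1 a (Finset.mem_insert_self _ _)
    have e2 := h2 a (Finset.mem_compl.2 haC)
    rcases Finset.mem_insert.1 e2 with e | e
    · exact e
    · exact absurd e (Finset.mem_compl.1 e1)
  refine ⟨σ, hσ, ha, fun c hc => Finset.mem_compl.1 (h1 c (Finset.mem_insert_of_mem hc)),
    fun d hd hdC => ?_⟩
  rcases Finset.mem_insert.1 (h2 d (Finset.mem_compl.2 hdC)) with e | e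
  · exact absurd (σ.injective (e.trans ha.symm)) hd
  · exact e

theorem stab_trans {G : Subgroup (Perm X)} {s : ℕ} (hG : Gen G (s + 1)) {ι : Type*} [Fintype ι]
    [DecidableEq ι] (hι : Fintype.card ι = 2 * s + 1) {z : ι → X} (hz : Function.Injective z)
    (a x y : ι) (hx : x ≠ a) (hy : y ≠ a) : ∃ σ ∈ ind G z, σ a = a ∧ σ x = y := by
  obtain ⟨σ, hσ, e⟩ := trans_of_swaps (ind G z ⊓ MulAction.stabilizer (Perm ι) a)
    (Finset.univ.erase a) s (by simp [hι]) (fun C hC hc => by
      have haC : a ∉ C := fun h => by simpa using hC h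
      obtain ⟨σ, hσ, ha, h1, -⟩ := swap_fix hG hι hz a C haC hc
      refine ⟨σ, ⟨hσ, ha⟩, fun c hcC => ⟨?_, h1 c hcC⟩⟩
      refine Finset.mem_erase.2 ⟨fun e => ?_, Finset.mem_univ _⟩
      exact haC (σ.injective (e.trans ha.symm) ▸ hcC))
    x (by simpa) y (by simpa)
  exact ⟨σ, hσ.1, hσ.2, e⟩

theorem ind_primitive {G : Subgroup (Perm X)} {s : ℕ} (hs : 1 ≤ s) (hG : Gen G (s + 1))
    {ι : Type*} [Fintype ι] [DecidableEq ι] (hι : Fintype.card ι = 2 * s + 1) {z : ι → X}
    (hz : Function.Injective z) : MulAction.IsPreprimitive (ind G z) ι := by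
  apply MulAction.isPreprimitive_of_is_two_pretransitive
  rw [MulAction.is_two_pretransitive_iff]
  intro a b c d hab hcd
  have h1 : ∃ σ ∈ ind G z, σ a = c := by
    obtain ⟨e, he⟩ : ∃ e, e ∉ ({a, c} : Finset ι) := by
      by_contra hno
      push Not at hno
      have h2 : (Finset.univ : Finset ι) ⊆ {a, c} := fun e _ => hno e
      have h3 := Finset.card_le_card h2
      have h4 : ({a, c} : Finset ι).card ≤ 2 := Finset.card_le_two
      rw [Finset.card_univ, hι] at h3
      omega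
    simp only [Finset.mem_insert, Finset.mem_singleton, not_or] at he
    obtain ⟨σ, hσ, -, h⟩ := stab_trans hG hι hz e a c (Ne.symm he.1) (Ne.symm he.2)
    exact ⟨σ, hσ, h⟩
  obtain ⟨σ, hσ, e⟩ := h1
  obtain ⟨τ, hτ, e1, e2⟩ := stab_trans hG hι hz c (σ b) d
    (fun h => hab (σ.injective (e.trans h.symm))) (Ne.symm hcd)
  refine ⟨⟨τ * σ, (ind G z).mul_mem hτ hσ⟩, ?_, ?_⟩
  · show τ (σ a) = c
    rw [e, e1]
  · exact e2

/-- A nontrivial induced element moving at most `t` points forces the alternating group. -/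
theorem alt_le {G : Subgroup (Perm X)} {s : ℕ} (hs : 1 ≤ s) (hG : Gen G (s + 1))
    {ι : Type*} [Fintype ι] [DecidableEq ι] (hι : Fintype.card ι = 2 * s + 1) {z : ι → X}
    (hz : Function.Injective z) (h : Perm ι) (hh : h ∈ ind G z) (h1 : h ≠ 1)
    (hc : h.support.card ≤ s + 1) : alternatingGroup ι ≤ ind G z := by
  obtain ⟨a, ha⟩ : h.support.Nonempty := by
    rw [Finset.nonempty_iff_ne_empty]
    exact fun e => h1 (Perm.support_eq_empty_iff.1 e)
  obtain ⟨C, hSC, hCT, hC⟩ := Finset.exists_subsuperset_card_eq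
    (Finset.erase_subset_erase a (Finset.subset_univ h.support))
    (by rw [Finset.card_erase_of_mem ha]; omega : _ ≤ s) (by simp [hι]; omega)
  have haC : a ∉ C := fun e => by simpa using hCT e
  obtain ⟨σ, hσ, hσa, hσ1, hσ2⟩ := swap_fix hG hι hz a C haC hC
  have hmem : ∀ u, h u ≠ u → u ≠ a → u ∈ C := fun u hu hua =>
    hSC (Finset.mem_erase.2 ⟨hua, Perm.mem_support.2 hu⟩)
  have hha : h a ≠ a := Perm.mem_support.1 ha
  have hhaC : h a ∈ C := hmem _ (fun e => hha (h.injective e)) hha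
  set h' : Perm ι := σ * h * σ⁻¹ with hh'
  have hfix : ∀ c ∈ C, h' c = c := by
    intro c hc
    have : h (σ⁻¹ c) = σ⁻¹ c := by
      by_contra hne
      have hne2 : σ⁻¹ c ≠ a := fun e => haC (by
        have : c = σ a := by rw [← e]; simp
        rw [this, hσa] at hc
        exact hc)
      have := hσ1 _ (hmem _ hne hne2)
      simp only [Perm.coe_inv, apply_symm_apply] at this
      exact this hc
    simp only [hh', Perm.mul_apply, this]
    simp
  have hinva : σ⁻¹ a = a := by rw [Perm.inv_eq_iff_eq]; exact hσa.symm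
  set b := h' a with hb
  have hbdef : b = σ (h a) := by simp only [hb, hh', Perm.mul_apply, hinva]
  have hbC : b ∉ C := by rw [hbdef]; exact hσ1 _ hhaC
  have hba : b ≠ a := by
    rw [hbdef]
    exact fun e => hha (σ.injective (e.trans hσa.symm))
  have hhb : h b = b := by
    by_contra hne
    exact hbC (hmem _ hne hba)
  have hcomm : ∀ u, (swap a b * h') (h u) = h ((swap a b * h') u) := by
    have hv : ∀ u, (u = a ∨ u ∈ C) → (swap a b * h') u = u := by
      rintro u (rfl | hu)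
      · simp [← hb]
      · rw [Perm.mul_apply, hfix u hu]
        exact swap_apply_of_ne_of_ne (fun e => haC (e ▸ hu)) (fun e => hbC (e ▸ hu))
    have hin : ∀ u, h u ≠ u → (u = a ∨ u ∈ C) := fun u hu => by
      by_cases e : u = a
      · exact Or.inl e
      · exact Or.inr (hmem u hu e)
    intro u
    by_cases hu : h u = u
    · rw [hu]
      by_contra hne
      have e := hv _ (hin _ (Ne.symm hne))
      have e2 := (swap a b * h').injective e
      rw [e2] at hne
      exact hne hu.symm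
    · rw [hv u (hin u hu), hv (h u) (hin _ (fun e => hu (h.injective e)))]
  have hthree : h * h' * h⁻¹ * h'⁻¹ = swap b (h a) * swap b a := by
    have e1 : swap a b * h' * h = h * (swap a b * h') := by
      ext u
      exact hcomm u
    have e2 : h' = swap a b * (swap a b * h') := by
      rw [← mul_assoc, swap_mul_self, one_mul]
    have e3 : h * swap a b * h⁻¹ = swap b (h a) := by
      rw [← swap_apply_apply, hhb, swap_comm]
    rw [← e3, swap_comm b a]
    set v := swap a b * h' with hv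
    rw [e2]
    have e4 : v * h⁻¹ * v⁻¹ = h⁻¹ := by
      rw [mul_inv_eq_iff_eq_mul, mul_inv_eq_iff_eq_mul, mul_assoc, e1]
      simp
    calc h * (swap a b * v) * h⁻¹ * (swap a b * v)⁻¹
        = h * swap a b * (v * h⁻¹ * v⁻¹) * (swap a b)⁻¹ := by group
      _ = h * swap a b * h⁻¹ * swap a b := by rw [e4, swap_inv]
  have hh'mem : h' ∈ ind G z :=
    (ind G z).mul_mem ((ind G z).mul_mem hσ hh) ((ind G z).inv_mem hσ)
  refine Perm.alternatingGroup_le_of_isPreprimitive_of_isThreeCycle_mem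
    (ind_primitive hs hG hι hz) (g := swap b (h a) * swap b a)
    (Perm.isThreeCycle_swap_mul_swap_same (fun e => hbC (e ▸ hhaC)) hba hha) ?_
  rw [← hthree]
  exact (ind G z).mul_mem ((ind G z).mul_mem ((ind G z).mul_mem hh hh'mem)
    ((ind G z).inv_mem hh)) ((ind G z).inv_mem hh'mem)

/-- Homogeneity on `(2t-1)`-sets. -/
theorem homog {G : Subgroup (Perm X)} {s : ℕ} (hG : Gen G (s + 1)) (Y' : Finset X)
    (hY' : Y'.card = 2 * s + 1) :
    ∀ Y : Finset X, Y.card = 2 * s + 1 → ∃ g ∈ G, ∀ y ∈ Y, g y ∈ Y' := by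
  classical
  have : ∀ n : ℕ, ∀ Y : Finset X, Y.card = 2 * s + 1 → (Y \ Y').card = n →
      ∃ g ∈ G, ∀ y ∈ Y, g y ∈ Y' := by
    intro n
    induction n with
    | zero =>
      intro Y _ h0
      have := Finset.sdiff_eq_empty_iff_subset.1 (Finset.card_eq_zero.1 h0)
      exact ⟨1, G.one_mem, fun y hy => this hy⟩
    | succ n ih =>
      intro Y hY hn
      obtain ⟨x, hx⟩ : (Y \ Y').Nonempty := Finset.card_pos.1 (by omega)
      obtain ⟨x', hx'⟩ : (Y' \ Y).Nonempty := Finset.card_pos.1 (by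
        rw [Finset.card_sdiff_comm (hY'.trans hY.symm)]; omega)
      obtain ⟨hxY, hxY'⟩ := Finset.mem_sdiff.1 hx
      obtain ⟨hx'Y', hx'Y⟩ := Finset.mem_sdiff.1 hx'
      set Z := insert x' Y with hZ
      have hZc : Fintype.card Z = 2 * (s + 1) := by
        rw [Fintype.card_coe, Finset.card_insert_of_notMem hx'Y]; omega
      obtain ⟨σ, ⟨g, hg, hgσ⟩, e⟩ := trans_of_swaps (ind G (Subtype.val : Z → X)) Finset.univ
        (s + 1) (by simpa using hZc) (fun C _ hc => by
          obtain ⟨σ, hσ, h1, -⟩ := swap_perm hG Subtype.val_injective C Cᶜ hc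
            (by rw [Finset.card_compl, hZc, hc]; omega)
            (fun j => by by_cases h : j ∈ C <;> simp [h])
          exact ⟨σ, hσ, fun c hcC => ⟨Finset.mem_univ _, Finset.mem_compl.1 (h1 c hcC)⟩⟩)
        ⟨x', Finset.mem_insert_self _ _⟩ (Finset.mem_univ _)
        ⟨x, Finset.mem_insert_of_mem hxY⟩ (Finset.mem_univ _)
      have hgx : g x' = x := by
        have := hgσ ⟨x', Finset.mem_insert_self _ _⟩
        rw [e] at this
        exact this
      obtain ⟨g', hg', h'⟩ := ih (Z.erase x) (by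
          rw [Finset.card_erase_of_mem (Finset.mem_insert_of_mem hxY),
            Finset.card_insert_of_notMem hx'Y]; omega) (by
          have : Z.erase x \ Y' = (Y \ Y').erase x := by
            ext u
            simp only [hZ, Finset.mem_sdiff, Finset.mem_erase, Finset.mem_insert]
            constructor
            · rintro ⟨⟨h1, h2 | h2⟩, h3⟩
              · exact absurd (h2 ▸ hx'Y') h3
              · exact ⟨h1, h2, h3⟩
            · rintro ⟨h1, h2, h3⟩
              exact ⟨⟨h1, Or.inr h2⟩, h3⟩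
          rw [this, Finset.card_erase_of_mem hx]; omega)
      refine ⟨g' * g, G.mul_mem hg' hg, fun y hy => h' _ (Finset.mem_erase.2 ⟨?_, ?_⟩)⟩
      · intro e2
        exact hx'Y (g.injective (e2.trans hgx.symm) ▸ hy)
      · have := hgσ ⟨y, Finset.mem_insert_of_mem hy⟩
        simp only at this
        rw [this]
        exact (σ _).2
  exact fun Y hY => this _ Y hY rfl

end Pool.Agent.Lib.MP_155633_al
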