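import Pool.Agent.Lib.MP_155633_al.Chk6

/-!
Finite checks on five, six and seven points.
-/

set_option autoImplicit false

namespace Pool.Agent.Lib.MP_155633_al

def chk7 (c : ℕ) : Bool :=
  l66.all fun a6 => l66.all fun a5 => !(Nat.beq (gt a5 5) (gt a6 5)) || !(trp c a6 a5) ||
    l66.all fun a0 => !(Nat.beq (gt a0 4) (gt a5 0) && Nat.beq (gt a0 5) (gt a6 0)) ||
    l66.all fun a1 => !(Nat.beq (gt a1 4) (gt a5 1) && Nat.beq (gt a1 5) (gt a6 1) &&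
      Nat.beq (gt a0 0) (gt a1 0)) ||
    l66.all fun a2 => !(Nat.beq (gt a2 4) (gt a5 2) && Nat.beq (gt a2 5) (gt a6 2) &&
      Nat.beq (gt a0 1) (gt a2 0) && Nat.beq (gt a1 1) (gt a2 1))

theorem chk7_ok : cyc.all chk7 = true := by decide +kernel

theorem sw0_lt : ∀ c ∈ sw0, gt c 3 < 3 ∧ gt c 4 < 3 ∧ gt c 5 < 3 := by decide +kernel

def okk (m k f : ℕ) (prev : List ℕ) : Bool :=
  (m.testBit f != m.testBit k) && prev.all fun x => !(Nat.beq x f)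

theorem swaps_mem : ∀ A : Fin 10,
    ∀ f0 : Fin 6, okk (masks.getD A 0) 0 f0 [] = true →
    ∀ f1 : Fin 6, okk (masks.getD A 0) 1 f1 [f0] = true →
    ∀ f2 : Fin 6, okk (masks.getD A 0) 2 f2 [f0, f1] = true →
    ∀ f3 : Fin 6, okk (masks.getD A 0) 3 f3 [f0, f1, f2] = true →
    ∀ f4 : Fin 6, okk (masks.getD A 0) 4 f4 [f0, f1, f2, f3] = true →
    ∀ f5 : Fin 6, okk (masks.getD A 0) 5 f5 [f0, f1, f2, f3, f4] = true →
      cd6 f0 f1 f2 f3 f4 f5 ∈ sws.getD A [] := by decide +kernel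

theorem mask_card : ∀ A : Fin 10,
    (Finset.univ.filter fun j : Fin 6 => (masks.getD A 0).testBit j = true).card = 3 := by
  decide +kernel

theorem dt_of_inv : ∀ a : Fin 5, ∀ f0 f1 f2 f3 f4 : Fin 5,
    ![f0, f1, f2, f3, f4] a = a → (∀ b, b ≠ a → ![f0, f1, f2, f3, f4] b ≠ b) →
    (∀ b, ![f0, f1, f2, f3, f4] (![f0, f1, f2, f3, f4] b) = b) →
    ∃ c : Fin 3, ∀ b, (![f0, f1, f2, f3, f4] b).val = dt a c b := by decide +kernel

theorem lab_of_dt : ∀ c0 c1 c2 c3 c4 : Fin 3,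
    (∃ l : Fin 6, ∀ a b : Fin 5, dt a (gt (cd6 c0 c1 c2 c3 c4 0) a) b = iv l a b) ∨
    ∃ a a' : Fin 5, a ≠ a' ∧ ∃ x : Fin 5,
      dt a (gt (cd6 c0 c1 c2 c3 c4 0) a) (dt a' (gt (cd6 c0 c1 c2 c3 c4 0) a') x) = x ∧
      ∃ y : Fin 5, x ≠ y ∧
      dt a (gt (cd6 c0 c1 c2 c3 c4 0) a) (dt a' (gt (cd6 c0 c1 c2 c3 c4 0) a') y) = y ∧
      ∃ j : Fin 5,
      dt a (gt (cd6 c0 c1 c2 c3 c4 0) a) (dt a' (gt (cd6 c0 c1 c2 c3 c4 0) a') j) ≠ j := by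
  decide +kernel

theorem dt_uniq : ∀ (l : Fin 6) (a : Fin 5) (c : Fin 3), (∀ b : Fin 5, dt a c b = iv l a b) ∨
    ∃ a' x : Fin 5, dt a c (iv l a' x) = x ∧ ∃ y : Fin 5, x ≠ y ∧ dt a c (iv l a' y) = y ∧
      ∃ j : Fin 5, dt a c (iv l a' j) ≠ j := by decide +kernel

theorem iv_props : ∀ (l : Fin 6) (a : Fin 5), iv l a a = a ∧ ∀ b : Fin 5,
    (b ≠ a → iv l a b ≠ b) ∧ iv l a (iv l a b) = b := by decide +kernel

theorem cyc_mem : ∀ f1 f2 f3 f4 : Fin 5,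
    (∀ b, b ≠ 0 → ![0, f1, f2, f3, f4] b ≠ 0 ∧ ![0, f1, f2, f3, f4] b ≠ b ∧
      ![0, f1, f2, f3, f4] (![0, f1, f2, f3, f4] b) ≠ b) →
    Function.Injective ![0, f1, f2, f3, f4] →
    cd6 0 f1 f2 f3 f4 5 ∈ cyc ∧
      ![0, f1, f2, f3, f4] (![0, f1, f2, f3, f4] (![0, f1, f2, f3, f4] f1)) = 1 := by
  decide +kernel

theorem gt_eq (c j : ℕ) : gt c j = c / 2 ^ (3 * j) % 8 := by
  rw [← Nat.shiftRight_eq_div_pow]; rfl

theorem cd3_eq (a b c : ℕ) : cd3 a b c = a + (8 * b + 64 * c) := rfl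

theorem cd6_eq (a b c d e f : ℕ) :
    cd6 a b c d e f = a + (8 * b + 64 * c) + 512 * (d + (8 * e + 64 * f)) := rfl

theorem gt_cd6 (l : Fin 6 → ℕ) (h : ∀ j, l j < 8) (j : Fin 6) :
    gt (cd6 (l 0) (l 1) (l 2) (l 3) (l 4) (l 5)) j = l j := by
  have h0 := h 0
  have h1 := h 1
  have h2 := h 2
  have h3 := h 3
  have h4 := h 4
  have h5 := h 5
  rw [gt_eq, cd6_eq]
  fin_cases j
  · show _ / 2 ^ (3 * 0) % 8 = l 0
    omega
  · show _ / 2 ^ (3 * 1) % 8 = l 1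
    omega
  · show _ / 2 ^ (3 * 2) % 8 = l 2
    omega
  · show _ / 2 ^ (3 * 3) % 8 = l 3
    omega
  · show _ / 2 ^ (3 * 4) % 8 = l 4
    omega
  · show _ / 2 ^ (3 * 5) % 8 = l 5
    omega

theorem gt_cd3 (l0 l1 l2 l3 l4 l5 j : ℕ) (_ : l0 < 8) (_ : l1 < 8) (_ : l2 < 8)
    (hj : j < 3) :
    gt (cd3 l0 l1 l2) j = gt (cd6 l0 l1 l2 l3 l4 l5) j := by
  rw [gt_eq, gt_eq, cd6_eq, cd3_eq]
  interval_cases j <;> omega

theorem mem_r6 (l : ℕ) (h : l < 6) : l ∈ r6 := by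
  interval_cases l <;> decide

theorem mem_l66 (l : Fin 6 → ℕ) (h : ∀ j, l j < 6)
    (hok : ok6 (cd6 (l 0) (l 1) (l 2) (l 3) (l 4) (l 5)) = true) :
    cd6 (l 0) (l 1) (l 2) (l 3) (l 4) (l 5) ∈ l66 := by
  have hg := gt_cd6 l (fun j => (h j).trans (by norm_num))
  have h0 := List.all_eq_true.1 hok sw0 (by simp [sws])
  obtain ⟨c, hc, ht⟩ := List.any_eq_true.1 h0
  obtain ⟨c3, c4, c5⟩ := sw0_lt c hc
  have ht' := List.all_eq_true.1 ht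
  have e3 := ht' 3 (by decide)
  have e4 := ht' 4 (by decide)
  have e5 := ht' 5 (by decide)
  have g3 : gt _ 3 = l 3 := hg 3
  have g4 : gt _ 4 = l 4 := hg 4
  have g5 : gt _ 5 = l 5 := hg 5
  have k0 : l 0 < 8 := (h 0).trans (by norm_num)
  have k1 : l 1 < 8 := (h 1).trans (by norm_num)
  have k2 : l 2 < 8 := (h 2).trans (by norm_num)
  rw [g3, ← gt_cd3 _ _ _ _ _ _ _ k0 k1 k2 c3] at e3
  rw [g4, ← gt_cd3 _ _ _ _ _ _ _ k0 k1 k2 c4] at e4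
  rw [g5, ← gt_cd3 _ _ _ _ _ _ _ k0 k1 k2 c5] at e5
  have q := List.all_eq_true.1 chk6_ok c hc
  have q0 := List.all_eq_true.1 q _ (mem_r6 _ (h 0))
  have q1 := List.all_eq_true.1 q0 _ (mem_r6 _ (h 1))
  have q2 := List.all_eq_true.1 q1 _ (mem_r6 _ (h 2))
  rw [force_eq] at q2
  have q3 := List.all_eq_true.1 q2 _ (mem_r6 _ (h 3))
  rw [e3, Bool.not_true, Bool.false_or] at q3
  have q4 := List.all_eq_true.1 q3 _ (mem_r6 _ (h 4))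
  rw [e4, Bool.not_true, Bool.false_or] at q4
  have q5 := List.all_eq_true.1 q4 _ (mem_r6 _ (h 5))
  rw [e5, force_eq, ht, hok, Bool.not_true, Bool.false_or, Bool.false_or, Bool.or_false] at q5
  obtain ⟨x, hx, e⟩ := List.any_eq_true.1 q5
  rwa [← Nat.eq_of_beq_eq_true e]

theorem seven_false (c a0 a1 a2 a5 a6 : ℕ) (hc : c ∈ cyc) (h0 : a0 ∈ l66) (h1 : a1 ∈ l66)
    (h2 : a2 ∈ l66) (h5 : a5 ∈ l66) (h6 : a6 ∈ l66) (ht : trp c a6 a5 = true)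
    (e56 : gt a5 5 = gt a6 5) (e05 : gt a0 4 = gt a5 0) (e06 : gt a0 5 = gt a6 0)
    (e15 : gt a1 4 = gt a5 1) (e16 : gt a1 5 = gt a6 1) (e01 : gt a0 0 = gt a1 0)
    (e25 : gt a2 4 = gt a5 2) (e26 : gt a2 5 = gt a6 2) (e02 : gt a0 1 = gt a2 0)
    (e12 : gt a1 1 = gt a2 1) : False := by
  have q := List.all_eq_true.1 chk7_ok c hc
  have q6 := List.all_eq_true.1 (List.all_eq_true.1 q a6 h6) a5 h5
  rw [ht, e56, Nat.beq_refl, Bool.not_true, Bool.false_or, Bool.false_or] at q6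
  have q0 := List.all_eq_true.1 q6 a0 h0
  rw [e05, e06, Nat.beq_refl, Nat.beq_refl, Bool.and_self, Bool.not_true, Bool.false_or] at q0
  have q1 := List.all_eq_true.1 q0 a1 h1
  rw [e15, e16, e01, Nat.beq_refl, Nat.beq_refl, Nat.beq_refl] at q1
  simp only [Bool.and_self, Bool.not_true, Bool.false_or] at q1
  have q2 := List.all_eq_true.1 q1 a2 h2
  rw [e25, e26, e02, e12] at q2
  simp at q2

end Pool.Agent.Lib.MP_155633_al
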