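import Pool.Agent.Lib.MP_155633_al.Tab

/-!
The labelings of a six-point set that admit all exchanges.
-/

set_option autoImplicit false

namespace Pool.Agent.Lib.MP_155633_al

theorem chk6_a : (sw0.take 18).all chk6 = true := by decide +kernel

theorem chk6_b : (sw0.drop 18).all chk6 = true := by decide +kernel

theorem chk6_ok : sw0.all chk6 = true := by
  rw [← List.take_append_drop 18 sw0, List.all_append, chk6_a, chk6_b]
  rfl

end Pool.Agent.Lib.MP_155633_al
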