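import Pool.Agent.Lib.MP_155633_al.Basic
import Pool.Agent.Lib.MP_155633_al.Ramsey

/-!
The case `t ≥ 4`: Ramsey's theorem gives a `2t`-tuple all of whose increasing `(2t-1)`-subtuples
lie in one orbit; an exchange on it produces an induced cycle of length between `2` and `t`.
-/

set_option autoImplicit false

namespace Pool.Agent.Lib.MP_155633_al

open Equiv

variable {X : Type*}

theorem sa_val {m : ℕ} (p : Fin (m + 1)) (j : Fin m) :
    (p.succAbove j).val = if j.val < p.val then j.val else j.val + 1 := by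
  unfold Fin.succAbove
  by_cases h : j.val < p.val
  · rw [if_pos (by simpa [Fin.lt_def] using h), if_pos h]; rfl
  · rw [if_neg (by simpa [Fin.lt_def] using h), if_neg h]; rfl

theorem exists_uniform [Infinite X] {G : Subgroup (Perm X)} {s : ℕ} (hG : Gen G (s + 1)) :
    ∃ w : Fin (2 * s + 1 + 1) → X, Function.Injective w ∧
      ∀ i i', ∃ g ∈ G, ∀ j, g (w (Fin.succAbove i j)) = w (Fin.succAbove i' j) := by
  classical
  set e := Infinite.natEmbedding X with he
  set z0 : Fin (2 * s + 1) → X := fun j => e j.val with hz0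
  have hz0i : Function.Injective z0 := fun a b h => Fin.ext (e.injective h)
  let col : Finset ℕ → Set (Fin (2 * s + 1) → Fin (2 * s + 1)) := fun S =>
    {β | ∃ h : S.card = 2 * s + 1, ∃ g ∈ G, ∀ j, g (e (S.orderEmbOfFin h j)) = z0 (β j)}
  obtain ⟨N, hN⟩ := ramsey_one (Set (Fin (2 * s + 1) → Fin (2 * s + 1))) (2 * s + 1)
    (2 * s + 1 + 1)
  obtain ⟨B, -, hB, k, hk⟩ := hN ℕ (Finset.range N) col (by simp)
  set b := B.orderEmbOfFin hB with hb
  have hc : ∀ i, (B.erase (b i)).card = 2 * s + 1 := fun i => by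
    rw [Finset.card_erase_of_mem (Finset.orderEmbOfFin_mem _ _ _), hB]; rfl
  have hemb : ∀ i j, (B.erase (b i)).orderEmbOfFin (hc i) j = b (Fin.succAbove i j) := by
    intro i j
    have := Finset.orderEmbOfFin_unique (hc i) (f := fun j => b (Fin.succAbove i j))
      (fun j => Finset.mem_erase.2 ⟨fun h => Fin.succAbove_ne i j (b.injective h),
        Finset.orderEmbOfFin_mem _ _ _⟩)
      (b.strictMono.comp (Fin.strictMono_succAbove i))
    exact (congrFun this j).symm
  refine ⟨fun j => e (b j), e.injective.comp b.injective, fun i i' => ?_⟩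
  obtain ⟨g, hg, hgY⟩ := homog hG (Finset.univ.map ⟨z0, hz0i⟩) (by simp)
    ((B.erase (b i)).map e) (by rw [Finset.card_map, hc])
  have h1 : ∀ j, ∃ j', g (e (b (Fin.succAbove i j))) = z0 j' := fun j => by
    have := hgY (e (b (Fin.succAbove i j))) (Finset.mem_map_of_mem _ (by
      rw [← hemb]; exact Finset.orderEmbOfFin_mem _ _ _))
    obtain ⟨j', -, h⟩ := Finset.mem_map.1 this
    exact ⟨j', h.symm⟩
  choose β hβ using h1
  have m1 : β ∈ col (B.erase (b i)) := ⟨hc i, g, hg, fun j => by rw [hemb]; exact hβ j⟩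
  rw [hk _ (Finset.erase_subset _ _) (hc i), ← hk _ (Finset.erase_subset _ _) (hc i')] at m1
  obtain ⟨_, g', hg', h'⟩ := m1
  refine ⟨g'⁻¹ * g, G.mul_mem (G.inv_mem hg') hg, fun j => ?_⟩
  rw [Perm.mul_apply, hβ, ← h' j, hemb]
  simp

theorem small_of_jump {G : Subgroup (Perm X)} {m r : ℕ} {w : Fin (m + 1) → X}
    (hw : Function.Injective w)
    (hu : ∀ i i', ∃ g ∈ G, ∀ j, g (w (Fin.succAbove i j)) = w (Fin.succAbove i' j))
    (τ : Perm (Fin (m + 1))) (hτ : τ ∈ ind G w) (i i' : Fin (m + 1)) (hi : i'.val = i.val + 1)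
    (hj : ((τ i).val + 2 ≤ (τ i').val ∧ (τ i').val ≤ (τ i).val + r) ∨
      ((τ i').val + 2 ≤ (τ i).val ∧ (τ i).val ≤ (τ i').val + r)) :
    ∃ σ ∈ ind G (fun j => w (Fin.succAbove (τ i) j)), σ ≠ 1 ∧ σ.support.card ≤ r := by
  classical
  obtain ⟨g, hg, hgτ⟩ := hτ
  obtain ⟨u, hu', huu⟩ := hu i i'
  obtain ⟨v, hv', hvv⟩ := hu (τ i') (τ i)
  set a := τ i with ha
  set b := τ i' with hb
  have hginv : ∀ x, g⁻¹ (w x) = w (τ⁻¹ x) := fun x => by
    rw [Perm.inv_eq_iff_eq, hgτ]; simp
  have hufix : ∀ y, y ≠ i → y ≠ i' → u (w y) = w y := by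
    intro y h1 h2
    obtain ⟨j, rfl⟩ := Fin.exists_succAbove_eq h1
    rw [huu]
    congr 1
    apply Fin.ext
    have h3 : (i.succAbove j).val ≠ i'.val := fun e => h2 (Fin.ext e)
    rw [sa_val] at h3 ⊢
    rw [sa_val]
    split_ifs at h3 ⊢ <;> omega
  have humove : u (w i') = w i := by
    have hlt : i.val < m := by have := i'.2; omega
    have e1 : i.succAbove ⟨i.val, hlt⟩ = i' := Fin.ext (by rw [sa_val]; simp [hi])
    have e2 : i'.succAbove ⟨i.val, hlt⟩ = i := Fin.ext (by rw [sa_val]; simp [hi])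
    rw [← e1, huu, e2]
  have hδ1 : ∀ x, x ≠ a → x ≠ b → g (u (g⁻¹ (w x))) = w x := by
    intro x h1 h2
    rw [hginv, hufix, hgτ]
    · simp
    · exact fun e => h1 (by rw [ha, ← e]; simp)
    · exact fun e => h2 (by rw [hb, ← e]; simp)
  have hδ2 : g (u (g⁻¹ (w b))) = w a := by
    rw [hginv]
    have : τ⁻¹ b = i' := by simp [hb]
    rw [this, humove, hgτ]
  have hab : a ≠ b := fun e => by
    have := congrArg Fin.val e
    omega
  set γ : Perm X := v * g * u * g⁻¹ with hγ
  have hγ1 : ∀ j j', a.succAbove j = b.succAbove j' → γ (w (a.succAbove j)) = w (a.succAbove j') := by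
    intro j j' e
    simp only [hγ, Perm.mul_apply]
    rw [hδ1 _ (Fin.succAbove_ne a j) (e ▸ Fin.succAbove_ne b j'), e, hvv]
  have hγ2 : ∀ j j', a.succAbove j = b → b.succAbove j' = a →
      γ (w (a.succAbove j)) = w (a.succAbove j') := by
    intro j j' e e'
    simp only [hγ, Perm.mul_apply]
    rw [e, hδ2, ← hvv, e']
  have hinj : Function.Injective (fun j => w (a.succAbove j)) :=
    hw.comp Fin.succAbove_right_injective
  obtain ⟨σ, hσ⟩ := lift_perm (z' := fun j => w (a.succAbove j)) hinj γ (fun j => by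
    by_cases h : a.succAbove j = b
    · obtain ⟨j', e⟩ := Fin.exists_succAbove_eq hab
      exact ⟨j', hγ2 j j' h e⟩
    · obtain ⟨j', e⟩ := Fin.exists_succAbove_eq h
      exact ⟨j', hγ1 j j' e.symm⟩)
  have hγG : γ ∈ G := G.mul_mem (G.mul_mem (G.mul_mem hv' hg) hu') (G.inv_mem hg)
  refine ⟨σ, ⟨γ, hγG, hσ⟩, ?_, ?_⟩
  · intro e
    have ha2 := a.2
    have hb2 := b.2
    rcases hj with hj | hj
    · have := hγ2 ⟨b.val - 1, by omega⟩ ⟨a.val, by omega⟩
        (Fin.ext (by rw [sa_val]; simp only; split_ifs <;> omega))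
        (Fin.ext (by rw [sa_val]; simp only; split_ifs <;> omega))
      have h2 := hσ ⟨b.val - 1, by omega⟩
      rw [e] at h2
      have h3 := congrArg Fin.val (hinj (this.symm.trans h2))
      simp at h3
      omega
    · have := hγ2 ⟨b.val, by omega⟩ ⟨a.val - 1, by omega⟩
        (Fin.ext (by rw [sa_val]; simp only; split_ifs <;> omega))
        (Fin.ext (by rw [sa_val]; simp only; split_ifs <;> omega))
      have h2 := hσ ⟨b.val, by omega⟩
      rw [e] at h2
      have h3 := congrArg Fin.val (hinj (this.symm.trans h2))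
      simp at h3
      omega
  · have hsub : ∀ j ∈ σ.support, j.val ∈ Finset.Ico (min a.val b.val) (min a.val b.val + r) := by
      intro j hjs
      by_contra hno
      apply Perm.mem_support.1 hjs
      apply hinj
      rw [Finset.mem_Ico] at hno
      have := hγ1 j j (Fin.ext (by rw [sa_val, sa_val]; split_ifs <;> omega))
      exact (hσ j).symm.trans this
    have := Finset.card_le_card_of_injOn (fun j : Fin m => j.val) hsub
      (fun a _ b _ h => Fin.ext h)
    simpa using this

theorem exists_jump {s : ℕ} (hs : 3 ≤ s) (f : ℕ → ℕ)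
    (hinj : ∀ i < s, ∀ j < s, f i = f j → i = j)
    (hB : ∀ i < s, s ≤ f i ∧ f i ≠ s + 2 ∧ f i < 2 * s + 2) :
    ∃ i, i + 1 < s ∧ ((f i + 2 ≤ f (i + 1) ∧ f (i + 1) ≤ f i + (s + 1)) ∨
      (f (i + 1) + 2 ≤ f i ∧ f i ≤ f (i + 1) + (s + 1))) := by
  by_contra hno
  push Not at hno
  have hside : ∀ i < s, (f i < s + 2 ↔ f 0 < s + 2) := by
    intro i
    induction i with
    | zero => intro _; rfl
    | succ i ih =>
      intro hi
      rw [← ih (by omega)]
      have h1 := hno i hi
      have h2 := hB i (by omega)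
      have h3 := hB (i + 1) hi
      omega
  by_cases h0 : f 0 < s + 2
  · have := Finset.card_le_card_of_injOn (s := Finset.range s) (t := Finset.Ico s (s + 2)) f
      (fun i hi => by
        have hi' : i < s := by simpa using hi
        have := (hside i hi').2 h0
        have := hB i hi'
        simp only [Finset.coe_Ico, Set.mem_Ico]
        omega)
      (fun i hi j hj e => hinj i (by simpa using hi) j (by simpa using hj) e)
    simp at this
    omega
  · have := Finset.card_le_card_of_injOn (s := Finset.range s)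
      (t := Finset.Ico (s + 3) (2 * s + 2)) f
      (fun i hi => by
        have hi' : i < s := by simpa using hi
        have := (hside i hi').not.2 h0
        have := hB i hi'
        simp only [Finset.coe_Ico, Set.mem_Ico]
        omega)
      (fun i hi j hj e => hinj i (by simpa using hi) j (by simpa using hj) e)
    simp at this
    omega

theorem small_large [Infinite X] {G : Subgroup (Perm X)} {s : ℕ} (hs : 3 ≤ s)
    (hG : Gen G (s + 1)) : ∃ z : Fin (2 * s + 1) → X, Function.Injective z ∧
      ∃ σ ∈ ind G z, σ ≠ 1 ∧ σ.support.card ≤ s + 1 := by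
  classical
  obtain ⟨w, hw, hu⟩ := exists_uniform hG
  set A : Finset (Fin (2 * s + 1 + 1)) := Finset.univ.filter (fun j => j.val < s ∨ j.val = s + 2)
    with hA
  have hAc : A.card = s + 1 := by
    have : A.map Fin.valEmbedding = insert (s + 2) (Finset.range s) := by
      ext x
      simp only [hA, Finset.mem_map, Finset.mem_filter, Finset.mem_univ, true_and,
        Fin.valEmbedding_apply, Finset.mem_insert, Finset.mem_range]
      constructor
      · rintro ⟨j, h, rfl⟩
        omega
      · intro h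
        exact ⟨⟨x, by omega⟩, by simpa using h.symm, rfl⟩
    have h2 := congrArg Finset.card this
    rw [Finset.card_map, Finset.card_insert_of_notMem (by simp)] at h2
    simpa using h2
  obtain ⟨τ, hτ, h1, -⟩ := swap_perm hG hw A Aᶜ hAc
    (by rw [Finset.card_compl, hAc, Fintype.card_fin]; omega)
    (fun j => by by_cases h : j ∈ A <;> simp [h])
  obtain ⟨i, hi, hj⟩ := exists_jump hs
    (fun n => if h : n < 2 * s + 1 + 1 then (τ ⟨n, h⟩).val else 0)
    (fun i hi j hj e => by
      rw [dif_pos (by omega), dif_pos (by omega)] at e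
      simpa using τ.injective (Fin.ext e))
    (fun i hi => by
      rw [dif_pos (by omega)]
      have := h1 ⟨i, by omega⟩ (by simp [hA, hi])
      have h2 := (τ ⟨i, by omega⟩).2
      simp only [hA, Finset.mem_compl, Finset.mem_filter, Finset.mem_univ, true_and] at this
      omega)
  rw [dif_pos (by omega), dif_pos (by omega)] at hj
  obtain ⟨σ, hσ, h⟩ := small_of_jump hw hu τ hτ ⟨i, by omega⟩ ⟨i + 1, by omega⟩ rfl hj
  exact ⟨_, hw.comp Fin.succAbove_right_injective, σ, hσ, h⟩

end Pool.Agent.Lib.MP_155633_al
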