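import Pool.Agent.Lib.MP_155633_al.Basic
import Pool.Agent.Lib.MP_155633_al.Chk

/-!
The case `t = 3`: if no induced element moves at most three points of a five-point set, every
five-point set carries a near-one-factorisation; seven points give a contradiction.
-/

set_option autoImplicit false

namespace Pool.Agent.Lib.MP_155633_al

open Equiv

variable {X : Type*} {G : Subgroup (Perm X)}

/-- Induced elements with two fixed points are trivial. -/
def Sharp (G : Subgroup (Perm X)) : Prop :=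
  ∀ z : Fin 5 → X, Function.Injective z → ∀ σ ∈ ind G z, ∀ x y, x ≠ y → σ x = x → σ y = y → σ = 1

def Lab (G : Subgroup (Perm X)) (z : Fin 5 → X) (l : Fin 6) : Prop :=
  ∀ a : Fin 5, ∃ ρ ∈ ind G z, ∀ b, (ρ b).val = iv l a b

theorem vec5 {α : Type*} (f : Fin 5 → α) : ![f 0, f 1, f 2, f 3, f 4] = f := by
  funext j
  fin_cases j <;> rfl

theorem perm_dt (hS : Sharp G) {z : Fin 5 → X} (hz : Function.Injective z) (a : Fin 5)
    (ρ : Perm (Fin 5)) (hρ : ρ ∈ ind G z) (ha : ρ a = a) (h2 : ∀ b, ρ (ρ b) = b) (h1 : ρ ≠ 1) :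
    ∃ c : Fin 3, ∀ b, (ρ b).val = dt a c b := by
  have := dt_of_inv a (ρ 0) (ρ 1) (ρ 2) (ρ 3) (ρ 4)
  rw [vec5 ρ] at this
  exact this ha (fun b hb e => h1 (hS z hz ρ hρ b a hb e ha)) h2

theorem exists_inv (hG : Gen G 3) (hS : Sharp G) {z : Fin 5 → X} (hz : Function.Injective z)
    (a : Fin 5) : ∃ ρ ∈ ind G z, ρ a = a ∧ (∀ b, ρ (ρ b) = b) ∧ ρ ≠ 1 := by
  have n1 : a + 1 ≠ a := by revert a; decide
  have n2 : a + 2 ≠ a := by revert a; decide
  have n3 : a + 1 ≠ a + 2 := by revert a; decide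
  obtain ⟨σ, hσ, ha, h1, h2⟩ := swap_fix (s := 2) hG (by simp) hz a {a + 1, a + 2}
    (by simp only [Finset.mem_insert, Finset.mem_singleton, not_or]; exact ⟨n1.symm, n2.symm⟩)
    (Finset.card_pair n3)
  by_cases hs : σ * σ = 1
  · refine ⟨σ, hσ, ha, fun b => congrArg (fun τ : Perm (Fin 5) => τ b) hs, fun e => ?_⟩
    exact h1 (a + 1) (by simp) (by rw [e]; simp)
  · have hσ2 := (ind G z).mul_mem hσ hσ
    have hin : ∀ c ∈ ({a + 1, a + 2} : Finset (Fin 5)), σ (σ c) ∈ ({a + 1, a + 2} : Finset _) :=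
      fun c hc => h2 _ (fun e => by
        have := σ.injective (e.trans ha.symm)
        rw [this] at hc
        simp only [Finset.mem_insert, Finset.mem_singleton] at hc
        rcases hc with hc | hc
        exacts [n1 hc.symm, n2 hc.symm]) (h1 c hc)
    have ha2 : (σ * σ) a = a := by simp [ha]
    have e1 : σ (σ (a + 1)) = a + 2 := by
      have := hin (a + 1) (by simp)
      simp only [Finset.mem_insert, Finset.mem_singleton] at this
      exact this.resolve_left (fun e => hs (hS z hz _ hσ2 _ _ n1 e ha2))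
    have e2 : σ (σ (a + 2)) = a + 1 := by
      have := hin (a + 2) (by simp)
      simp only [Finset.mem_insert, Finset.mem_singleton] at this
      exact this.resolve_right (fun e => hs (hS z hz _ hσ2 _ _ n2 e ha2))
    have h4 := hS z hz _ ((ind G z).mul_mem hσ2 hσ2) (a + 1) a n1
      (by simp only [Perm.mul_apply, e1, e2]) (by simp [ha])
    exact ⟨σ * σ, hσ2, ha2, fun b => congrArg (fun τ : Perm (Fin 5) => τ b) h4, hs⟩

theorem exists_lab (hG : Gen G 3) (hS : Sharp G) {z : Fin 5 → X} (hz : Function.Injective z) :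
    ∃ l, Lab G z l := by
  have : ∀ a : Fin 5, ∃ c : Fin 3, ∃ ρ ∈ ind G z, ∀ b, (ρ b).val = dt a c b := fun a => by
    obtain ⟨ρ, hρ, h1, h2, h3⟩ := exists_inv hG hS hz a
    obtain ⟨c, hc⟩ := perm_dt hS hz a ρ hρ h1 h2 h3
    exact ⟨c, ρ, hρ, hc⟩
  choose c ρ hρ hc using this
  have hg : ∀ a : Fin 5, gt (cd6 (c 0) (c 1) (c 2) (c 3) (c 4) 0) a = c a := by
    intro a
    have := gt_cd6 ![c 0, c 1, c 2, c 3, c 4, 0] (fun j => by
      have h0 := (c 0).2
      have h1 := (c 1).2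
      have h2 := (c 2).2
      have h3 := (c 3).2
      have h4 := (c 4).2
      fin_cases j <;> simp <;> omega) a.castSucc
    fin_cases a <;> exact this
  rcases lab_of_dt (c 0) (c 1) (c 2) (c 3) (c 4) with ⟨l, hl⟩ | ⟨a, a', -, x, hx, y, hxy, hy, j, hj⟩
  · exact ⟨l, fun a => ⟨ρ a, hρ a, fun b => by rw [hc, ← hl, hg]⟩⟩
  · exfalso
    rw [hg, hg, ← hc, ← hc] at hx hy hj
    have := hS z hz _ ((ind G z).mul_mem (hρ a) (hρ a')) x y hxy (Fin.ext hx) (Fin.ext hy)
    exact hj (congrArg (fun τ : Perm (Fin 5) => (τ j).val) this)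

theorem lab_uniq (hS : Sharp G) {z : Fin 5 → X} (hz : Function.Injective z) {l : Fin 6}
    (hl : Lab G z l) (a : Fin 5) (ρ : Perm (Fin 5)) (hρ : ρ ∈ ind G z) (ha : ρ a = a)
    (h2 : ∀ b, ρ (ρ b) = b) (h1 : ρ ≠ 1) : ∀ b, (ρ b).val = iv l a b := by
  obtain ⟨c, hc⟩ := perm_dt hS hz a ρ hρ ha h2 h1
  rcases dt_uniq l a c with h | ⟨a', x, hx, y, hxy, hy, j, hj⟩
  · exact fun b => (hc b).trans (h b)
  · exfalso
    obtain ⟨ρ', hρ', h'⟩ := hl a'
    rw [← h', ← hc] at hx hy hj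
    have := hS z hz _ ((ind G z).mul_mem hρ hρ') x y hxy (Fin.ext hx) (Fin.ext hy)
    exact hj (congrArg (fun τ : Perm (Fin 5) => (τ j).val) this)

theorem lab_transport (hS : Sharp G) {z z' : Fin 5 → X} (hz' : Function.Injective z')
    {l l' : Fin 6} (hl : Lab G z l) (hl' : Lab G z' l') {g : Perm X} (hg : g ∈ G)
    (π : Perm (Fin 5)) (hπ : ∀ j, g (z j) = z' (π j)) (a b c : Fin 5) (hc : c.val = iv l a b) :
    (π c).val = iv l' (π a) (π b) := by
  obtain ⟨ρ, ⟨k, hk, hkρ⟩, hρ⟩ := hl a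
  obtain ⟨p1, p2⟩ := iv_props l a
  have hρa : ρ a = a := Fin.ext ((hρ a).trans p1)
  have hρ2 : ∀ b, ρ (ρ b) = b := fun b => Fin.ext (by rw [hρ, hρ]; exact (p2 b).2)
  have hρ1 : ρ ≠ 1 := fun e => by
    have n1 : a + 1 ≠ a := (by decide : ∀ a : Fin 5, a + 1 ≠ a) a
    exact (p2 (a + 1)).1 n1 (by rw [← hρ, e]; rfl)
  have hmem : π * ρ * π⁻¹ ∈ ind G z' := by
    refine ⟨g * k * g⁻¹, G.mul_mem (G.mul_mem hg hk) (G.inv_mem hg), fun j => ?_⟩
    have : g⁻¹ (z' j) = z (π⁻¹ j) := by rw [Perm.inv_eq_iff_eq, hπ]; simp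
    simp only [Perm.mul_apply, this, hkρ, hπ]
  have := lab_uniq hS hz' hl' (π a) _ hmem (by simp [hρa]) (fun b => by simp [hρ2])
    (fun e => hρ1 (by simpa using e)) (π b)
  rw [← this, show c = ρ b from Fin.ext (hc.trans (hρ b).symm)]
  simp

theorem sk_val : ∀ (i : Fin 6) (j : Fin 5), (i.succAbove j).val = sk i j := by decide

theorem unsk_val : ∀ (i : Fin 6) (j : Fin 5), unsk i (i.succAbove j).val = j := by decide

open Classical in
/-- The label of a five-point tuple. -/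
noncomputable def lab (G : Subgroup (Perm X)) (z : Fin 5 → X) : Fin 6 := epsilon (Lab G z)

theorem lab_spec (hG : Gen G 3) (hS : Sharp G) {z : Fin 5 → X} (hz : Function.Injective z) :
    Lab G z (lab G z) := Classical.epsilon_spec (exists_lab hG hS hz)

/-- The six labels of a six-point tuple, as one number. -/
noncomputable def lab6 (G : Subgroup (Perm X)) (w : Fin 6 → X) : ℕ :=
  cd6 (lab G (w ∘ Fin.succAbove 0)) (lab G (w ∘ Fin.succAbove 1)) (lab G (w ∘ Fin.succAbove 2))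
    (lab G (w ∘ Fin.succAbove 3)) (lab G (w ∘ Fin.succAbove 4)) (lab G (w ∘ Fin.succAbove 5))

theorem gt_lab6 (w : Fin 6 → X) (i : Fin 6) :
    gt (lab6 G w) i = lab G (w ∘ Fin.succAbove i) :=
  gt_cd6 (fun i => (lab G (w ∘ Fin.succAbove i)).val)
    (fun j => (lab G (w ∘ Fin.succAbove j)).2.trans (by norm_num)) i

theorem trp_of (hG : Gen G 3) (hS : Sharp G) {w w' : Fin 6 → X} (hw : Function.Injective w)
    (hw' : Function.Injective w') {g : Perm X} (hg : g ∈ G) (f : Fin 6 → Fin 6)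
    (hf : ∀ j, g (w j) = w' (f j)) :
    trp (cd6 (f 0) (f 1) (f 2) (f 3) (f 4) (f 5)) (lab6 G w) (lab6 G w') = true := by
  have hc : ∀ j : Fin 6, gt (cd6 (f 0) (f 1) (f 2) (f 3) (f 4) (f 5)) j = f j :=
    gt_cd6 (fun j => (f j).val) (fun j => (f j).2.trans (by norm_num))
  set c := cd6 (f 0) (f 1) (f 2) (f 3) (f 4) (f 5) with hcdef
  refine List.all_eq_true.2 fun i hi => ?_
  obtain ⟨i, rfl⟩ : ∃ j : Fin 6, j.val = i := ⟨⟨i, by
    simp only [r6, List.mem_cons, List.not_mem_nil, or_false] at hi; omega⟩, rfl⟩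
  rw [cpf_eq, hc, gt_lab6, gt_lab6]
  have hz : Function.Injective (w ∘ i.succAbove) := hw.comp Fin.succAbove_right_injective
  have hz' : Function.Injective (w' ∘ (f i).succAbove) := hw'.comp Fin.succAbove_right_injective
  obtain ⟨π, hπ⟩ := lift_perm (z' := w' ∘ (f i).succAbove) hz g (fun j => by
    have hne : f (i.succAbove j) ≠ f i := fun e => Fin.succAbove_ne i j (hw (g.injective (by
      rw [hf, hf, e])))
    obtain ⟨j', e⟩ := Fin.exists_succAbove_eq hne
    exact ⟨j', by simp only [Function.comp_apply, hf, e]⟩)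
  have hpat : ∀ j : Fin 5, pat c i j = π j := fun j => by
    have e : f (i.succAbove j) = (f i).succAbove (π j) := hw' ((hf _).symm.trans (hπ j))
    rw [pat, ← sk_val, hc, hc, e, unsk_val]
  have t := lab_transport hS hz' (lab_spec hG hS hz) (lab_spec hG hS hz') hg π hπ
  have h0 : pat c i 0 = π 0 := hpat 0
  have h1 : pat c i 1 = π 1 := hpat 1
  have t1 := t 0 1 ⟨_, Nat.mod_lt _ (by norm_num)⟩ rfl
  have t2 := t 1 0 ⟨_, Nat.mod_lt _ (by norm_num)⟩ rfl
  rw [← hpat] at t1 t2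
  rw [cp, h0, h1, Bool.and_eq_true]
  exact ⟨Nat.beq_eq.mpr t1, Nat.beq_eq.mpr t2⟩

theorem okk_of (m : ℕ) (σ : Perm (Fin 6)) (k : Fin 6)
    (h : m.testBit (σ k) ≠ m.testBit k) (prev : List (Fin 6)) (hk : k ∉ prev) :
    okk m k (σ k) (prev.map fun j => (σ j).val) = true := by
  simp only [okk, Bool.and_eq_true, bne_iff_ne, List.all_eq_true, List.mem_map]
  refine ⟨h, ?_⟩
  rintro _ ⟨j, hj, rfl⟩
  rw [Bool.not_eq_true', ← Bool.not_eq_true, Nat.beq_eq]
  exact fun e => hk (σ.injective (Fin.ext e) ▸ hj)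

theorem lab6_mem (hG : Gen G 3) (hS : Sharp G) {w : Fin 6 → X} (hw : Function.Injective w) :
    lab6 G w ∈ l66 := by
  refine mem_l66 (fun i => (lab G (w ∘ Fin.succAbove i)).val) (fun j => Fin.is_lt _) ?_
  refine List.all_eq_true.2 fun S hSm => ?_
  obtain ⟨A, rfl⟩ : ∃ A : Fin 10, sws.getD A [] = S := by
    obtain ⟨n, hn, rfl⟩ := List.getElem_of_mem hSm
    exact ⟨⟨n, hn⟩, List.getD_eq_getElem _ _ hn⟩
  set B := Finset.univ.filter fun j : Fin 6 => (masks.getD A 0).testBit j = true with hB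
  obtain ⟨σ, ⟨g, hg, hgσ⟩, h1, h2⟩ := swap_perm hG hw B Bᶜ (mask_card A)
    (by rw [Finset.card_compl, mask_card A]; rfl) (fun j => by by_cases h : j ∈ B <;> simp [h])
  have hb : ∀ k : Fin 6, (masks.getD A 0).testBit (σ k) ≠ (masks.getD A 0).testBit k := by
    intro k e
    by_cases hk : k ∈ B
    · have := Finset.mem_compl.1 (h1 k hk)
      exact this (Finset.mem_filter.2 ⟨Finset.mem_univ _, e.trans (Finset.mem_filter.1 hk).2⟩)
    · have := h2 k (Finset.mem_compl.2 hk)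
      exact hk (Finset.mem_filter.2 ⟨Finset.mem_univ _, e.symm.trans (Finset.mem_filter.1 this).2⟩)
  refine List.any_eq_true.2 ⟨_, swaps_mem A
    (σ 0) (okk_of _ σ 0 (hb 0) [] (by decide))
    (σ 1) (okk_of _ σ 1 (hb 1) [0] (by decide))
    (σ 2) (okk_of _ σ 2 (hb 2) [0, 1] (by decide))
    (σ 3) (okk_of _ σ 3 (hb 3) [0, 1, 2] (by decide))
    (σ 4) (okk_of _ σ 4 (hb 4) [0, 1, 2, 3] (by decide))
    (σ 5) (okk_of _ σ 5 (hb 5) [0, 1, 2, 3, 4] (by decide)), ?_⟩
  exact trp_of hG hS hw hw hg σ hgσ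

theorem lab_cons (W : Fin 7 → X) (i i' : Fin 7) (j j' : Fin 6)
    (h : ∀ k, i.succAbove (j.succAbove k) = i'.succAbove (j'.succAbove k)) :
    gt (lab6 G (W ∘ i.succAbove)) j = gt (lab6 G (W ∘ i'.succAbove)) j' := by
  rw [gt_lab6, gt_lab6]
  congr 2
  funext k
  simp only [Function.comp_apply, h]

theorem not_sharp [Infinite X] (hG : Gen G 3) : ¬ Sharp G := by
  classical
  intro hS
  set e := Infinite.natEmbedding X with he
  set z : Fin 5 → X := fun j => e j.val with hzdef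
  have hz : Function.Injective z := fun a b h => Fin.ext (e.injective h)
  have hl := lab_spec hG hS hz
  set l := lab G z with hldef
  set b : Fin 5 := ⟨iv l 0 1, Nat.mod_lt _ (by norm_num)⟩ with hb
  obtain ⟨p1, p2⟩ := iv_props l 0
  have hb1 : b ≠ 1 := fun h => (p2 1).1 (by decide) (congrArg Fin.val h)
  have hb0 : b ≠ 0 := fun h => by
    have h1 : iv l 0 1 = 0 := congrArg Fin.val h
    have h2 : iv l 0 (iv l 0 1) = 1 := (p2 1).2
    have h3 : iv l 0 0 = 0 := p1
    rw [h1, h3] at h2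
    exact absurd h2 (by decide)
  obtain ⟨σ, hσ, h0, h1, -⟩ := swap_fix (s := 2) hG (by simp) hz 0 {1, b}
    (by simp only [Finset.mem_insert, Finset.mem_singleton, not_or]; exact ⟨by decide, hb0.symm⟩)
    (Finset.card_pair hb1.symm)
  have hσ1 : σ ≠ 1 := fun h => h1 1 (by simp) (by rw [h]; simp)
  have hσ2 : σ * σ ≠ 1 := fun h => by
    have := lab_uniq hS hz hl 0 σ hσ h0 (fun b => congrArg (fun τ : Perm (Fin 5) => τ b) h) hσ1 1
    exact h1 1 (by simp) (by rw [show σ 1 = b from Fin.ext this]; simp)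
  have hcyc := cyc_mem (σ 1) (σ 2) (σ 3) (σ 4)
  have hv : ![0, σ 1, σ 2, σ 3, σ 4] = σ := by rw [← vec5 σ, h0]; rfl
  rw [hv] at hcyc
  have hmove : ∀ j, j ≠ 0 → σ j ≠ 0 ∧ σ j ≠ j ∧ σ (σ j) ≠ j := fun j hj =>
    ⟨fun h => hj (σ.injective (h.trans h0.symm)), fun h => hσ1 (hS z hz σ hσ j 0 hj h h0),
      fun h => hσ2 (hS z hz _ ((ind G z).mul_mem hσ hσ) j 0 hj h (by simp [h0]))⟩
  obtain ⟨hc, h4⟩ := hcyc hmove σ.injective
  obtain ⟨g, hg, hgσ⟩ := hσ
  by_cases hp : ∃ p, p ∉ Set.range z ∧ g p ≠ p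
  · obtain ⟨p, hp, hgp⟩ := hp
    have hq : g p ∉ Set.range z := by
      rintro ⟨j, hj⟩
      refine hp ⟨σ⁻¹ j, g.injective ?_⟩
      rw [hgσ, ← hj]
      simp
    set W : Fin 7 → X := Fin.snoc (α := fun _ => X) (Fin.snoc (α := fun _ => X) z p) (g p) with hW
    have hWi : Function.Injective W := by
      refine Fin.snoc_injective_iff.2 ⟨Fin.snoc_injective_iff.2 ⟨hz, hp⟩, ?_⟩
      rw [Fin.range_snoc]
      rintro (h | h)
      exacts [hgp h, hq h]
    have hD : ∀ i : Fin 7, Function.Injective (W ∘ i.succAbove) := fun i =>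
      hWi.comp Fin.succAbove_right_injective
    have ht := trp_of hG hS (hD 6) (hD 5) hg
      ![0, (σ 1).castSucc, (σ 2).castSucc, (σ 3).castSucc, (σ 4).castSucc, 5] (fun j => by
        have k5 : ∀ k : Fin 5, (W ∘ Fin.succAbove 5) k.castSucc = z k := fun k => by
          fin_cases k <;> rfl
        fin_cases j
        · exact (hgσ 0).trans (by rw [h0]; rfl)
        · exact (hgσ 1).trans (k5 _).symm
        · exact (hgσ 2).trans (k5 _).symm
        · exact (hgσ 3).trans (k5 _).symm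
        · exact (hgσ 4).trans (k5 _).symm
        · rfl)
    exact seven_false _ _ _ _ _ _ hc (lab6_mem hG hS (hD 0)) (lab6_mem hG hS (hD 1))
      (lab6_mem hG hS (hD 2)) (lab6_mem hG hS (hD 5)) (lab6_mem hG hS (hD 6)) ht
      (lab_cons W 5 6 5 5 (by decide)) (lab_cons W 0 5 4 0 (by decide))
      (lab_cons W 0 6 5 0 (by decide)) (lab_cons W 1 5 4 1 (by decide))
      (lab_cons W 1 6 5 1 (by decide)) (lab_cons W 0 1 0 0 (by decide))
      (lab_cons W 2 5 4 2 (by decide)) (lab_cons W 2 6 5 2 (by decide))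
      (lab_cons W 0 2 1 0 (by decide)) (lab_cons W 1 2 1 1 (by decide))
  · push Not at hp
    have hout : ∀ n, 5 ≤ n → g (e n) = e n := fun n hn => hp _ (by
      rintro ⟨j, hj⟩
      have := e.injective hj
      omega)
    obtain ⟨m0, -, m1⟩ := hmove 1 (by decide)
    have m2 : σ (σ 1) ≠ 0 := (hmove _ m0).1
    set z' : Fin 5 → X := fun j => e (![0, 1, (σ (σ 1)).val, 5, 6] j) with hz'
    have hz'i : Function.Injective z' := by
      have a0 : (σ (σ 1)).val ≠ 0 := fun h => m2 (Fin.ext h)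
      have a1 : (σ (σ 1)).val ≠ 1 := fun h => m1 (Fin.ext h)
      have a2 := (σ (σ 1)).2
      intro a b h
      have := e.injective h
      fin_cases a <;> fin_cases b <;> simp at this ⊢ <;> omega
    have hmem : swap (1 : Fin 5) 2 ∈ ind G z' := by
      refine ⟨g * g, G.mul_mem hg hg, fun j => ?_⟩
      fin_cases j
      · show g (g (z 0)) = z 0
        rw [hgσ, hgσ, h0, h0]
      · show g (g (z 1)) = z (σ (σ 1))
        rw [hgσ, hgσ]
      · show g (g (z (σ (σ 1)))) = z 1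
        rw [hgσ, hgσ, h4]
      · show g (g (e 5)) = e 5
        rw [hout 5 le_rfl, hout 5 le_rfl]
      · show g (g (e 6)) = e 6
        rw [hout 6 (by norm_num), hout 6 (by norm_num)]
    exact absurd (hS z' hz'i _ hmem 0 3 (by decide) (by decide) (by decide)) (by decide)

theorem small_three [Infinite X] (hG : Gen G 3) : ∃ z : Fin 5 → X, Function.Injective z ∧
    ∃ σ ∈ ind G z, σ ≠ 1 ∧ σ.support.card ≤ 3 := by
  by_contra hno
  push Not at hno
  refine not_sharp hG fun z hz σ hσ x y hxy hx hy => ?_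
  by_contra h1
  have h := hno z hz σ hσ h1
  have : σ.support ⊆ ({x, y} : Finset (Fin 5))ᶜ := fun u hu => Finset.mem_compl.2 fun h' => by
    simp only [Finset.mem_insert, Finset.mem_singleton] at h'
    rcases h' with rfl | rfl
    exacts [Perm.mem_support.1 hu hx, Perm.mem_support.1 hu hy]
  have h2 := Finset.card_le_card this
  rw [Finset.card_compl, Finset.card_pair hxy, Fintype.card_fin] at h2
  omega

end Pool.Agent.Lib.MP_155633_al
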