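import Pool.Agent.Lib.MP_155633_al.Large
import Pool.Agent.Lib.MP_155633_al.Three

/-!
All `t`: the alternating group is induced on every `(2t-1)`-set.
-/

set_option autoImplicit false

namespace Pool.Agent.Lib.MP_155633_al

open Equiv

variable {X : Type*} {G : Subgroup (Perm X)}

theorem exists_small [Infinite X] {s : ℕ} (hs : 1 ≤ s) (hG : Gen G (s + 1)) :
    ∃ z : Fin (2 * s + 1) → X, Function.Injective z ∧
      ∃ σ ∈ ind G z, σ ≠ 1 ∧ σ.support.card ≤ s + 1 := by
  rcases Nat.lt_or_ge s 3 with h | h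
  · interval_cases s
    · set e := Infinite.natEmbedding X
      have hz : Function.Injective fun j : Fin 3 => e j.val := fun a b h => Fin.ext (e.injective h)
      obtain ⟨σ, hσ, h0, h1, -⟩ := swap_fix (s := 1) hG (by simp) hz 0 {1} (by decide) rfl
      refine ⟨_, hz, σ, hσ, fun h => h1 1 (by simp) (by rw [h]; simp), ?_⟩
      have : σ.support ⊆ ({0} : Finset (Fin 3))ᶜ := fun u hu => Finset.mem_compl.2 fun h' => by
        rw [Finset.mem_singleton.1 h'] at hu
        exact Perm.mem_support.1 hu h0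
      simpa [Finset.card_compl] using Finset.card_le_card this
    · exact small_three hG
  · exact small_large h hG

theorem alt_induced [Infinite X] {t : ℕ} (ht : 1 ≤ t) (hG : Gen G t) (Y : Finset X)
    (hY : Y.card = 2 * t - 1) [DecidableEq Y] (σ : Perm Y) (hσ : Perm.sign σ = 1) :
    ∃ g ∈ G, ∀ y : Y, g y = σ y := by
  obtain ⟨s, rfl⟩ : ∃ s, t = s + 1 := ⟨t - 1, by omega⟩
  rcases Nat.eq_zero_or_pos s with rfl | hs
  · refine ⟨1, G.one_mem, fun y => ?_⟩
    have : Subsingleton Y := Fintype.card_le_one_iff_subsingleton.1 (by simp [hY])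
    rw [Subsingleton.elim (σ y) y]
    rfl
  · obtain ⟨z, hz, τ, hτ, h1, hc⟩ := exists_small hs hG
    obtain ⟨g, hg, hgY⟩ := homog hG Y (by omega) (Finset.univ.map ⟨z, hz⟩) (by simp)
    have hm : ∀ j, g (z j) ∈ Y := fun j => hgY _ (Finset.mem_map_of_mem _ (Finset.mem_univ j))
    have hb : Function.Bijective fun j => (⟨g (z j), hm j⟩ : Y) := by
      rw [Fintype.bijective_iff_injective_and_card]
      refine ⟨fun a b h => hz (g.injective (congrArg Subtype.val h)), ?_⟩
      simp only [Fintype.card_fin, Fintype.card_coe]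
      omega
    set e := Equiv.ofBijective _ hb with he
    have hez : ∀ j, (e j : X) = g (z j) := fun _ => rfl
    obtain ⟨k, hk, hkσ⟩ := alt_le hs hG (by simp) hz τ hτ h1 hc
      (show e.symm.permCongr σ ∈ alternatingGroup _ by
        rw [Perm.mem_alternatingGroup, Perm.sign_permCongr, hσ])
    refine ⟨g * k * g⁻¹, G.mul_mem (G.mul_mem hg hk) (G.inv_mem hg), fun y => ?_⟩
    have : g⁻¹ y = z (e.symm y) := by rw [Perm.inv_eq_iff_eq, ← hez]; simp
    simp only [Perm.mul_apply, this, hkσ, ← hez]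
    simp

end Pool.Agent.Lib.MP_155633_al
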