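import Mathlib

/-!
Ramsey theorem for hypergraphs (infinite form).
-/

set_option autoImplicit false

namespace Pool.Agent.Lib.MP_155633_al

theorem ramsey_inf (κ : Type) [Finite κ] (s : ℕ) : ∀ (col : Finset ℕ → κ) (A : Set ℕ),
    A.Infinite → ∃ B ⊆ A, B.Infinite ∧ ∃ k : κ,
      ∀ S : Finset ℕ, (S : Set ℕ) ⊆ B → S.card = s → col S = k := by
  classical
  induction s with
  | zero =>
    intro col A hA
    exact ⟨A, subset_rfl, hA, col ∅, fun S _ hS => by rw [Finset.card_eq_zero.1 hS]⟩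
  | succ s ih =>
    intro col A hA
    have step : ∀ C : {C : Set ℕ // C.Infinite}, ∃ (a : ℕ) (C' : {C : Set ℕ // C.Infinite}) (k : κ),
        a ∈ C.1 ∧ C'.1 ⊆ C.1 ∧ (∀ x ∈ C'.1, a < x) ∧
          ∀ S : Finset ℕ, (S : Set ℕ) ⊆ C'.1 → S.card = s → col (insert a S) = k := by
      rintro ⟨C, hC⟩
      obtain ⟨a, ha⟩ := hC.nonempty
      obtain ⟨B, hB, hBi, k, hk⟩ := ih (fun S => col (insert a S)) (C \ Set.Iic a)
        (hC.sdiff (Set.finite_Iic a))
      exact ⟨a, ⟨B, hBi⟩, k, ha, fun x hx => (hB hx).1, fun x hx => not_le.1 (hB hx).2, hk⟩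
    choose pt nx cl h1 h2 h3 h4 using step
    set C : ℕ → {C : Set ℕ // C.Infinite} := fun i => nx^[i] ⟨A, hA⟩ with hC
    have hs : ∀ i, C (i + 1) = nx (C i) := fun i => Function.iterate_succ_apply' _ _ _
    have hanti : Antitone fun i => (C i).1 :=
      antitone_nat_of_succ_le fun i => by rw [hs]; exact h2 _
    have hlt : ∀ i j, i < j → pt (C j) ∈ (nx (C i)).1 := fun i j h => by
      rw [← hs]
      exact hanti (Nat.succ_le_of_lt h) (h1 _)
    have hmono : StrictMono fun i => pt (C i) := fun i j h => h3 _ _ (hlt i j h)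
    obtain ⟨k, hk⟩ := Finite.exists_infinite_fiber fun i => cl (C i)
    have hki : ((fun i => cl (C i)) ⁻¹' {k}).Infinite := Set.infinite_coe_iff.1 hk
    refine ⟨(fun i => pt (C i)) '' ((fun i => cl (C i)) ⁻¹' {k}), ?_,
      hki.image hmono.injective.injOn, k, fun S hS hc => ?_⟩
    · rintro _ ⟨i, -, rfl⟩
      exact hanti (Nat.zero_le i) (h1 _)
    · have hne : S.Nonempty := Finset.card_pos.1 (by omega)
      obtain ⟨i, hi, e⟩ := hS (S.min'_mem hne)
      have h5 := h4 (C i) (S.erase (S.min' hne)) (fun x hx => by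
        obtain ⟨hx1, hx2⟩ := Finset.mem_erase.1 hx
        obtain ⟨j, -, rfl⟩ := hS hx2
        refine hlt i j (hmono.lt_iff_lt.1 ?_)
        exact lt_of_eq_of_lt e (lt_of_le_of_ne (S.min'_le _ hx2) hx1.symm))
        (by rw [Finset.card_erase_of_mem (S.min'_mem hne)]; omega)
      have e' : pt (C i) = S.min' hne := e
      rw [e', Finset.insert_erase (S.min'_mem hne)] at h5
      exact h5.trans hi

/-- Sequence form: a colouring of increasing tuples is constant along a subsequence. -/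
theorem ramsey_seq (κ : Type) [Finite κ] (s : ℕ) (col : (Fin s → ℕ) → κ) :
    ∃ w : ℕ → ℕ, StrictMono w ∧ ∃ k : κ,
      ∀ f : Fin s → ℕ, StrictMono f → col (fun i => w (f i)) = k := by
  classical
  obtain ⟨B, -, hB, k, hk⟩ := ramsey_inf κ s
    (fun S => if h : S.card = s then col (S.orderEmbOfFin h) else col fun _ => 0) Set.univ
    Set.infinite_univ
  refine ⟨Nat.nth (· ∈ B), Nat.nth_strictMono hB, k, fun f hf => ?_⟩
  have hm : StrictMono fun i => Nat.nth (· ∈ B) (f i) := (Nat.nth_strictMono hB).comp hf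
  have hc : (Finset.univ.image fun i => Nat.nth (· ∈ B) (f i)).card = s := by
    rw [Finset.card_image_of_injective _ hm.injective]
    simp
  have h1 := hk _ (fun x hx => by
    obtain ⟨i, -, rfl⟩ := Finset.mem_image.1 (Finset.mem_coe.1 hx)
    exact Nat.nth_mem_of_infinite hB _) hc
  rw [dif_pos hc, ← Finset.orderEmbOfFin_unique hc
    (fun i => Finset.mem_image_of_mem _ (Finset.mem_univ i)) hm] at h1
  exact h1

end Pool.Agent.Lib.MP_155633_al
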