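import Pool.Agent.Lib.MP_155633_al.AmSign
import Pool.Agent.Lib.MP_155633_al.Ramsey
import Pool.Agent.Lib.MP_155633_al.SopRamsey

/-!
A sign function gives, for every `n`, a relation of finite support with an infinite chain and
without closed walks of length at most `n + 1`.
-/

set_option autoImplicit false

namespace Pool.Agent.Lib.MP_155633_al

open Equiv

theorem ramsey_fin (κ : Type) [Finite κ] (s ρ : ℕ) : ∃ m : ℕ, ∀ col : (Fin s → ℕ) → κ,
    ∃ w : ℕ → ℕ, (∀ i j, i < j → j < ρ → w i < w j) ∧ (∀ i < ρ, w i < m) ∧ ∃ k : κ,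
      ∀ f : Fin s → ℕ, StrictMono f → (∀ i, f i < ρ) → col (fun i => w (f i)) = k := by
  classical
  obtain ⟨m, hm⟩ := ramsey_one κ s ρ
  refine ⟨m, fun col => ?_⟩
  obtain ⟨B, hB, hc, k, hk⟩ := hm ℕ (Finset.range m)
    (fun S => if h : S.card = s then col (S.orderEmbOfFin h) else col fun _ => 0) (by simp)
  set w : ℕ → ℕ := fun i => if h : i < ρ then B.orderEmbOfFin hc ⟨i, h⟩ else 0 with hw
  have hmem : ∀ i < ρ, w i ∈ B := fun i hi => by
    simp only [hw, dif_pos hi]
    exact Finset.orderEmbOfFin_mem _ _ _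
  have hlt : ∀ i j, i < j → j < ρ → w i < w j := fun i j h hj => by
    simp only [hw, dif_pos hj, dif_pos (h.trans hj)]
    exact (B.orderEmbOfFin hc).strictMono h
  refine ⟨w, hlt, fun i hi => Finset.mem_range.1 (hB (hmem i hi)), k, fun f hf hρ => ?_⟩
  have hm' : StrictMono fun i => w (f i) := fun i j h => hlt _ _ (hf h) (hρ j)
  have hc' : (Finset.univ.image fun i => w (f i)).card = s := by
    rw [Finset.card_image_of_injective _ hm'.injective]
    simp
  have h1 := hk _ (fun x hx => by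
    obtain ⟨i, -, rfl⟩ := Finset.mem_image.1 hx
    exact hmem _ (hρ i)) hc'
  rw [dif_pos hc', ← Finset.orderEmbOfFin_unique hc'
    (fun i => Finset.mem_image_of_mem _ (Finset.mem_univ i)) hm'] at h1
  exact h1

/-- A closed walk in a tournament contains a directed triangle. -/
theorem triangle {α : Type*} (E : α → α → Prop) (V : α → Prop) (h1 : ∀ x y, E x y → ¬ E y x)
    (h2 : ∀ x y, V x → V y → x ≠ y → E x y ∨ E y x) (h3 : ∀ x y, E x y → V x) (y : ℕ → α) :
    ∀ n : ℕ, (∀ i < n, E (y i) (y (i + 1))) → E (y n) (y 0) →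
      ∃ i ≤ n, ∃ j ≤ n, ∃ l ≤ n, E (y i) (y j) ∧ E (y j) (y l) ∧ E (y l) (y i) := by
  intro n
  induction n with
  | zero => exact fun _ h => absurd h (h1 _ _ h)
  | succ n ih =>
    intro hp hl
    have e1 := hp n (by omega)
    have hne : y n ≠ y 0 := fun h => h1 _ _ hl (h ▸ e1)
    rcases h2 _ _ (h3 _ _ e1) (h3 _ _ (hp 0 (by omega))) hne with h | h
    · obtain ⟨i, hi, j, hj, l, hl', h'⟩ := ih (fun i hi => hp i (by omega)) h
      exact ⟨i, by omega, j, by omega, l, by omega, h'⟩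
    · exact ⟨0, by omega, n, by omega, n + 1, le_rfl, h, e1, hl⟩

variable {X : Type*} {G : Subgroup (Perm X)}

/-- The function changes by the sign under a permutation of the entries. -/
def Alt {n : ℕ} (c : (Fin n → X) → ℝ) : Prop :=
  ∀ (σ : Perm (Fin n)) (T : Fin n → X), c (fun i => T (σ i)) = ((Perm.sign σ : ℤ) : ℝ) * c T

theorem Alt.tail {n : ℕ} {c : (Fin (n + 1) → X) → ℝ} (h : Alt c) (a : X) :
    Alt fun T : Fin n → X => c (Fin.cons a T) := by
  intro σ T
  have h1 := h (Perm.decomposeFin.symm (0, σ)) (Fin.cons a T)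
  rw [Perm.decomposeFin.symm_sign, if_pos rfl, one_mul] at h1
  refine Eq.trans (congrArg c ?_) h1
  funext i
  refine Fin.cases ?_ (fun j => ?_) i <;> simp

theorem Alt.swap {n : ℕ} {c : (Fin (n + 2) → X) → ℝ} (h : Alt c) (a b : X) (T : Fin n → X) :
    c (Fin.cons b (Fin.cons a T)) = - c (Fin.cons a (Fin.cons b T)) := by
  have h1 := h (Equiv.swap 0 1) (Fin.cons a (Fin.cons b T))
  rw [Perm.sign_swap Fin.zero_ne_one] at h1
  simp only [Units.val_neg, Units.val_one, Int.cast_neg, Int.cast_one, neg_mul, one_mul] at h1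
  rw [← h1]
  congr 1
  funext i
  refine Fin.cases ?_ (fun j => Fin.cases ?_ (fun l => ?_) j) i
  · simp
  · simp
  · rw [swap_apply_of_ne_of_ne (Fin.succ_ne_zero _) (Fin.succ_succ_ne_one _)]
    simp

theorem Alt.update {n : ℕ} {c : (Fin (n + 1) → X) → ℝ} (h : Alt c) (T : Fin (n + 1) → X)
    (p : Fin (n + 1)) (d : X) :
    c (Function.update T p d) = (-1) ^ (p : ℕ) * c (Fin.cons d fun i => T (p.succAbove i)) := by
  have h1 := h p.cycleRange (Fin.cons d fun i => T (p.succAbove i))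
  rw [Fin.sign_cycleRange] at h1
  simp only [Units.val_pow_eq_pow_val, Units.val_neg, Units.val_one, Int.cast_pow, Int.cast_neg,
    Int.cast_one, Fin.cons_apply_cycleRange] at h1
  rw [← h1, ← Fin.insertNth_removeNth]
  rfl

/-- A directed triangle in the link of `T` forbids a constant sign on the faces of `T`. -/
theorem no_triangle {u : ℕ} {c : (Fin (2 * u + 2 + 3) → X) → ℝ} (hc : SignFn G c) {ε η : ℝ}
    (hε : ε * ε = 1) (T : Fin (2 * u + 2 + 1) → X) (a b d : X)
    (h1 : c (Fin.cons a (Fin.cons b T)) = ε) (h2 : c (Fin.cons b (Fin.cons d T)) = ε)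
    (h3 : c (Fin.cons d (Fin.cons a T)) = ε) (hη : η * η ≤ 1)
    (h4 : ∀ p : Fin (2 * u + 2 + 1),
      c (Fin.cons a (Fin.cons b (Fin.cons d fun i => T (p.succAbove i)))) = η) : False := by
  have hA : Alt c := hc.alt
  have inj : ∀ S, c S = ε → Function.Injective S := fun S h => by
    by_contra hS
    rw [← h, hc.zero S hS] at hε
    simp at hε
  have i2 := Fin.cons_injective_iff.1 (inj _ h2)
  have i3 := Fin.cons_injective_iff.1 (inj _ h3)
  have hd : ∀ i, (Fin.cons a (Fin.cons b T) : Fin (2 * u + 2 + 3) → X) i ≠ d := by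
    intro i
    refine Fin.cases ?_ (fun j => Fin.cases ?_ (fun l => ?_) j) i
    · exact fun h => i3.1 ⟨0, h⟩
    · exact fun h => i2.1 ⟨0, h.symm⟩
    · exact fun h => i3.1 ⟨l.succ, h⟩
  have e0 : c (Function.update (Fin.cons a (Fin.cons b T) : Fin (2 * u + 2 + 3) → X) 0 d) = -ε := by
    rw [Fin.update_cons_zero, hA.swap, h2]
  have e1 : c (Function.update (Fin.cons a (Fin.cons b T) : Fin (2 * u + 2 + 3) → X)
      (Fin.succ 0) d) = -ε := by
    rw [← Fin.cons_update, Fin.update_cons_zero, hA.swap, h3]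
  have e2 : ∀ p : Fin (2 * u + 2 + 1), c (Function.update
      (Fin.cons a (Fin.cons b T) : Fin (2 * u + 2 + 3) → X) p.succ.succ d) = (-1) ^ (p : ℕ) * η := by
    intro p
    rw [← Fin.cons_update, ← Fin.cons_update, ← h4 p]
    exact ((hA.tail a).tail b).update T p d
  rcases hc.face _ (inj _ h1) d hd with h | h
  · rw [Fin.sum_univ_succ, Fin.sum_univ_succ, h1, e0, e1] at h
    simp only [e2] at h
    rw [← Finset.sum_mul, Fin.sum_univ_eq_sum_range (fun i => (-1 : ℝ) ^ i), neg_one_geom_sum,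
      if_neg (by rw [Nat.not_even_iff_odd]; exact ⟨u + 1, by ring⟩)] at h
    have : η = 3 * ε := by linarith
    rw [this] at hη
    nlinarith
  · have a0 := h (Fin.succ (Fin.succ 0))
    have a1 := h (Fin.succ (Fin.succ 1))
    rw [e2, h1] at a0 a1
    simp only [Fin.val_zero, pow_zero, Fin.val_one, pow_one] at a0 a1
    have : ε = 0 := by linarith
    rw [this] at hε
    simp at hε

theorem sop_of_signFn [Infinite X] {u : ℕ} {c : (Fin (2 * u + 2 + 3) → X) → ℝ} (hc : SignFn G c)
    (n : ℕ) : ∃ (A : Finset X) (R : X → X → Prop),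
      (∀ g ∈ G, (∀ a ∈ A, g a = a) → ∀ x y, R x y → R (g x) (g y)) ∧
      (∃ x : ℕ → X, ∀ i j, i < j → R (x i) (x j)) ∧
      ∀ r ≤ n, ∀ y : ℕ → X, (∀ i < r, R (y i) (y (i + 1))) → ¬ R (y r) (y 0) := by
  classical
  have hA : Alt c := hc.alt
  set e := Infinite.natEmbedding X
  obtain ⟨w, hw, k, hk⟩ := ramsey_seq Prop (2 * u + 2 + 3) fun f =>
    c (Fin.cons (e (f ⟨2 * u + 3, by omega⟩)) (Fin.cons (e (f ⟨2 * u + 4, by omega⟩))
      fun i : Fin (2 * u + 2 + 1) => e (f (Fin.castLE (by omega) i)))) = 1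
  set W : ℕ → X := fun i => e (w i) with hW
  have hWi : Function.Injective W := e.injective.comp hw.injective
  obtain ⟨m₁, hm₁⟩ := ramsey_fin (Prop × Prop) (2 * u + 2) (2 * u + 2 + 1)
  obtain ⟨m, hm⟩ := ramsey_fin (Fin (n + 1) × Fin (n + 1) × Fin (n + 1)) (2 * u + 2 + 1) m₁
  set ε : ℝ := if k then 1 else -1 with hε
  have hε2 : ε * ε = 1 := by
    rw [hε]
    split_ifs <;> norm_num
  have inj : ∀ S, c S = ε → Function.Injective S := fun S h => by
    by_contra hS
    rw [← h, hc.zero S hS] at hε2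
    simp at hε2
  refine ⟨(Finset.range m).image W, fun x y => ∀ f : Fin (2 * u + 2 + 1) → ℕ, StrictMono f →
    (∀ i, f i < m) → c (Fin.cons x (Fin.cons y fun i => W (f i))) = ε, ?_, ?_, ?_⟩
  · intro g hg hfix x y h f hf hfm
    rw [← h f hf hfm, ← hc.inv g hg (Fin.cons x (Fin.cons y fun i => W (f i)))]
    congr 1
    funext i
    refine Fin.cases rfl (fun j => Fin.cases rfl (fun l => ?_) j) i
    exact (hfix _ (Finset.mem_image_of_mem _ (Finset.mem_range.2 (hfm l)))).symm
  · refine ⟨fun i => W (m + i), fun i j hij f hf hfm => ?_⟩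
    set F : Fin (2 * u + 2 + 3) → ℕ := fun p =>
      if h : (p : ℕ) < 2 * u + 2 + 1 then f ⟨p, h⟩ else if (p : ℕ) = 2 * u + 3 then m + i
        else m + j with hF
    have hFm : StrictMono F := by
      intro p q hpq
      have h0 : (p : ℕ) < q := hpq
      have h1 := q.isLt
      simp only [hF]
      split_ifs with a1 a2 a3 <;> first
        | exact hf (show (⟨p, _⟩ : Fin _) < ⟨q, _⟩ from h0)
        | omega
        | (have := hfm ⟨p, a1⟩; omega)
    have h1 := hk F hFm
    have f1 : F ⟨2 * u + 3, by omega⟩ = m + i := by simp [hF]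
    have f2 : F ⟨2 * u + 4, by omega⟩ = m + j := by simp [hF]
    have f3 : ∀ l : Fin (2 * u + 2 + 1), F (Fin.castLE (by omega) l) = f l := fun l => by
      simp only [hF, Fin.val_castLE, dif_pos l.isLt]
    simp only [f1, f2, f3] at h1
    have hI : Function.Injective
        (Fin.cons (W (m + i)) (Fin.cons (W (m + j)) fun l => W (f l)) : Fin (2 * u + 2 + 3) → X) := by
      refine Fin.cons_injective_iff.2 ⟨?_, Fin.cons_injective_iff.2 ⟨?_, hWi.comp hf.injective⟩⟩
      · rintro ⟨l, hl⟩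
        revert hl
        refine Fin.cases (fun hl => ?_) (fun l hl => ?_) l
        · have := hWi hl
          omega
        · have h8 : f l = m + i := hWi hl
          have := hfm l
          omega
      · rintro ⟨l, hl⟩
        have h8 : f l = m + j := hWi hl
        have := hfm l
        omega
    have h2 := mul_self_eq_one_iff.1 (hc.sq _ hI)
    rw [hε]
    split_ifs with h
    · exact h1 ▸ h
    · exact h2.resolve_left fun h' => h (h1 ▸ h')
  · intro r hr y hp hl
    have tri : ∀ f : Fin (2 * u + 2 + 1) → ℕ, ∃ t : Fin (n + 1) × Fin (n + 1) × Fin (n + 1),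
        StrictMono f → (∀ i, f i < m) →
          c (Fin.cons (y t.1) (Fin.cons (y t.2.1) fun i => W (f i))) = ε ∧
          c (Fin.cons (y t.2.1) (Fin.cons (y t.2.2) fun i => W (f i))) = ε ∧
          c (Fin.cons (y t.2.2) (Fin.cons (y t.1) fun i => W (f i))) = ε := by
      intro f
      by_cases hf : StrictMono f ∧ ∀ i, f i < m
      · obtain ⟨i, hi, j, hj, l, hl', h⟩ := triangle
          (fun a b => c (Fin.cons a (Fin.cons b fun i => W (f i))) = ε)
          (fun a => a ∉ Set.range fun i => W (f i))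
          (fun a b h h' => by
            rw [hA.swap, h] at h'
            have : ε = 0 := by linarith
            rw [this] at hε2
            simp at hε2)
          (fun a b ha hb hab => by
            have hI : Function.Injective
                (Fin.cons a (Fin.cons b fun i => W (f i)) : Fin (2 * u + 2 + 3) → X) := by
              refine Fin.cons_injective_iff.2
                ⟨?_, Fin.cons_injective_iff.2 ⟨hb, hWi.comp hf.1.injective⟩⟩
              rintro ⟨l, hl⟩
              revert hl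
              exact Fin.cases (fun hl => hab hl.symm) (fun l hl => ha ⟨l, hl⟩) l
            rw [hA.swap a b]
            rcases mul_self_eq_mul_self_iff.1 ((hc.sq _ hI).trans hε2.symm) with h | h
            · exact Or.inl h
            · exact Or.inr (by rw [h, neg_neg]))
          (fun a b h ⟨l, hl⟩ => (Fin.cons_injective_iff.1 (inj _ h)).1 ⟨l.succ, hl⟩)
          y r (fun i hi => hp i hi f hf.1 hf.2) (hl f hf.1 hf.2)
        exact ⟨(⟨i, by omega⟩, ⟨j, by omega⟩, ⟨l, by omega⟩), fun _ _ => h⟩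
      · exact ⟨(0, 0, 0), fun h1 h2 => absurd ⟨h1, h2⟩ hf⟩
    choose tc htc using tri
    obtain ⟨w₁, a1, a2, t, ht⟩ := hm tc
    set φ : (Fin (2 * u + 2) → ℕ) → ℝ := fun f =>
      c (Fin.cons (y t.1) (Fin.cons (y t.2.1) (Fin.cons (y t.2.2) fun i => W (w₁ (f i))))) with hφ
    obtain ⟨w₂, b1, b2, k₂, hk₂⟩ := hm₁ fun f => (φ f = 1, φ f = -1)
    have c1 : StrictMono fun i : Fin (2 * u + 2 + 1) => w₂ i := fun i j h => b1 _ _ h j.isLt
    have c2 : StrictMono fun i : Fin (2 * u + 2 + 1) => w₁ (w₂ i) :=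
      fun i j h => a1 _ _ (c1 h) (b2 _ j.isLt)
    have h5 := htc _ c2 fun i => a2 _ (b2 _ i.isLt)
    rw [ht _ c1 fun i => b2 _ i.isLt] at h5
    have h6 : ∀ p : Fin (2 * u + 2 + 1),
        (φ (fun i => w₂ (p.succAbove i)) = 1, φ (fun i => w₂ (p.succAbove i)) = -1) = k₂ :=
      fun p => hk₂ (fun i => (p.succAbove i : ℕ)) (fun i j h => Fin.strictMono_succAbove p h)
        fun i => (p.succAbove i).isLt
    have h7 : ∀ S, c S = 1 ∨ c S = -1 ∨ c S = 0 := fun S => by
      by_cases hS : Function.Injective S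
      · rcases mul_self_eq_one_iff.1 (hc.sq S hS) with h | h
        exacts [Or.inl h, Or.inr (Or.inl h)]
      · exact Or.inr (Or.inr (hc.zero S hS))
    refine no_triangle hc hε2 (η := φ fun i => w₂ ((0 : Fin (2 * u + 2 + 1)).succAbove i))
      (fun i => W (w₁ (w₂ i))) _ _ _ h5.1 h5.2.1 h5.2.2 ?_ fun p => ?_
    · rcases h7 (Fin.cons (y t.1) (Fin.cons (y t.2.1) (Fin.cons (y t.2.2) fun i =>
        W (w₁ (w₂ ((0 : Fin (2 * u + 2 + 1)).succAbove i)))))) with h | h | h <;>
        simp only [hφ, h] <;> norm_num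
    · have h8 := (h6 p).trans (h6 0).symm
      rw [Prod.mk.injEq] at h8
      show φ (fun i => w₂ (p.succAbove i)) = _
      rcases h7 (Fin.cons (y t.1) (Fin.cons (y t.2.1) (Fin.cons (y t.2.2) fun i =>
        W (w₁ (w₂ (p.succAbove i)))))) with h | h | h
      · exact h.trans (h8.1 ▸ h).symm
      · exact h.trans (h8.2 ▸ h).symm
      · rcases h7 (Fin.cons (y t.1) (Fin.cons (y t.2.1) (Fin.cons (y t.2.2) fun i =>
          W (w₁ (w₂ ((0 : Fin (2 * u + 2 + 1)).succAbove i)))))) with h' | h' | h'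
        · exact h8.1.symm ▸ h' |>.trans h'.symm
        · exact h8.2.symm ▸ h' |>.trans h'.symm
        · exact h.trans h'.symm

theorem trans_of_nsop [Infinite X] {t : ℕ} (ht : 1 ≤ t) (hG : Gen G t) (n : ℕ)
    (hn : ∀ (A : Finset X) (R : X → X → Prop),
      (∀ g ∈ G, (∀ a ∈ A, g a = a) → ∀ x y, R x y → R (g x) (g y)) →
      (∃ x : ℕ → X, ∀ i j, i < j → R (x i) (x j)) →
      ∃ r ≤ n, ∃ y : ℕ → X, (∀ i < r, R (y i) (y (i + 1))) ∧ R (y r) (y 0))
    (x y : Fin (2 * t - 1) → X) (hx : Function.Injective x) (hy : Function.Injective y) :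
    ∃ g ∈ G, ∀ i, g (x i) = y i := by
  obtain ⟨s, rfl⟩ : ∃ s, t = s + 1 := ⟨t - 1, by omega⟩
  rcases trans_or_sign hG with h | ⟨hs, c, hc⟩
  · exact h x y hx hy
  · obtain ⟨u, rfl⟩ : ∃ u, s = u + 2 := ⟨s - 2, by omega⟩
    obtain ⟨A, R, h1, h2, h3⟩ := sop_of_signFn (u := u) hc n
    obtain ⟨r, hr, z, h4, h5⟩ := hn A R h1 h2
    exact absurd h5 (h3 r hr z h4)

end Pool.Agent.Lib.MP_155633_al
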